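import Pool.Agent.H17.CF.D.Vtx

/-!
# Job CFD-5: base vertices

PROOFS.
* `ed_up`: `C.ed_iff`: two different lower neighbours of `z` exist only for `z.2 = 1, 3`, and then they have `r = 0`
  (`C.xr_uni` for `z.2 = 2`).
* `ed_le`: `Ed x y` implies `y.1 ≤ x.1` (`C.xr_lt`, `C.mr_lt`: `θ < μ`, `F ⊆ κ ω ≤ θ`).
* `no_base_ed`: `Ed (ν, 0) y` is impossible (`C.ed_iff`).
* `rl_base`: `isV_rl`, `no_base_ed`.
* `base_iff`, `←`: `x = (ν, 0)`; take `Y = T (ν', 0)` with `ν' ≠ ν` (`0` or `1`; `1 < lam` by `C.hlamκ`, `C.hκω`). For a sequence `S` let `α` be the bound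
  (`bdd_seq`), `μ = max α (max ν ν')`, `Z = T (μ, 1)`: adjacent to both (`adj_iff`, `ed_one`). If `Z ~ sec S a` (`le_iff`: the invariants
  are equal) then `{(μ, 1)} ∈ A (sec S a)`, so `res {(μ, 1)} α = ∅ ∈ A (sec S a) = A (T (μ, 1))`, contradiction (`isV_T`).
  `→`: `IsV X x` (`vert_iff`), `Y` with `IsV Y y`, `x ≠ y` (`isV_le`). Suppose `x.2 ≠ 0`. Let `α = max x.1 y.1 + 1 < lam`
  (`lam_succ`) and `S` from `exists_list`. There is `Z`, `IsV Z z` (`adj_exists`), adjacent to `x` and `y`, not equivalent to any section.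
  If `z.1 < α` then `T z = sec S a` for some `a`, and `Z ~ T z` (`isV_le` twice), contradiction. So `z.1 ≥ α > x.1, y.1`, so by `ed_le` `Ed z x`,
  `Ed z y`, so `x.2 = 0` by `ed_up`. Finally `x = (ν, 0)` with `ν = x.1 < lam` (`C.act_lt`).
-/

set_option autoImplicit false
set_option linter.unusedVariables false
set_option linter.unusedSectionVars false
set_option linter.unusedSimpArgs false

open Pool.Agent.H17.Omega Pool.Agent.H17.Omega.CTM Pool.Agent.H52.GC Pool.Agent.H7.IG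

namespace Pool.Agent.H17.CF.D

variable {N : Set ZFSet.{0}} {κ : Ordinal.{0}} {C : Cd N κ}

theorem ed_up {x y z : Row} (h : C.Ed z x) (h' : C.Ed z y) (hne : x ≠ y) : x.2 = 0 ∧ (z.2 = 1 ∨ z.2 = 3) := by
  rw [C.ed_iff] at h h'
  obtain ⟨-, -, h⟩ := h
  obtain ⟨-, -, h'⟩ := h'
  rcases h with ⟨h1, h2, -⟩ | ⟨h1, h2⟩ | ⟨h1, h2, -⟩
  · exact ⟨h2, Or.inl h1⟩
  · rcases h' with ⟨h3, -, -⟩ | ⟨h3, h4⟩ | ⟨h3, -, -⟩
    · omega
    · exact absurd (C.xr_uni _ _ _ h2 h4) hne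
    · omega
  · exact ⟨h2, Or.inr h1⟩

theorem ed_le {x y : Row} (h : C.Ed x y) : y.1 ≤ x.1 := by
  rw [C.ed_iff] at h
  obtain ⟨-, -, h⟩ := h
  rcases h with ⟨-, -, h⟩ | ⟨-, h⟩ | ⟨-, -, θ, F, hm, h⟩
  · exact h
  · exact (C.xr_lt _ _ h).1.le
  · obtain ⟨h1, h2, h3, -⟩ := C.mr_lt _ _ _ hm
    rcases h with h | h
    · rw [h]
      exact h2.le
    · have h4 : y.1 < κ * Ordinal.omega0 := Ordinal.toZFSet_mem_toZFSet_iff.1 (h3 h)
      exact (h4.trans_le (h1.trans h2.le)).le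

theorem no_base_ed {ν : Ordinal.{0}} {y : Row} : ¬ C.Ed (ν, 0) y := by
  intro h
  rw [C.ed_iff] at h
  obtain ⟨-, -, h⟩ := h
  rcases h with ⟨h, -⟩ | ⟨h, -⟩ | ⟨h, -⟩
  all_goals exact absurd h (by norm_num)

theorem rl_base {X Y : Re κ 4} (hX : Tr C X) (hY : Tr C Y) {ν ν' : Ordinal.{0}} (h : IsV C X (ν, 0))
    (h' : IsV C Y (ν', 0)) : Rl N C.Ω X Y ↔ ν ≠ ν' := by
  rw [isV_rl hX hY h h']
  constructor
  · rintro ⟨h1, -⟩ rfl
    exact h1 rfl
  · intro h1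
    exact ⟨fun h2 => h1 (congrArg Prod.fst h2), no_base_ed, no_base_ed⟩

theorem base_iff {X : Re κ 4} (hX : Tr C X) : Base C X ↔ ∃ ν, ν < C.lam ∧ IsV C X (ν, 0) := by
  constructor
  · rintro ⟨hV, Y, hY, hYV, hne, hS⟩
    obtain ⟨x, hx⟩ := (vert_iff hX).1 hV
    obtain ⟨y, hy⟩ := (vert_iff hY).1 hYV
    have hxy : x ≠ y := fun h => hne ((isV_le hX hY hx hy).2 h)
    have hα : max x.1 y.1 + 1 < C.lam := lam_succ C (max_lt hx.lt hy.lt)
    obtain ⟨S, hSS, hS'⟩ := exists_list C hα (lt_of_le_of_lt zero_le (lt_add_one _))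
    obtain ⟨Z, hZ, h1, h2, h3⟩ := hS S hSS
    obtain ⟨z, x', hz, hx', hE⟩ := adj_exists hZ hX h1
    obtain ⟨z', y', hz', hy', hE'⟩ := adj_exists hZ hY h2
    obtain rfl := isV_uniq hx hx'
    obtain rfl := isV_uniq hy hy'
    obtain rfl := isV_uniq hz hz'
    have hzα : max x.1 y.1 + 1 ≤ z.1 := by
      by_contra hlt
      obtain ⟨a, ha⟩ := hS' z hz.1 (not_le.1 hlt)
      have h4 := h3 a
      rw [ha] at h4
      exact h4 ⟨(isV_le hZ (tr_T hz.1) hz (isV_T hz.1)).2 rfl, (isV_le (tr_T hz.1) hZ (isV_T hz.1) hz).2 rfl⟩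
    have hzα' : max x.1 y.1 < z.1 := lt_of_lt_of_le (lt_add_one _) hzα
    have hEx : C.Ed z x := by
      rcases hE with hE | hE
      · exact hE
      · exact absurd (ed_le hE) (not_le.2 ((le_max_left _ _).trans_lt hzα'))
    have hEy : C.Ed z y := by
      rcases hE' with hE' | hE'
      · exact hE'
      · exact absurd (ed_le hE') (not_le.2 ((le_max_right _ _).trans_lt hzα'))
    have h0 := (ed_up hEx hEy hxy).1
    refine ⟨x.1, hx.lt, ?_⟩
    have h5 : (x.1, 0) = x := Prod.ext rfl h0.symm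
    rw [h5]
    exact hx
  · rintro ⟨ν, hν, h⟩
    have h1 : (1 : Ordinal.{0}) < C.lam := (Ordinal.one_lt_omega0.trans_le C.hκω).trans C.hlamκ
    obtain ⟨ν', hν', hne⟩ : ∃ ν', ν' < C.lam ∧ ν ≠ ν' := by
      by_cases h0 : ν = 0
      · exact ⟨1, h1, by rw [h0]; exact zero_ne_one⟩
      · exact ⟨0, lam_pos C, h0⟩
    have hact : (ν', 0) ∈ C.Act := C.act3 ν' hν' 0 (by norm_num)
    refine ⟨(vert_iff hX).2 ⟨_, h⟩, C.T (ν', 0), tr_T hact, (vert_iff (tr_T hact)).2 ⟨_, isV_T hact⟩,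
      fun h2 => hne (congrArg Prod.fst ((isV_le hX (tr_T hact) h (isV_T hact)).1 h2)), fun S hS => ?_⟩
    obtain ⟨α, hα, hb⟩ := bdd_seq hS
    have hμ : max α (max ν ν') < C.lam := max_lt hα (max_lt hν hν')
    have hZ : (max α (max ν ν'), 1) ∈ C.Act := C.act3 _ hμ 1 (by norm_num)
    refine ⟨C.T (max α (max ν ν'), 1), tr_T hZ, (adj_iff (tr_T hZ) hX (isV_T hZ) h).2
      (Or.inl (ed_one hμ ((le_max_left _ _).trans (le_max_right _ _)))),
      (adj_iff (tr_T hZ) (tr_T hact) (isV_T hZ) (isV_T hact)).2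
      (Or.inl (ed_one hμ ((le_max_right _ _).trans (le_max_right _ _)))), fun a h2 => ?_⟩
    rw [le_iff (tr_T hZ) (hS.tr a), le_iff (hS.tr a) (tr_T hZ)] at h2
    have h3 := hb α le_rfl a _ (h2.1 (isV_T hZ).self)
    have h4 : res {((max α (max ν ν'), 1) : Row)} α = ∅ := by
      ext x
      simp only [res, Set.mem_setOf_eq, Set.mem_singleton_iff, Set.mem_empty_iff_false, iff_false, not_and,
        not_lt]
      rintro rfl
      exact le_max_left _ _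
    rw [h4] at h3
    exact (((isV_T hZ).2 _).1 (h2.2 h3)).2

end Pool.Agent.H17.CF.D
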