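import Pool.Agent.H17.CF.D.Def
import Pool.Agent.H7.IG.Tk4

/-!
# Job CFD-1a: successors

TOOLS. `Cvr N Y X` (H7/IG/Defs): `X` is contained in the image of a part of `Y` under a single valued `f ∈ N`.
H7/IG/Tk4: `cvr_of_dfn` (a definable relation `F y x`, single valued on `Y`, that reaches all `x ∈ X`), `Cvr.trans`, `Cvr.mono`.
Definability with the `PD`/`Df` calculus of H17/CF/PD.lean (`Df.mem`, `Df.eq`, `PD.var`, `PD.const`, `PD.pair`, `PD.insert`, ...) or the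
block in the header of H7/IG/UD.lean. Ordinals: `Ordinal.mem_toZFSet_iff`, `Ordinal.toZFSet_add_one`.

PROOFS.
* `cvr_succ`: `F y x := (y = 0 and x = α) or (y ∈ ω and y = x ∪ {x}) or (y ∉ ω and x = y)`.
* `kap_succ`: if `κ ≤ α + 1` then `κ = α + 1`, `α ≥ ω` (else `α + 1 < ω ≤ κ`), and `cvr_succ` contradicts `C.hκ α`. `lam_succ`: if
  `lam = α + 1` then `α ≥ κ ≥ ω`, and `C.hcov α`, `cvr_succ` and `Cvr.trans` contradict `C.hlam`.

Status: complete (helper26).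
-/

set_option autoImplicit false
set_option linter.unusedVariables false
set_option linter.unusedSectionVars false
set_option linter.unusedSimpArgs false

open Pool.Agent.H17.Omega Pool.Agent.H17.Omega.CTM Pool.Agent.H52.GC Pool.Agent.H7.IG

namespace Pool.Agent.H17.CF.D

variable {N : Set ZFSet.{0}} {κ : Ordinal.{0}}

theorem cvr_succ (hN : CTM N) {α : Ordinal.{0}} (hα : Ordinal.omega0 ≤ α) (hαN : α.toZFSet ∈ N) :
    Cvr N α.toZFSet (α + 1).toZFSet := by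
  have hα1N : (α + 1).toZFSet ∈ N := by
    rw [Ordinal.toZFSet_add_one]
    exact hN.insert_mem hαN hαN
  have hom : ∀ n : ℕ, natZ.{0} n ∈ α.toZFSet := by
    intro n
    rw [natZ_eq, Ordinal.toZFSet_mem_toZFSet_iff]
    exact (Ordinal.natCast_lt_omega0 n).trans_le hα
  have hinj : ∀ x x' : ZFSet.{0}, insert x x = insert x' x' → x = x' := by
    intro x x' h
    by_contra hne
    have h1 : x ∈ (insert x' x' : ZFSet.{0}) := by
      rw [← h]; exact ZFSet.mem_insert _ _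
    have h2 : x' ∈ (insert x x : ZFSet.{0}) := by
      rw [h]; exact ZFSet.mem_insert _ _
    rw [ZFSet.mem_insert_iff] at h1 h2
    rcases h1 with h1 | h1
    · exact hne h1
    · rcases h2 with h2 | h2
      · exact hne h2.symm
      · exact ZFSet.mem_asymm h1 h2
  have hF : hN.Dfn (fun v : Fin 2 → N => ((v 0).1 = ∅ ∧ (v 1).1 = (⟨α.toZFSet, hαN⟩ : N).1) ∨
      ((v 0).1 ∈ (⟨omZ, hN.omZ_mem⟩ : N).1 ∧ (v 0).1 = insert (v 1).1 (v 1).1) ∨
      (¬ (v 0).1 ∈ (⟨omZ, hN.omZ_mem⟩ : N).1 ∧ (v 1).1 = (v 0).1)) := by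
    (repeat' first
      | exact DT.var _ | exact DT.last | exact DT.const _ | assumption
      | refine Dfn.mem ?_ ?_
      | refine Dfn.eqv ?_ ?_
      | refine Dfn.isEmpty ?_
      | refine Dfn.isInsert ?_ ?_ ?_
      | refine Dfn.and ?_ ?_ | refine Dfn.or ?_ ?_ | refine Dfn.not ?_)
  refine cvr_of_dfn hN (F := fun y x : N => (y.1 = ∅ ∧ x.1 = α.toZFSet) ∨
      (y.1 ∈ omZ ∧ y.1 = insert x.1 x.1) ∨ (¬ y.1 ∈ omZ ∧ x.1 = y.1)) hF hαN hα1N ?_ ?_
  · intro y hy x x' h1 h2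
    have h0 : (∅ : ZFSet.{0}) ∈ omZ := natZ_mem_omZ 0
    apply Subtype.ext
    rcases h1 with ⟨h1, h1'⟩ | ⟨h1, h1'⟩ | ⟨h1, h1'⟩
    · rcases h2 with ⟨h2, h2'⟩ | ⟨h2, h2'⟩ | ⟨h2, h2'⟩
      · rw [h1', h2']
      · exfalso
        have h3 : x'.1 ∈ (∅ : ZFSet.{0}) := by
          rw [← h1, h2']; exact ZFSet.mem_insert _ _
        exact ZFSet.notMem_empty _ h3
      · exact absurd (h1 ▸ h0) h2
    · rcases h2 with ⟨h2, h2'⟩ | ⟨h2, h2'⟩ | ⟨h2, h2'⟩
      · exfalso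
        have h3 : x.1 ∈ (∅ : ZFSet.{0}) := by
          rw [← h2, h1']; exact ZFSet.mem_insert _ _
        exact ZFSet.notMem_empty _ h3
      · exact hinj _ _ (h1'.symm.trans h2')
      · exact absurd h1 h2
    · rcases h2 with ⟨h2, h2'⟩ | ⟨h2, h2'⟩ | ⟨h2, h2'⟩
      · exact absurd (h2 ▸ h0) h1
      · exact absurd h2 h1
      · rw [h1', h2']
  · intro x hx
    rw [Ordinal.toZFSet_add_one, ZFSet.mem_insert_iff] at hx
    rcases hx with hx | hx
    · exact ⟨⟨∅, hN.empty_mem⟩, hom 0, Or.inl ⟨rfl, hx⟩⟩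
    · by_cases hxo : x.1 ∈ omZ
      · obtain ⟨n, hn⟩ := mem_omZ.1 hxo
        refine ⟨⟨natZ (n + 1), hN.natZ_mem_N _⟩, hom _, Or.inr (Or.inl ⟨natZ_mem_omZ _, ?_⟩)⟩
        rw [hn]
        rfl
      · exact ⟨x, hx, Or.inr (Or.inr ⟨hxo, rfl⟩)⟩

theorem kap_succ (C : Cd N κ) {α : Ordinal.{0}} (h : α < κ) : α + 1 < κ := by
  by_contra hcon
  rw [not_lt] at hcon
  have h1 : α + 1 ≤ κ := Order.add_one_le_of_lt h
  have h2 : κ = α + 1 := le_antisymm hcon h1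
  have hαN : α.toZFSet ∈ N := C.hN.mem_of_mem C.hκN (Ordinal.toZFSet_mem_toZFSet_iff.2 h)
  have h3 : Ordinal.omega0 ≤ α := by
    by_contra hlt
    rw [not_le] at hlt
    obtain ⟨n, rfl⟩ := Ordinal.lt_omega0.1 hlt
    have h4 : ((n : Ordinal.{0}) + 1) < Ordinal.omega0 := by
      have := Ordinal.natCast_lt_omega0 (n + 1)
      rwa [Nat.cast_add, Nat.cast_one] at this
    exact absurd (h2 ▸ C.hκω : Ordinal.omega0 ≤ (n : Ordinal.{0}) + 1) (not_le.2 h4)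
  have h5 := cvr_succ C.hN h3 hαN
  rw [← h2] at h5
  exact C.hκ α h h5

theorem lam_succ (C : Cd N κ) {α : Ordinal.{0}} (h : α < C.lam) : α + 1 < C.lam := by
  by_contra hcon
  rw [not_lt] at hcon
  have h1 : α + 1 ≤ C.lam := Order.add_one_le_of_lt h
  have h2 : C.lam = α + 1 := le_antisymm hcon h1
  have hαN : α.toZFSet ∈ N := C.hN.mem_of_mem C.hlamN (Ordinal.toZFSet_mem_toZFSet_iff.2 h)
  have h3 : κ ≤ α := by
    have h4 := C.hlamκ
    rw [h2] at h4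
    exact Order.lt_add_one_iff.1 h4
  have h5 := cvr_succ C.hN (C.hκω.trans h3) hαN
  rw [← h2] at h5
  exact C.hlam (Cvr.trans C.hN C.hκN hαN C.hlamN (C.hcov α h) h5)

end Pool.Agent.H17.CF.D
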