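import Pool.Agent.H17.CF.D.NoInj

/-!
# Job CFD-7: connecting vertices, the order of the base vertices

PROOFS.
* `conn_iff`, `←`: `x = (μ, 1)`, `κ ≤ μ`. `S = {w | ((w 0, natZ 0), tup (w 1, ..., w 4)) ∈ z}`, `z` the code of `C.T_mem` (`InN.of_dfn`), so
  `sec S a = T (od a, 0)` (an active row: `od a < κ < lam`, `C.act3`). `Seq`: `C.T_tree`. `Base`: `base_iff`; `Adj`: `adj_iff`, `ed_one`
  (`od a < κ ≤ μ`); `Rl`: `rl_base`, `od_inj`.
  `→`: `IsV X x` (`vert_iff`); `choose ν` with `IsV (sec S a) (ν a, 0)` (`base_iff`); `ν` is injective (`rl_base`); `Ed x (ν a, 0)` for all `a`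
  (`adj_iff`, `no_base_ed`). Since `κ` has two different elements, `ed_up` gives `x.2 = 1` or `x.2 = 3`. If `x.2 = 3` then (`C.ed_iff`, `C.mr_uni`)
  `(ν a).toZFSet` is `θ` or in `F` (`C.mr_lt`: `FinZ F`), a finite set, but `κ` is infinite (the elements `n < ω ≤ κ`), a contradiction to the
  injectivity. So `x = (μ, 1)` and `ν a ≤ μ`; `μ < κ` is impossible by `no_inj`.
* `conn_row`: from `conn_iff` and `isV_uniq`.
* `lt_iff`: `Z` with the row `(μ, 1)`, `κ ≤ μ`, `ν ≤ μ`, not `ν' ≤ μ` (`adj_iff`, `no_base_ed`, `C.ed_iff`, `ed_one`). For `←` take `μ = max ν κ`,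
  `Z = T (μ, 1)`.
* `basep_iff`: `lt_iff` with `Y = T (0, 0)`.
-/

set_option autoImplicit false
set_option linter.unusedVariables false
set_option linter.unusedSectionVars false
set_option linter.unusedSimpArgs false

open Pool.Agent.H17.Omega Pool.Agent.H17.Omega.CTM Pool.Agent.H52.GC Pool.Agent.H7.IG

namespace Pool.Agent.H17.CF.D

variable {N : Set ZFSet.{0}} {κ : Ordinal.{0}} {C : Cd N κ}

/-- The sequence of the trees of the rows `(a, 0)`, `a ∈ κ`. -/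
theorem cnn_seq (C : Cd N κ) : ∃ S : Re κ 5, Seq C S ∧ ∀ a, sec S a = C.T (od a, 0) := by
  obtain ⟨z, hz, hz'⟩ := C.T_mem
  have hP : C.hN.Dfn (fun v : Fin 5 → N => ZFSet.pair (ZFSet.pair (v 0).1 (natZ 0))
      (tup (fun i : Fin 4 => (v i.succ).1)) ∈ z) :=
    Df.mem (PD.pair (PD.pair (PD.var _) (PD.const (C.hN.natZ_mem_N 0))) (PD_tup fun i => PD.var _)) (PD.const hz)
  have hin := InN.of_dfn C.hN C.hκN hP
  have hact : ∀ a : El κ.toZFSet, (od a, 0) ∈ C.Act := fun a =>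
    C.act3 _ ((od_lt a).trans C.hlamκ) 0 (by norm_num)
  have hsec : ∀ a, sec {w : Fin 5 → El κ.toZFSet | ZFSet.pair (ZFSet.pair (up C.hN C.hκN (w 0)).1 (natZ 0))
      (tup (fun i : Fin 4 => (up C.hN C.hκN (w i.succ)).1)) ∈ z} a = C.T (od a, 0) := by
    intro a
    ext w
    rw [hz' (od a) 0 w (hact a), od_val]
    exact Iff.rfl
  refine ⟨_, ⟨hin, fun a => ?_⟩, hsec⟩
  rw [hsec a]
  exact C.T_tree _ (hact a)

theorem conn_iff {X : Re κ 4} (hX : Tr C X) :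
    Conn C X ↔ ∃ μ, κ ≤ μ ∧ μ < C.lam ∧ IsV C X (μ, 1) := by
  classical
  constructor
  · rintro ⟨hV, S, hS, h1, h2⟩
    obtain ⟨x, hx⟩ := (vert_iff hX).1 hV
    have h3 : ∀ a, ∃ ν, ν < C.lam ∧ IsV C (sec S a) (ν, 0) := fun a => (base_iff (hS.tr a)).1 (h1 a).1
    choose ν hν1 hν2 using h3
    have hinj : ∀ a b, a ≠ b → ν a ≠ ν b := fun a b hab =>
      (rl_base (hS.tr a) (hS.tr b) (hν2 a) (hν2 b)).1 (h2 a b hab)
    have hEd : ∀ a, C.Ed x (ν a, 0) := by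
      intro a
      rcases (adj_iff hX (hS.tr a) hx (hν2 a)).1 (h1 a).2 with h | h
      · exact h
      · exact (no_base_ed h).elim
    have hnκ : ∀ n : ℕ, (n : Ordinal.{0}) < κ := fun n => (Ordinal.natCast_lt_omega0 n).trans_le C.hκω
    have hel : ∀ n m : ℕ, el (hnκ n) = el (hnκ m) → n = m := by
      intro n m h
      have h4 := congrArg od h
      rw [od_el, od_el] at h4
      exact_mod_cast h4
    have h01 : el (hnκ 0) ≠ el (hnκ 1) := fun h => by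
      have := hel 0 1 h
      omega
    have h5 := ed_up (hEd (el (hnκ 0))) (hEd (el (hnκ 1))) (fun h => hinj _ _ h01 (Prod.ext_iff.1 h).1)
    rcases h5.2 with h6 | h6
    · refine ⟨x.1, ?_, hx.lt, ?_⟩
      · by_contra hcon
        refine no_inj (not_le.1 hcon) hS ν (fun a => ⟨?_, hν2 a⟩) hinj
        exact ed_le (hEd a)
      · have h7 : x = (x.1, 1) := Prod.ext rfl h6
        rw [← h7]
        exact hx
    · exfalso
      have h7 : ∀ a, ∃ θ F, C.mr x.1 θ F ∧ (ν a = θ ∨ (ν a).toZFSet ∈ F) := by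
        intro a
        obtain ⟨_, _, h8 | h8 | h8⟩ := (C.ed_iff _ _).1 (hEd a)
        · rw [h8.1] at h6
          omega
        · rw [h8.1] at h6
          omega
        · exact h8.2.2
      obtain ⟨θ, F, hm, _⟩ := h7 (el (hnκ 0))
      obtain ⟨_, _, _, s, hs⟩ := C.mr_lt _ _ _ hm
      have h8 : ∀ n : ℕ, (ν (el (hnκ n))).toZFSet ∈ ((insert θ.toZFSet s : Finset ZFSet.{0}) : Set ZFSet.{0}) := by
        intro n
        obtain ⟨θ', F', hm', h9⟩ := h7 (el (hnκ n))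
        obtain ⟨e1, e2⟩ := C.mr_uni _ _ _ _ _ hm' hm
        rw [Finset.mem_coe, Finset.mem_insert]
        rcases h9 with h9 | h9
        · left
          rw [h9, e1]
        · right
          rw [e2] at h9
          exact (hs _).1 h9
      have h9 : Function.Injective (fun n : ℕ => (ν (el (hnκ n))).toZFSet) := by
        intro n m h
        by_contra hne
        exact hinj _ _ (fun h10 => hne (hel n m h10)) (Ordinal.toZFSet_injective h)
      exact (Set.infinite_of_injective_forall_mem h9 h8) (Finset.finite_toSet _)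
  · rintro ⟨μ, hμ1, hμ2, hμ3⟩
    obtain ⟨S, hS, hsec⟩ := cnn_seq C
    have hact : ∀ a : El κ.toZFSet, (od a, 0) ∈ C.Act := fun a =>
      C.act3 _ ((od_lt a).trans C.hlamκ) 0 (by norm_num)
    have hV : ∀ a, IsV C (sec S a) (od a, 0) := fun a => by
      rw [hsec a]
      exact isV_T (hact a)
    refine ⟨(vert_iff hX).2 ⟨_, hμ3⟩, S, hS, fun a => ⟨?_, ?_⟩, fun a b hab => ?_⟩
    · exact (base_iff (hS.tr a)).2 ⟨od a, (od_lt a).trans C.hlamκ, hV a⟩
    · exact (adj_iff hX (hS.tr a) hμ3 (hV a)).2 (Or.inl (ed_one hμ2 ((od_lt a).le.trans hμ1)))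
    · exact (rl_base (hS.tr a) (hS.tr b) (hV a) (hV b)).2 fun h => hab (od_inj.1 h)

theorem conn_row {X : Re κ 4} (hX : Tr C X) {x : Row} (h : IsV C X x) : Conn C X ↔ x.2 = 1 ∧ κ ≤ x.1 := by
  rw [conn_iff hX]
  constructor
  · rintro ⟨μ, h1, h2, h3⟩
    have h4 := isV_uniq h h3
    rw [h4]
    exact ⟨rfl, h1⟩
  · rintro ⟨h1, h2⟩
    have h3 : x = (x.1, 1) := Prod.ext rfl h1
    exact ⟨x.1, h2, h.lt, by rw [← h3]; exact h⟩

theorem lt_iff {X Y : Re κ 4} (hX : Tr C X) (hY : Tr C Y) {ν ν' : Ordinal.{0}} (h : IsV C X (ν, 0))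
    (h' : IsV C Y (ν', 0)) : Lt C X Y ↔ ν < ν' ∧ κ < ν' := by
  have hed : ∀ (μ ν : Ordinal.{0}), C.Ed (μ, 1) (ν, 0) ∨ C.Ed (ν, 0) (μ, 1) → ν ≤ μ := by
    intro μ ν h1
    rcases h1 with h1 | h1
    · exact ed_le h1
    · exact (no_base_ed h1).elim
  constructor
  · rintro ⟨_, _, Z, hZ, hC, h1, h2⟩
    obtain ⟨μ, h3, h4, h5⟩ := (conn_iff hZ).1 hC
    rw [adj_iff hZ hX h5 h] at h1
    rw [adj_iff hZ hY h5 h'] at h2
    have h6 := hed _ _ h1
    have h7 : μ < ν' := by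
      by_contra hcon
      exact h2 (Or.inl (ed_one h4 (not_lt.1 hcon)))
    exact ⟨h6.trans_lt h7, h3.trans_lt h7⟩
  · rintro ⟨h1, h2⟩
    have hμ : max ν κ < C.lam := max_lt h.lt C.hlamκ
    have hact : (max ν κ, 1) ∈ C.Act := C.act3 _ hμ 1 (by norm_num)
    refine ⟨(base_iff hX).2 ⟨ν, h.lt, h⟩, (base_iff hY).2 ⟨ν', h'.lt, h'⟩, C.T (max ν κ, 1), tr_T hact, ?_, ?_, ?_⟩
    · exact (conn_iff (tr_T hact)).2 ⟨_, le_max_right _ _, hμ, isV_T hact⟩
    · exact (adj_iff (tr_T hact) hX (isV_T hact) h).2 (Or.inl (ed_one hμ (le_max_left _ _)))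
    · rw [adj_iff (tr_T hact) hY (isV_T hact) h']
      intro h3
      exact absurd (hed _ _ h3) (not_le.2 (max_lt h1 h2))

theorem basep_iff {X : Re κ 4} (hX : Tr C X) :
    BaseP C X ↔ ∃ ν, κ < ν ∧ ν < C.lam ∧ IsV C X (ν, 0) := by
  constructor
  · rintro ⟨hB, Y, hY, hL⟩
    obtain ⟨ν, h1, h2⟩ := (base_iff hX).1 hB
    obtain ⟨ν', h3, h4⟩ := (base_iff hY).1 hL.1
    exact ⟨ν, ((lt_iff hY hX h4 h2).1 hL).2, h1, h2⟩
  · rintro ⟨ν, h1, h2, h3⟩
    have hlam : (0 : Ordinal.{0}) < C.lam := lt_of_le_of_lt bot_le C.hlamκ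
    have hact : ((0 : Ordinal.{0}), 0) ∈ C.Act := C.act3 _ hlam 0 (by norm_num)
    exact ⟨(base_iff hX).2 ⟨ν, h2, h3⟩, C.T (0, 0), tr_T hact,
      (lt_iff (tr_T hact) hX (isV_T hact) h3).2 ⟨lt_of_le_of_lt bot_le h1, h1⟩⟩

end Pool.Agent.H17.CF.D
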