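import Pool.Agent.H17.CF.D.IdxF

/-!
# Job CFD-10a: the set of the codes of the tuples of a relation

`Fw κ w` is the finite set `{idx 0 0} ∪ {idx (j + 1) (w j) : j < n}` of indices.

PROOFS. `exists_Fw`: a finite set of sets (`ZFSet.range` / repeated `insert` over `Fin n` by induction, or `ZFSet.sep` from
`(κ * ω).toZFSet`, with `idx_lt_om`). `FinZ`: it is contained in the image of `Fin n` plus one point.
`Fw_sub`: if `Fw κ w ⊆ Fw κ w'` then `w = w'`: the index `idx (j + 1) (od (w j))` equals `idx 0 0` or `idx (i + 1) (od (w' i))` for some `i`, so `i = j`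
and `od (w j) = od (w' j)` (`idx_inj`, `od_inj`).
`exists_codeSet`: let `s` be the code of `E` and `h` from `exists_idxF`, `p` the power set of `κ ω` in `N` (`CTM.exists_pow`). `Y = {F ∈ p : ∃ w : Fin n → N,
(∀ i, w i ∈ κ) ∧ tup w ∈ s ∧ ∀ x : N, x ∈ F ↔ (x = (idx 0 0) ∨ ∃ j : Fin n, ((natZ (j + 1), w j), x) ∈ h)}` (`CTM.exists_sep`; definability: `exFinC`,
`allFiniteC` (and negation for the finite disjunction), `PD_tup`, `Df.*` in H17/CF/PD.lean and Tup.lean). The sets `Fw κ w` are in `p`: finite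
sets of elements of `N` are in `N` (`FinZ.mem`), and `idx_lt_om`.
-/

set_option autoImplicit false
set_option linter.unusedVariables false
set_option linter.unusedSectionVars false
set_option linter.unusedSimpArgs false

open Pool.Agent.H17.Omega Pool.Agent.H17.Omega.CTM Pool.Agent.H52.GC Pool.Agent.H7.IG

namespace Pool.Agent.H17.CF.D

variable {N : Set ZFSet.{0}} {κ : Ordinal.{0}} {n : ℕ}

theorem CodS_toZ_inj {α β : Ordinal.{0}} (h : α.toZFSet = β.toZFSet) : α = β := by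
  rw [← Ordinal.rank_toZFSet α, h, Ordinal.rank_toZFSet]

theorem exists_Fw (hκ : Ordinal.omega0 ≤ κ) (w : Fin n → El κ.toZFSet) : ∃ F : ZFSet.{0}, FinZ F ∧
    F ⊆ (κ * Ordinal.omega0).toZFSet ∧ ∀ x, x ∈ F ↔ (x = (idx κ 0 0).toZFSet ∨
      ∃ j : Fin n, x = (idx κ (j + 1) (od (w j))).toZFSet) := by
  classical
  have hκ0 : (0 : Ordinal.{0}) < κ := lt_of_lt_of_le Ordinal.omega0_pos hκ
  refine ⟨ZFSet.sep (fun x => x = (idx κ 0 0).toZFSet ∨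
    ∃ j : Fin n, x = (idx κ (j + 1) (od (w j))).toZFSet) (κ * Ordinal.omega0).toZFSet, ?_, ?_, ?_⟩
  · refine ⟨insert (idx κ 0 0).toZFSet
      (Finset.univ.image fun j : Fin n => (idx κ (j + 1) (od (w j))).toZFSet), fun x => ?_⟩
    rw [ZFSet.mem_sep, Finset.mem_insert, Finset.mem_image]
    constructor
    · rintro ⟨-, h | ⟨j, h⟩⟩
      · exact Or.inl h
      · exact Or.inr ⟨j, Finset.mem_univ _, h.symm⟩
    · rintro (h | ⟨j, -, h⟩)
      · exact ⟨h ▸ Ordinal.toZFSet_mem_toZFSet_iff.2 (idx_lt_om hκ 0 hκ0), Or.inl h⟩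
      · exact ⟨h ▸ Ordinal.toZFSet_mem_toZFSet_iff.2 (idx_lt_om hκ _ (od_lt _)), Or.inr ⟨j, h.symm⟩⟩
  · intro x hx
    exact (ZFSet.mem_sep.1 hx).1
  · intro x
    rw [ZFSet.mem_sep]
    constructor
    · exact fun h => h.2
    · rintro (h | ⟨j, h⟩)
      · exact ⟨h ▸ Ordinal.toZFSet_mem_toZFSet_iff.2 (idx_lt_om hκ 0 hκ0), Or.inl h⟩
      · exact ⟨h ▸ Ordinal.toZFSet_mem_toZFSet_iff.2 (idx_lt_om hκ _ (od_lt _)), Or.inr ⟨j, h⟩⟩

theorem Fw_sub {F : ZFSet.{0}} (hκ : Ordinal.omega0 ≤ κ) {w w' : Fin n → El κ.toZFSet}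
    (hF : ∀ x, x ∈ F ↔ (x = (idx κ 0 0).toZFSet ∨ ∃ j : Fin n, x = (idx κ (j + 1) (od (w' j))).toZFSet))
    (h : ∀ j : Fin n, (idx κ (j + 1) (od (w j))).toZFSet ∈ F) : w = w' := by
  have hκ0 : (0 : Ordinal.{0}) < κ := lt_of_lt_of_le Ordinal.omega0_pos hκ
  funext j
  rcases (hF _).1 (h j) with h1 | ⟨i, h1⟩
  · have h2 := (idx_inj (od_lt _) hκ0).1 (CodS_toZ_inj h1)
    exact absurd h2.1 (Nat.succ_ne_zero _)
  · have h2 := (idx_inj (od_lt _) (od_lt _)).1 (CodS_toZ_inj h1)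
    have h3 : j = i := Fin.ext (Nat.succ_injective h2.1)
    subst h3
    exact od_inj.1 h2.2

theorem exists_codeSet (C : Cd N κ) {E : Re κ n} (hE : InN N E) : ∃ Y ∈ N, ∀ F : ZFSet.{0}, F ∈ Y ↔
    ∃ w ∈ E, ∀ x, x ∈ F ↔ (x = (idx κ 0 0).toZFSet ∨ ∃ j : Fin n, x = (idx κ (j + 1) (od (w j))).toZFSet) := by
  obtain ⟨s, hs, hs'⟩ := hE
  obtain ⟨h, hh, hh'⟩ := exists_idxF C
  have hκ0 : (0 : Ordinal.{0}) < κ := lt_of_lt_of_le Ordinal.omega0_pos C.hκω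
  have hX : (κ * Ordinal.omega0).toZFSet ∈ N := C.hN.mem_of_mem C.hlamN
    (Ordinal.toZFSet_mem_toZFSet_iff.2 (om_lt_lam C))
  have hc : (idx κ 0 0).toZFSet ∈ N := C.hN.mem_of_mem hX
    (Ordinal.toZFSet_mem_toZFSet_iff.2 (idx_lt_om C.hκω 0 hκ0))
  have hcj : ∀ (j : ℕ) (x : El κ.toZFSet), (idx κ j (od x)).toZFSet ∈ N := fun j x =>
    C.hN.mem_of_mem hX (Ordinal.toZFSet_mem_toZFSet_iff.2 (idx_lt_om C.hκω j (od_lt x)))
  obtain ⟨Fi, hFi, hFi'⟩ := exists_fin C.hN hX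
  have hhj : ∀ (j : ℕ) (w : El κ.toZFSet) (x : ZFSet.{0}),
      ZFSet.pair (ZFSet.pair (natZ j) w.1) x ∈ h ↔ x = (idx κ j (od w)).toZFSet := by
    intro j w x
    rw [← od_val w]
    rw [hh' j (od w) (od_lt w) x]
  have hd : C.hN.Dfn (fun v : Fin 1 → N => ∃ w : Fin n → N, (∀ i, (w i).1 ∈ κ.toZFSet) ∧
      tup (fun i => (w i).1) ∈ s ∧ ∀ x : N, (x.1 ∈ (v 0).1 ↔ (x.1 = (idx κ 0 0).toZFSet ∨
        ¬ ∀ j : Fin n, ¬ ZFSet.pair (ZFSet.pair (natZ (j + 1)) (w j).1) x.1 ∈ h))) := by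
    have h2 : C.hN.Dfn (fun u : Fin (1 + n) → N => (∀ i : Fin n, (u (Fin.natAdd 1 i)).1 ∈ κ.toZFSet) ∧
      tup (fun i : Fin n => (u (Fin.natAdd 1 i)).1) ∈ s ∧
        ∀ x : N, (x.1 ∈ (u (Fin.castAdd n 0)).1 ↔ (x.1 = (idx κ 0 0).toZFSet ∨
        ¬ ∀ j : Fin n, ¬ ZFSet.pair (ZFSet.pair (natZ (j + 1)) (u (Fin.natAdd 1 j)).1) x.1 ∈ h))) := by
      refine (allFiniteC n fun i => Df.mem (PD.var _) (PD.const C.hκN)).and
        ((Df.mem (PD_tup fun i => PD.var _) (PD.const hs)).and ?_)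
      refine Dfn.all (P := fun (u : Fin (1 + n) → N) (x : N) =>
        (x.1 ∈ (u (Fin.castAdd n 0)).1 ↔ (x.1 = (idx κ 0 0).toZFSet ∨
        ¬ ∀ j : Fin n, ¬ ZFSet.pair (ZFSet.pair (natZ (j + 1)) (u (Fin.natAdd 1 j)).1) x.1 ∈ h))) ?_
      refine Dfn.iff (Df.mem (PD.var _) (PD.var (Fin.castAdd n 0).castSucc)) (Dfn.or
        (Df.eq (PD.var _) (PD.const hc)) (Dfn.not (allFiniteC n fun j => Dfn.not ?_)))
      exact Df.mem (PD.pair (PD.pair (PD.const (C.hN.natZ_mem_N _)) (PD.var (Fin.natAdd 1 j).castSucc))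
        (PD.var _)) (PD.const hh)
    refine (exFinC n h2).congr fun v => ?_
    refine exists_congr fun w => ?_
    simp only [Fin.append_left, Fin.append_right]
  obtain ⟨Y, hY, hY'⟩ := C.hN.exists_sep (P := fun F => ∃ w : Fin n → N, (∀ i, (w i).1 ∈ κ.toZFSet) ∧
      tup (fun i => (w i).1) ∈ s ∧ ∀ x : N, (x.1 ∈ F.1 ↔ (x.1 = (idx κ 0 0).toZFSet ∨
        ¬ ∀ j : Fin n, ¬ ZFSet.pair (ZFSet.pair (natZ (j + 1)) (w j).1) x.1 ∈ h))) hd hFi
  refine ⟨Y, hY, fun F => ?_⟩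
  rw [hY']
  constructor
  · rintro ⟨-, hFN, w, hw, hws, hwF⟩
    refine ⟨fun i => ⟨(w i).1, hw i⟩, (hs' _).2 hws, fun x => ?_⟩
    have key : ∀ hx : x ∈ N, (x ∈ F ↔ (x = (idx κ 0 0).toZFSet ∨
        ∃ j : Fin n, x = (idx κ (j + 1) (od (⟨(w j).1, hw j⟩ : El κ.toZFSet))).toZFSet)) := by
      intro hx
      rw [hwF ⟨x, hx⟩]
      refine or_congr Iff.rfl ?_
      push Not
      exact exists_congr fun j => hhj (j + 1) ⟨(w j).1, hw j⟩ x
    constructor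
    · intro hx
      exact (key (C.hN.mem_of_mem hFN hx)).1 hx
    · rintro (hx | ⟨j, hx⟩)
      · exact (key (hx ▸ hc)).2 (Or.inl hx)
      · exact (key (by rw [hx]; exact hcj _ _)).2 (Or.inr ⟨j, hx⟩)
  · rintro ⟨w, hw, hwF⟩
    obtain ⟨F', hF1, hF2, hF3⟩ := exists_Fw C.hκω w
    have hFF : F = F' := by
      ext x
      rw [hwF, hF3]
    have hFm : F ∈ Fi := by
      rw [hFF]
      exact (hFi' _).2 ⟨hF2, hF1⟩
    refine ⟨hFm, C.hN.mem_of_mem hFi hFm, fun i => up C.hN C.hκN (w i), fun i => (w i).2,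
      (hs' w).1 hw, fun x => ?_⟩
    show x.1 ∈ F ↔ _
    rw [hwF]
    refine or_congr Iff.rfl ?_
    push Not
    exact exists_congr fun j => (hhj (j + 1) (w j) x.1).symm

end Pool.Agent.H17.CF.D
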