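import Pool.Agent.H17.CF.D.Enm
import Pool.Agent.H17.CF.D.CodS

/-!
# Job CFD-10b: codes

PROOFS. Let `S` be an enumeration; `enum_row hS.1` gives the rows `(idx κ r (od b), 0)` of its sections at `(nE C r, b)`; the element `a` of `κ` with
`a.1 = natZ r` is `nE C r` (`Subtype.ext`), `od (nE C 0) = 0`.
* `codeR_iff`: unfold `CodeR`; `Z` has a row `z` (`vert_iff`), `¬ Conn Z` is `¬ (z.2 = 1 ∧ κ ≤ z.1)` (`conn_row`), `Adj` by `adj_iff` (`no_base_ed` removes the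
  second alternative). Conversely take `Z = T z`.
* `codeR_row` (`θ ≥ κ ω`): let `z` be as in `codeR_iff`. `Ed z (θ, 0)`, `Ed z (idx 0 0, 0)` and `θ ≠ idx 0 0` (`idx_lt_om`), so by `ed_up` `z.2 = 1` or `3`. If
  `z = (μ, 1)` then `κ < idx 0 0 ≤ μ` (`ed_le`), excluded. So `z = (μ, 3)`, `mr μ θ' F` with (`C.ed_iff`, `C.mr_uni`) `θ = θ'` or `θ.toZFSet ∈ F ⊆ κ ω` (impossible, `C.mr_lt`), so
  `θ = θ'`; the indices are `< κ ω ≤ θ` (`idx_lt_om`), so they are in `F`. Conversely `z = (μ, 3)` (`C.ed_iff`; base rows are active: `C.act3`, `C.mr_lt`).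
* `code_congr`, `code_uniq`: by `codeR_iff` the relation coded depends on the row of `X` only.
* `exists_code`: `Y` from `exists_codeSet`, `θ` from `C.bk3 Y`, `S` from `exists_enum`. `w ∈ E` iff `CodeR`: by `codeR_row`. `→`: `F = F_w ∈ Y` (`exists_Fw`) gives
  `μ` with `(μ, 3) ∈ Act`, `mr μ θ F`. `←`: `F ∈ Y` by `C.bk3` (`C.mr_lt`), so `F = F_w'`, `w' ∈ E`, and `w = w'` by `Fw_sub`.
-/

set_option autoImplicit false
set_option linter.unusedVariables false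
set_option linter.unusedSectionVars false
set_option linter.unusedSimpArgs false

open Pool.Agent.H17.Omega Pool.Agent.H17.Omega.CTM Pool.Agent.H52.GC Pool.Agent.H7.IG

namespace Pool.Agent.H17.CF.D

variable {N : Set ZFSet.{0}} {κ : Ordinal.{0}} {C : Cd N κ} {n : ℕ}

theorem od_nE (C : Cd N κ) (r : ℕ) : od (nE C r) = r := by
  unfold od nE
  show (natZ r).rank = _
  rw [natZ_eq, Ordinal.rank_toZFSet]

theorem pos_kap (C : Cd N κ) : 0 < κ := Ordinal.omega0_pos.trans_le C.hκω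

theorem ed_of_adj {X Z : Re κ 4} (hX : Tr C X) (hZ : Tr C Z) {z : Row} (hz : IsV C Z z) {θ : Ordinal.{0}}
    (h : IsV C X (θ, 0)) : Adj C Z X ↔ C.Ed z (θ, 0) := by
  rw [adj_iff hZ hX hz h]
  exact ⟨fun h => h.resolve_right no_base_ed, Or.inl⟩

theorem codeR_iff {S : Re κ 6} (hS : Enum C S) {X : Re κ 4} (hX : Tr C X) {θ : Ordinal.{0}} (h : IsV C X (θ, 0))
    (w : Fin n → El κ.toZFSet) : CodeR C n S X w ↔ ∃ z, z ∈ C.Act ∧ ¬ (z.2 = 1 ∧ κ ≤ z.1) ∧ C.Ed z (θ, 0) ∧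
      C.Ed z (idx κ 0 0, 0) ∧ ∀ j : Fin n, C.Ed z (idx κ (j + 1) (od (w j)), 0) := by
  have hrow := (enum_row hS.1).1 hS
  have htr : ∀ (r : ℕ) (b : El κ.toZFSet), Tr C (sec (sec S (nE C r)) b) := fun r b =>
    ⟨InN.sec C.hN C.hκN (InN.sec C.hN C.hκN hS.1 _) _, (hrow r b).1⟩
  have h00 : IsV C (sec (sec S (nE C 0)) (nE C 0)) (idx κ 0 0, 0) := by
    have := (hrow 0 (nE C 0)).2
    rwa [od_nE, Nat.cast_zero] at this
  constructor
  · rintro ⟨Z, hZ, hv, hc, ha, ⟨a, h0, ha0⟩, hj⟩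
    obtain ⟨z, hz⟩ := (vert_iff hZ).1 hv
    have e0 : a = nE C 0 := Subtype.ext h0
    subst e0
    refine ⟨z, hz.act, fun hcon => hc ((conn_row hZ hz).2 hcon), (ed_of_adj hX hZ hz h).1 ha,
      (ed_of_adj (htr 0 _) hZ hz h00).1 ha0, fun j => ?_⟩
    obtain ⟨b, hb, hb'⟩ := hj j
    have e1 : b = nE C (j + 1) := Subtype.ext hb
    subst e1
    exact (ed_of_adj (htr _ _) hZ hz (hrow _ _).2).1 hb'
  · rintro ⟨z, hz, hc, h1, h2, h3⟩
    have hZ := tr_T hz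
    have hV := isV_T hz
    refine ⟨C.T z, hZ, (vert_iff hZ).2 ⟨z, hV⟩, fun hcon => hc ((conn_row hZ hV).1 hcon),
      (ed_of_adj hX hZ hV h).2 h1, ⟨nE C 0, rfl, (ed_of_adj (htr 0 _) hZ hV h00).2 h2⟩, fun j =>
      ⟨nE C (j + 1), rfl, (ed_of_adj (htr _ _) hZ hV (hrow _ _).2).2 (h3 j)⟩⟩

theorem ed_three {μ ν : Ordinal.{0}} : C.Ed (μ, 3) (ν, 0) ↔ (μ, 3) ∈ C.Act ∧ (ν, 0) ∈ C.Act ∧
    ∃ θ F, C.mr μ θ F ∧ (ν = θ ∨ ν.toZFSet ∈ F) := by
  rw [C.ed_iff]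
  constructor
  · rintro ⟨h1, h2, h | h | h⟩
    · exact absurd h.1 (by norm_num)
    · exact absurd h.1 (by norm_num)
    · exact ⟨h1, h2, h.2.2⟩
  · rintro ⟨h1, h2, h⟩
    exact ⟨h1, h2, Or.inr (Or.inr ⟨rfl, rfl, h⟩)⟩

theorem codeR_row {S : Re κ 6} (hS : Enum C S) {θ : Ordinal.{0}} (h : κ * Ordinal.omega0 ≤ θ) (h' : θ < C.lam)
    (w : Fin n → El κ.toZFSet) : CodeR C n S (C.T (θ, 0)) w ↔ ∃ μ F, (μ, 3) ∈ C.Act ∧ C.mr μ θ F ∧
      (idx κ 0 0).toZFSet ∈ F ∧ ∀ j : Fin n, (idx κ (j + 1) (od (w j))).toZFSet ∈ F := by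
  have hact : (θ, 0) ∈ C.Act := C.act3 θ h' 0 (by norm_num)
  have h0 : idx κ 0 0 < κ * Ordinal.omega0 := idx_lt_om C.hκω 0 (pos_kap C)
  have hj : ∀ j : Fin n, idx κ (j + 1) (od (w j)) < κ * Ordinal.omega0 := fun j => idx_lt_om C.hκω _ (od_lt _)
  rw [codeR_iff hS (tr_T hact) (isV_T hact)]
  constructor
  · rintro ⟨z, hz, hc, h1, h2, h3⟩
    have hne : ((θ, 0) : Row) ≠ (idx κ 0 0, 0) := by
      intro he
      have := congrArg Prod.fst he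
      simp only at this
      rw [this] at h
      exact absurd (h0.trans_le h) (lt_irrefl _)
    obtain ⟨-, h4⟩ := ed_up h1 h2 hne
    have h5 : z.2 = 3 := by
      refine h4.resolve_left fun h4 => hc ⟨h4, ?_⟩
      exact (lt_idx 0 0).le.trans (ed_le h2)
    obtain ⟨μ, r⟩ := z
    simp only at h5
    subst h5
    obtain ⟨-, -, θ', F, hm, h6⟩ := ed_three.1 h1
    have hF := (C.mr_lt μ θ' F hm).2.2.1
    have h7 : θ = θ' := by
      refine h6.resolve_right fun h6 => ?_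
      have := Ordinal.toZFSet_mem_toZFSet_iff.1 (hF h6)
      exact absurd (this.trans_le h) (lt_irrefl _)
    subst h7
    have key : ∀ ν, ν < κ * Ordinal.omega0 → C.Ed (μ, 3) (ν, 0) → ν.toZFSet ∈ F := by
      intro ν hν he
      obtain ⟨-, -, θ'', F', hm', h8⟩ := ed_three.1 he
      obtain ⟨e1, e2⟩ := C.mr_uni μ θ'' F' θ F hm' hm
      subst e1
      subst e2
      refine h8.resolve_left fun h8 => ?_
      rw [h8] at hν
      exact absurd (hν.trans_le h) (lt_irrefl _)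
    exact ⟨μ, F, hz, hm, key _ h0 h2, fun j => key _ (hj j) (h3 j)⟩
  · rintro ⟨μ, F, hz, hm, h1, h2⟩
    have hlt : ∀ ν, ν < κ * Ordinal.omega0 → (ν, 0) ∈ C.Act := fun ν hν =>
      C.act3 _ (hν.trans_le h |>.trans h') 0 (by norm_num)
    refine ⟨(μ, 3), hz, fun hcon => absurd hcon.1 (by norm_num), ed_three.2 ⟨hz, hact, θ, F, hm, Or.inl rfl⟩,
      ed_three.2 ⟨hz, hlt _ h0, θ, F, hm, Or.inr h1⟩, fun j =>
      ed_three.2 ⟨hz, hlt _ (hj j), θ, F, hm, Or.inr (h2 j)⟩⟩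

theorem code_congr {X X' : Re κ 4} (hX : Tr C X) (hX' : Tr C X') {θ : Ordinal.{0}} (h : IsV C X (θ, 0))
    (h' : IsV C X' (θ, 0)) {E : Re κ n} : Code C n X E ↔ Code C n X' E := by
  refine exists_congr fun S => and_congr_right fun hS => forall_congr' fun w => ?_
  rw [codeR_iff hS hX h, codeR_iff hS hX' h']

theorem code_uniq {X : Re κ 4} (hX : Tr C X) {θ : Ordinal.{0}} (h : IsV C X (θ, 0)) {E E' : Re κ n}
    (hE : Code C n X E) (hE' : Code C n X E') : E = E' := by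
  obtain ⟨S, hS, h1⟩ := hE
  obtain ⟨S', hS', h2⟩ := hE'
  ext w
  rw [h1, h2, codeR_iff hS hX h, codeR_iff hS' hX h]

theorem exists_code {E : Re κ n} (hE : InN N E) : ∃ θ, κ < θ ∧ θ < C.lam ∧ Code C n (C.T (θ, 0)) E := by
  obtain ⟨Y, hY, hY'⟩ := exists_codeSet C hE
  obtain ⟨θ, h1, h2, h3⟩ := C.bk3 Y hY
  obtain ⟨S, hS⟩ := exists_enum C
  have h0 : idx κ 0 0 < κ * Ordinal.omega0 := idx_lt_om C.hκω 0 (pos_kap C)
  refine ⟨θ, ((lt_idx 0 0).trans h0).trans_le h1, h2, S, hS, fun w => ?_⟩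
  rw [codeR_row hS h1 h2]
  constructor
  · intro hw
    obtain ⟨F, hF1, hF2, hF3⟩ := exists_Fw C.hκω w
    obtain ⟨μ, hμ, hm⟩ := (h3 F hF1 hF2).2 ((hY' F).2 ⟨w, hw, hF3⟩)
    exact ⟨μ, F, hμ, hm, (hF3 _).2 (Or.inl rfl), fun j => (hF3 _).2 (Or.inr ⟨j, rfl⟩)⟩
  · rintro ⟨μ, F, hμ, hm, -, h5⟩
    obtain ⟨-, -, hF2, hF1⟩ := C.mr_lt μ θ F hm
    obtain ⟨w', hw', hF3⟩ := (hY' F).1 ((h3 F hF1 hF2).1 ⟨μ, hμ, hm⟩)
    have := Fw_sub C.hκω hF3 h5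
    rw [this]
    exact hw'

end Pool.Agent.H17.CF.D
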