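import Pool.Agent.H17.CF.D.Tup

/-!
# The decoding part: the definable notions

All notions are about relations on `κ` that belong to `N`. In terms of the invariant `C.A` and the graph:

* `Tr X`: `X` is a tree of `N`; `Seq S`: a sequence (5-ary relation) of trees of `N`;
* `Le X Y`: `A X ⊆ A Y`; `Meet Y Z Z'`: `A Y = A Z ∩ A Z'`; `Atom X`: `A X = {e}`, `e` an edge;
* `Large X`: `A X` contains a clique that is not an edge; `Vert X`: `A X = {c : x ∈ c}` for an active row `x`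
  (`IsV X x`); `Adj X Y`: the rows are adjacent;
* `Base X`: the row is `(ν, 0)`; `Conn X`: the row is `(μ, 1)`, `κ ≤ μ`;
* `Lt X Y`: `X`, `Y` base, `ν < ν'` and `κ < ν'`; `BaseP X`: the row is `(ν, 0)`, `κ < ν`;
* `Enum S`: `S` is 6-ary and `S_(r, b)` has the row `(idx r b, 0)`, `idx r b = κ + 1 + (κ r + b)`;
* `Code n X E`: `X` (row `(θ, 0)`) codes the `n`-ary relation `E`: `w ∈ E` iff there is a vertex that is not
  `Conn` and adjacent to `X`, to `S_(0, 0)` and to `S_(j + 1, w j)` for all `j < n`;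
* `W n E E'`: the least code of `E` is at most the least code of `E'`.
-/

set_option autoImplicit false
set_option linter.unusedVariables false
set_option linter.unusedSectionVars false
set_option linter.unusedSimpArgs false

open Pool.Agent.H17.Omega Pool.Agent.H17.Omega.CTM Pool.Agent.H52.GC Pool.Agent.H7.IG

namespace Pool.Agent.H17.CF.D

variable {N : Set ZFSet.{0}} {κ : Ordinal.{0}} (C : Cd N κ)

/-- `X` is a tree of `N`. -/
def Tr (X : Re κ 4) : Prop := InN N X ∧ IsTree C.Ω X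

/-- `S` is a sequence of trees of `N`. -/
def Seq (S : Re κ 5) : Prop := InN N S ∧ ∀ a, IsTree C.Ω (sec S a)

/-- `X ≤ Y` -/
def Le (X Y : Re κ 4) : Prop := ∀ S, Tr C S → Rl N C.Ω S Y → Rl N C.Ω S X

/-- `Y` is the meet of `Z` and `Z'`. -/
def Meet (Y Z Z' : Re κ 4) : Prop :=
  Le C Y Z ∧ Le C Y Z' ∧ ∀ U, Tr C U → Le C U Z → Le C U Z' → Le C U Y

/-- `X` is minimal (an edge). -/
def Atom (X : Re κ 4) : Prop :=
  ¬ Rl N C.Ω X X ∧ ∀ S, Tr C S → Le C S X → (Rl N C.Ω S S ∨ Le C X S)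

/-- The atoms below `X` are not exhausted by the meets of the members of a sequence. -/
def Large (X : Re κ 4) : Prop :=
  ∀ S, Seq C S → ∃ Y, Tr C Y ∧ Atom C Y ∧ Le C Y X ∧ ∀ a b, ¬ Meet C Y (sec S a) (sec S b)

/-- `X` is minimal large (a vertex). -/
def Vert (X : Re κ 4) : Prop := Large C X ∧ ∀ Y, Tr C Y → Le C Y X → Large C Y → Le C X Y

/-- `X` and `Y` are adjacent vertices. -/
def Adj (X Y : Re κ 4) : Prop := Vert C X ∧ Vert C Y ∧ ¬ Rl N C.Ω X Y ∧ ¬ Le C X Y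

/-- `X` is a vertex `(ν, 0)`. -/
def Base (X : Re κ 4) : Prop :=
  Vert C X ∧ ∃ Y, Tr C Y ∧ Vert C Y ∧ ¬ Le C X Y ∧ ∀ S, Seq C S → ∃ Z, Tr C Z ∧ Adj C Z X ∧ Adj C Z Y ∧
    ∀ a, ¬ (Le C Z (sec S a) ∧ Le C (sec S a) Z)

/-- `X` is a vertex `(μ, 1)`, `κ ≤ μ`. -/
def Conn (X : Re κ 4) : Prop :=
  Vert C X ∧ ∃ S, Seq C S ∧ (∀ a, Base C (sec S a) ∧ Adj C X (sec S a)) ∧
    ∀ a b, a ≠ b → Rl N C.Ω (sec S a) (sec S b)

/-- The order of the base vertices. -/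
def Lt (X Y : Re κ 4) : Prop :=
  Base C X ∧ Base C Y ∧ ∃ Z, Tr C Z ∧ Conn C Z ∧ Adj C Z X ∧ ¬ Adj C Z Y

/-- The nonminimal base vertices. -/
def BaseP (X : Re κ 4) : Prop := Base C X ∧ ∃ Y, Tr C Y ∧ Lt C Y X

/-- `S_(r, b)` is the `(κ r + b)`-th element of `BaseP`. -/
def Enum (S : Re κ 6) : Prop :=
  InN N S ∧ ∀ r b, r.1 ∈ omZ → IsTree C.Ω (sec (sec S r) b) ∧ BaseP C (sec (sec S r) b) ∧
    ∀ U, Tr C U → BaseP C U → (Lt C U (sec (sec S r) b) ↔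
      ∃ r' b', r'.1 ∈ omZ ∧ (r'.1 ∈ r.1 ∨ (r' = r ∧ b'.1 ∈ b.1)) ∧ ¬ Rl N C.Ω U (sec (sec S r') b'))

/-- The tuple `w` is coded by the vertex `X`, where `S` is the enumeration. -/
def CodeR (n : ℕ) (S : Re κ 6) (X : Re κ 4) (w : Fin n → El κ.toZFSet) : Prop :=
  ∃ Z, Tr C Z ∧ Vert C Z ∧ ¬ Conn C Z ∧ Adj C Z X ∧
    (∃ a, a.1 = natZ 0 ∧ Adj C Z (sec (sec S a) a)) ∧
    ∀ j : Fin n, ∃ a, a.1 = natZ (j + 1) ∧ Adj C Z (sec (sec S a) (w j))

/-- The relation `E` is coded by the vertex `X`. -/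
def Code (n : ℕ) (X : Re κ 4) (E : Re κ n) : Prop := ∃ S, Enum C S ∧ ∀ w, w ∈ E ↔ CodeR C n S X w

/-- The well-ordering of the `n`-ary relations on `κ`. -/
def Wo (n : ℕ) (E E' : Re κ n) : Prop :=
  ∃ X, Tr C X ∧ BaseP C X ∧ Code C n X E ∧ ∀ Y, Tr C Y → BaseP C Y → Code C n Y E' → ¬ Lt C Y X

/-- `X` is a vertex with the row `x`. -/
def IsV (X : Re κ 4) (x : Row) : Prop := x ∈ C.Act ∧ ∀ c, c ∈ C.A X ↔ c ∈ C.Cl ∧ x ∈ c

/-- The index of the `(κ r + b)`-th element of `BaseP`. -/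
noncomputable def idx (κ : Ordinal.{0}) (r : ℕ) (b : Ordinal.{0}) : Ordinal.{0} := κ + 1 + (κ * r + b)

variable {C}

theorem IsV.act {X : Re κ 4} {x : Row} (h : IsV C X x) : x ∈ C.Act := h.1

theorem IsV.lt {X : Re κ 4} {x : Row} (h : IsV C X x) : x.1 < C.lam := (C.act_lt x h.1).1

theorem IsV.self {X : Re κ 4} {x : Row} (h : IsV C X x) : {x} ∈ C.A X :=
  (h.2 _).2 ⟨(C.cl_iff _).2 (Or.inr (Or.inl ⟨x, h.1, rfl⟩)), rfl⟩

/-- The tree of an active row is a relation of `N`. -/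
theorem inN_T {x : Row} (hx : x ∈ C.Act) : InN N (C.T x) := by
  obtain ⟨z, hz, hz'⟩ := C.T_mem
  have hlam : x.1.toZFSet ∈ N := C.hN.mem_of_mem C.hlamN
    (Ordinal.toZFSet_mem_toZFSet_iff.2 (C.act_lt x hx).1)
  have h1 : C.hN.Dfn (fun v : Fin 4 → N =>
      ZFSet.pair (ZFSet.pair x.1.toZFSet (natZ x.2)) (tup (fun i => (v i).1)) ∈ z) :=
    Df.mem (PD.pair (PD.const (C.hN.pair_mem hlam (C.hN.natZ_mem_N _))) (PD_tup fun i => PD.var i))
      (PD.const hz)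
  refine Eq.mp ?_ (InN.of_dfn C.hN C.hκN h1)
  congr 1
  ext w
  exact (hz' x.1 x.2 w hx).symm

theorem tr_T {x : Row} (hx : x ∈ C.Act) : Tr C (C.T x) := ⟨inN_T hx, C.T_tree x hx⟩

theorem isV_T {x : Row} (hx : x ∈ C.Act) : IsV C (C.T x) x := ⟨hx, C.A_T x hx⟩

theorem Seq.tr {S : Re κ 5} (hS : Seq C S) (a : El κ.toZFSet) : Tr C (sec S a) :=
  ⟨InN.sec C.hN C.hκN hS.1 a, hS.2 a⟩

theorem Seq.cst {X : Re κ 4} (hX : Tr C X) : Seq C {w : Fin 5 → El κ.toZFSet | (fun i : Fin 4 => w i.succ) ∈ X} :=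
  ⟨InN.cst C.hN C.hκN hX.1, fun a => by rw [sec_cst]; exact hX.2⟩

end Pool.Agent.H17.CF.D
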