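import Pool.Agent.H17.CF.D.Idx
import Pool.Agent.H7.IG.Tk2

/-!
# Job CFD-8b: the index function belongs to `N`

PROOF.
* `exists_idxF`: `exists_rec` (H7/IG/Tk2) on `δ = κ ω` (`om_lt_lam`, `C.hlamN`) for `Φ g y`: either `κ ∉ dom g` and `y = ∅`, or `κ ∈ dom g`, `y = (r, b)`
  with `r ∈ ω`, `b ∈ κ`, `(r, b)` is not a value of `g` at an ordinal `> κ`, and every `(r', b')` with `r' ∈ ω`, `b' ∈ κ` and (`r' ∈ r` or
  `r' = r ∧ b' ∈ b`) is such a value. (`dom g` is `α` for `FnD g α`; `κ ∈ dom g` is `∃ w, (κ, w) ∈ g`.) By induction on `α`, `κ < α < κ ω`: the value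
  at `α = idx κ r b` is `(natZ r, b)`, because the values at `β`, `κ < β < α`, are exactly the `(natZ r', b')` with `(r', b') < (r, b)`
  (`idx_lt_idx`, `exists_idx`); this gives existence and unicity in the hypothesis of `exists_rec` and the description of `g`. Put
  `h = {((r, b), ν) : κ < ν < κ ω, (ν, (r, b)) ∈ g}` (`exists_sep` from a product).
-/

set_option autoImplicit false
set_option linter.unusedVariables false
set_option linter.unusedSectionVars false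
set_option linter.unusedSimpArgs false
set_option linter.unusedTactic false
set_option linter.unreachableTactic false

open Pool.Agent.H17.Omega Pool.Agent.H17.Omega.CTM Pool.Agent.H52.GC Pool.Agent.H7.IG

namespace Pool.Agent.H17.CF.D

variable {N : Set ZFSet.{0}} {κ : Ordinal.{0}}

/-- The value at `α` of the enumeration. -/
def idxF_Val (κ α : Ordinal.{0}) (y : ZFSet.{0}) : Prop :=
  (α ≤ κ ∧ y = ∅) ∨ ∃ (r : ℕ) (b : Ordinal.{0}), b < κ ∧ α = idx κ r b ∧ y = ZFSet.pair (natZ r) b.toZFSet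

/-- The recursion. -/
def idxF_Ph (N : Set ZFSet.{0}) (K W : N) (g y : N) : Prop :=
  ((∀ w : N, ¬ ZFSet.pair K.1 w.1 ∈ g.1) ∧ y.1 = ∅) ∨
  ((∃ w : N, ZFSet.pair K.1 w.1 ∈ g.1) ∧ ∃ r b : N, r.1 ∈ W.1 ∧ b.1 ∈ K.1 ∧ y.1 = ZFSet.pair r.1 b.1 ∧
    (∀ ν : N, K.1 ∈ ν.1 → ¬ ZFSet.pair ν.1 y.1 ∈ g.1) ∧
    ∀ r' b' : N, r'.1 ∈ W.1 → b'.1 ∈ K.1 → (r'.1 ∈ r.1 ∨ (r' = r ∧ b'.1 ∈ b.1)) →
      ∃ y' : N, y'.1 = ZFSet.pair r'.1 b'.1 ∧ ∃ ν : N, K.1 ∈ ν.1 ∧ ZFSet.pair ν.1 y'.1 ∈ g.1)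

theorem idxF_Ph_dfn (hN : CTM N) (K W : N) : hN.Dfn (fun v : Fin 2 → N => idxF_Ph N K W (v 0) (v 1)) := by
  unfold idxF_Ph
  (repeat' first
      | exact DT.var _ | exact DT.last | exact DT.const _ | assumption
      | refine Dfn.pairMem ?_ ?_ ?_ | refine Dfn.isPair ?_ ?_ ?_ | refine Dfn.mem ?_ ?_
      | refine Dfn.eqv ?_ ?_ | refine Dfn.eq ?_ ?_ | refine Dfn.subset ?_ ?_
      | refine Dfn.isEmpty ?_ | refine Dfn.isTrans ?_ | refine Dfn.isOrd ?_ | refine Dfn.isNat ?_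
      | refine Dfn.isUpair ?_ ?_ ?_ | refine Dfn.isInsert ?_ ?_ ?_
      | refine Dfn.and ?_ ?_ | refine Dfn.or ?_ ?_ | refine Dfn.iff ?_ ?_ | refine Dfn.not ?_
      | refine Dfn.imp ?_ ?_ | refine Dfn.all ?_ | refine Dfn.ex ?_ | exact Dfn.false'
      | refine Dfn.ballZ ?_ ?_ | refine Dfn.bexZ ?_ ?_ | exact Dfn.const _)

theorem idxF_toZFSet_inj {α β : Ordinal.{0}} (h : α.toZFSet = β.toZFSet) : α = β := by
  have := congrArg ZFSet.rank h
  rwa [Ordinal.rank_toZFSet, Ordinal.rank_toZFSet] at this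

theorem idxF_val_uni {α : Ordinal.{0}} {y y' : ZFSet.{0}} (h : idxF_Val κ α y) (h' : idxF_Val κ α y') :
    y = y' := by
  rcases h with ⟨h1, h2⟩ | ⟨r, b, hb, h1, h2⟩ <;> rcases h' with ⟨h1', h2'⟩ | ⟨r', b', hb', h1', h2'⟩
  · rw [h2, h2']
  · rw [h1'] at h1
    exact absurd h1 (not_le.2 (lt_idx _ _))
  · rw [h1] at h1'
    exact absurd h1' (not_le.2 (lt_idx _ _))
  · rw [h1, idx_inj hb hb'] at h1'
    rw [h2, h2', h1'.1, h1'.2]

theorem idxF_val_ex (hκ : Ordinal.omega0 ≤ κ) {α : Ordinal.{0}} (h : α < κ * Ordinal.omega0) :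
    ∃ y, idxF_Val κ α y := by
  rcases le_or_gt α κ with h1 | h1
  · exact ⟨∅, Or.inl ⟨h1, rfl⟩⟩
  · obtain ⟨r, b, hb, h2⟩ := exists_idx hκ h1 h
    exact ⟨_, Or.inr ⟨r, b, hb, h2, rfl⟩⟩

theorem idxF_key (hN : CTM N) (hκ : Ordinal.omega0 ≤ κ) {K W : N} (hK : K.1 = κ.toZFSet) (hW : W.1 = omZ)
    {α : Ordinal.{0}} (hα : α < κ * Ordinal.omega0) {g : N} (hg : FnD g.1 α.toZFSet)
    (hv : ∀ β < α, ∀ y, ZFSet.pair β.toZFSet y ∈ g.1 ↔ idxF_Val κ β y) (y : N) :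
    idxF_Ph N K W g y ↔ idxF_Val κ α y.1 := by
  have hdom : ∀ ν w : ZFSet.{0}, ZFSet.pair ν w ∈ g.1 → ∃ β < α, ν = β.toZFSet ∧ idxF_Val κ β w := by
    intro ν w h
    obtain ⟨x, hx, y', h1⟩ := hg.sub _ h
    rw [ZFSet.pair_inj] at h1
    obtain ⟨rfl, rfl⟩ := h1
    obtain ⟨β, hβ, rfl⟩ := Ordinal.mem_toZFSet_iff.1 hx
    exact ⟨β, hβ, rfl, (hv β hβ _).1 h⟩
  rcases le_or_gt α κ with h1 | h1
  · -- `α ≤ κ`
    have hno : ∀ w : N, ¬ ZFSet.pair K.1 w.1 ∈ g.1 := by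
      intro w hw
      obtain ⟨β, hβ, h2, -⟩ := hdom _ _ hw
      rw [hK] at h2
      rw [← idxF_toZFSet_inj h2] at hβ
      exact absurd hβ (not_lt.2 h1)
    constructor
    · rintro (⟨-, h2⟩ | ⟨⟨w, hw⟩, -⟩)
      · exact Or.inl ⟨h1, h2⟩
      · exact absurd hw (hno w)
    · rintro (⟨-, h2⟩ | ⟨r, b, hb, h2, -⟩)
      · exact Or.inl ⟨hno, h2⟩
      · rw [h2] at h1
        exact absurd h1 (not_le.2 (lt_idx _ _))
  · -- `κ < α`
    obtain ⟨r0, b0, hb0, hα0⟩ := exists_idx hκ h1 hα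
    have hyes : ∃ w : N, ZFSet.pair K.1 w.1 ∈ g.1 := by
      obtain ⟨w, hw⟩ := hg.tot κ.toZFSet (Ordinal.toZFSet_mem_toZFSet_iff.2 h1)
      exact ⟨⟨w, (hN.of_pair_mem (hN.mem_of_mem g.2 hw)).2⟩, by rw [hK]; exact hw⟩
    have hvalα : idxF_Val κ α y.1 ↔ y.1 = ZFSet.pair (natZ r0) b0.toZFSet := by
      constructor
      · intro h
        exact idxF_val_uni h (Or.inr ⟨r0, b0, hb0, hα0, rfl⟩)
      · intro h
        exact Or.inr ⟨r0, b0, hb0, hα0, h⟩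
    rw [hvalα]
    have hin : ∀ (n : ℕ) (c : Ordinal.{0}), c < κ → idx κ n c < α →
        ZFSet.pair (idx κ n c).toZFSet (ZFSet.pair (natZ n) c.toZFSet) ∈ g.1 := by
      intro n c hc hlt
      exact (hv _ hlt _).2 (Or.inr ⟨n, c, hc, rfl, rfl⟩)
    have hout : ∀ (ν : ZFSet.{0}) (n : ℕ) (c : Ordinal.{0}), c < κ → κ.toZFSet ∈ ν →
        ZFSet.pair ν (ZFSet.pair (natZ n) c.toZFSet) ∈ g.1 → idx κ n c < α := by
      intro ν n c hc hν h
      obtain ⟨β, hβ, rfl, h3⟩ := hdom _ _ h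
      rw [Ordinal.toZFSet_mem_toZFSet_iff] at hν
      rcases h3 with ⟨h3, -⟩ | ⟨r, b, hb, h3, h4⟩
      · exact absurd hν (not_lt.2 h3)
      · rw [ZFSet.pair_inj, natZ_inj] at h4
        rw [h4.1, idxF_toZFSet_inj h4.2, ← h3]
        exact hβ
    constructor
    · rintro (⟨h2, -⟩ | ⟨-, r, b, hr, hb, hy, h3, h4⟩)
      · obtain ⟨w, hw⟩ := hyes
        exact absurd hw (h2 w)
      · rw [hW] at hr
        rw [hK] at hb
        obtain ⟨n, hn⟩ := mem_omZ.1 hr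
        obtain ⟨c, hc, hc'⟩ := Ordinal.mem_toZFSet_iff.1 hb
        rw [hn, ← hc'] at hy
        rcases lt_trichotomy (idx κ n c) (idx κ r0 b0) with h5 | h5 | h5
        · exfalso
          rw [← hα0] at h5
          have h6 := hin n c hc h5
          refine h3 ⟨(idx κ n c).toZFSet, (hN.of_pair_mem (hN.mem_of_mem g.2 h6)).1⟩ ?_ ?_
          · show K.1 ∈ (idx κ n c).toZFSet
            rw [hK, Ordinal.toZFSet_mem_toZFSet_iff]
            exact lt_idx _ _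
          · rw [hy]
            exact h6
        · rw [idx_inj hc hb0] at h5
          rw [hy, h5.1, h5.2]
        · exfalso
          have hr0 : natZ r0 ∈ N := hN.natZ_mem_N r0
          have hb0N : b0.toZFSet ∈ N := hN.mem_of_mem K.2 (by
            rw [hK, Ordinal.toZFSet_mem_toZFSet_iff]
            exact hb0)
          rw [idx_lt_idx hb0 hc] at h5
          obtain ⟨y', hy', ν, hν, h6⟩ := h4 ⟨natZ r0, hr0⟩ ⟨b0.toZFSet, hb0N⟩
            (by rw [hW]; exact natZ_mem_omZ _)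
            (by
              show b0.toZFSet ∈ K.1
              rw [hK, Ordinal.toZFSet_mem_toZFSet_iff]
              exact hb0)
            (by
              rcases h5 with h5 | ⟨h5, h5'⟩
              · left
                show natZ r0 ∈ r.1
                rw [hn, natZ_mem]
                exact h5
              · right
                refine ⟨Subtype.ext ?_, ?_⟩
                · show natZ r0 = r.1
                  rw [hn, h5]
                · show b0.toZFSet ∈ b.1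
                  rw [← hc', Ordinal.toZFSet_mem_toZFSet_iff]
                  exact h5')
          rw [hy'] at h6
          rw [hK] at hν
          have h7 := hout ν.1 r0 b0 hb0 hν h6
          rw [← hα0] at h7
          exact lt_irrefl _ h7
    · intro hy
      have hr0 : natZ r0 ∈ N := hN.natZ_mem_N r0
      have hb0K : b0.toZFSet ∈ K.1 := by
        rw [hK, Ordinal.toZFSet_mem_toZFSet_iff]
        exact hb0
      refine Or.inr ⟨hyes, ⟨natZ r0, hr0⟩, ⟨b0.toZFSet, hN.mem_of_mem K.2 hb0K⟩,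
        (by rw [hW]; exact natZ_mem_omZ _), hb0K, hy, ?_, ?_⟩
      · intro ν hν h
        rw [hy] at h
        rw [hK] at hν
        have h7 := hout ν.1 r0 b0 hb0 hν h
        rw [← hα0] at h7
        exact lt_irrefl _ h7
      · intro r' b' hr' hb' h
        rw [hW] at hr'
        rw [hK] at hb'
        obtain ⟨n, hn⟩ := mem_omZ.1 hr'
        obtain ⟨c, hc, hc'⟩ := Ordinal.mem_toZFSet_iff.1 hb'
        have h5 : idx κ n c < α := by
          rw [hα0, idx_lt_idx hc hb0]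
          rcases h with h | ⟨h, h'⟩
          · left
            have h : r'.1 ∈ natZ r0 := h
            rwa [hn, natZ_mem] at h
          · right
            have h := congrArg Subtype.val h
            have h : r'.1 = natZ r0 := h
            have h' : b'.1 ∈ b0.toZFSet := h'
            rw [hn, natZ_inj] at h
            rw [← hc', Ordinal.toZFSet_mem_toZFSet_iff] at h'
            exact ⟨h, h'⟩
        have h6 := hin n c hc h5
        have h7 := hN.of_pair_mem (hN.mem_of_mem g.2 h6)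
        refine ⟨⟨_, h7.2⟩, ?_, ⟨_, h7.1⟩, ?_, h6⟩
        · show ZFSet.pair (natZ n) c.toZFSet = ZFSet.pair r'.1 b'.1
          rw [hn, hc']
        · show K.1 ∈ (idx κ n c).toZFSet
          rw [hK, Ordinal.toZFSet_mem_toZFSet_iff]
          exact lt_idx _ _

theorem idxF_spec (hN : CTM N) (hκ : Ordinal.omega0 ≤ κ) (hδ : (κ * Ordinal.omega0).toZFSet ∈ N)
    {K W : N} (hK : K.1 = κ.toZFSet) (hW : W.1 = omZ)
    {α : Ordinal.{0}} (hα : α ≤ κ * Ordinal.omega0) {g : N} (hg : FnD g.1 α.toZFSet)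
    (hrec : ∀ β < α, ∀ r y : N, r.1 = rs g.1 β.toZFSet → ZFSet.pair β.toZFSet y.1 ∈ g.1 →
      idxF_Ph N K W r y) :
    ∀ β < α, ∀ y, ZFSet.pair β.toZFSet y ∈ g.1 ↔ idxF_Val κ β y := by
  intro β
  induction β using WellFoundedLT.induction with
  | ind β ih =>
    intro hβ y
    have hβδ : β < κ * Ordinal.omega0 := hβ.trans_le hα
    have hβN : β.toZFSet ∈ N := hN.toZFSet_mem_of_le hβδ.le hδ
    have hsub : β.toZFSet ⊆ α.toZFSet := by
      intro x hx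
      obtain ⟨ξ, hξ, rfl⟩ := Ordinal.mem_toZFSet_iff.1 hx
      exact Ordinal.toZFSet_mem_toZFSet_iff.2 (hξ.trans hβ)
    have hrsD := hg.rs hsub
    have key := fun y : N => idxF_key hN hκ hK hW hβδ (g := ⟨_, rs_mem hN g.2 hβN⟩) hrsD (by
      intro γ hγ y'
      show ZFSet.pair γ.toZFSet y' ∈ rs g.1 β.toZFSet ↔ _
      rw [pair_mem_rs, ih γ hγ (hγ.trans hβ)]
      exact ⟨fun h => h.2, fun h => ⟨Ordinal.toZFSet_mem_toZFSet_iff.2 hγ, h⟩⟩) y
    have hfw : ∀ y, ZFSet.pair β.toZFSet y ∈ g.1 → idxF_Val κ β y := by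
      intro y hy
      have hyN := (hN.of_pair_mem (hN.mem_of_mem g.2 hy)).2
      exact (key ⟨y, hyN⟩).1 (hrec β hβ _ ⟨y, hyN⟩ rfl hy)
    refine ⟨hfw y, fun h => ?_⟩
    obtain ⟨y', hy'⟩ := hg.tot β.toZFSet (Ordinal.toZFSet_mem_toZFSet_iff.2 hβ)
    rw [idxF_val_uni h (hfw y' hy')]
    exact hy'

theorem exists_idxF (C : Cd N κ) : ∃ h ∈ N, ∀ (r : ℕ) (b : Ordinal.{0}), b < κ → ∀ x : ZFSet.{0},
    ZFSet.pair (ZFSet.pair (natZ r) b.toZFSet) x ∈ h ↔ x = (idx κ r b).toZFSet := by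
  have hN := C.hN
  have hκ := C.hκω
  have hδ : (κ * Ordinal.omega0).toZFSet ∈ N := hN.toZFSet_mem_of_le (om_lt_lam C).le C.hlamN
  obtain ⟨K, hK⟩ : ∃ z : N, z.1 = κ.toZFSet := ⟨⟨_, C.hκN⟩, rfl⟩
  obtain ⟨W, hW⟩ : ∃ z : N, z.1 = omZ := ⟨⟨_, hN.omZ_mem⟩, rfl⟩
  obtain ⟨g, hg, hrec⟩ := exists_rec hN (idxF_Ph_dfn hN K W) hδ (by
    intro α hα g hg hrec
    have hspec := idxF_spec hN hκ hδ hK hW hα.le hg hrec
    have key := idxF_key hN hκ hK hW hα hg hspec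
    obtain ⟨y, hy⟩ := idxF_val_ex hκ hα
    have hyN : y ∈ N := by
      rcases hy with ⟨-, h⟩ | ⟨r, b, hb, -, h⟩
      · rw [h]; exact hN.empty_mem
      · rw [h]
        exact hN.pair_mem (hN.natZ_mem_N r) (hN.toZFSet_mem_of_le hb.le C.hκN)
    exact ⟨⟨y, hyN⟩, (key _).2 hy, fun y' hy' => Subtype.ext (idxF_val_uni ((key _).1 hy') hy)⟩)
  have hspec := idxF_spec hN hκ hδ hK hW le_rfl hg hrec
  obtain ⟨h, hh, hh'⟩ := hN.exists_sep (P := fun z => ∃ y ν : N, z.1 = ZFSet.pair y.1 ν.1 ∧ K.1 ∈ ν.1 ∧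
      ZFSet.pair ν.1 y.1 ∈ g.1) (by
    show hN.Dfn (fun v : Fin 1 → N => ∃ y ν : N, (v 0).1 = ZFSet.pair y.1 ν.1 ∧ K.1 ∈ ν.1 ∧
      ZFSet.pair ν.1 y.1 ∈ g.1)
    (repeat' first
      | exact DT.var _ | exact DT.last | exact DT.const _ | assumption
      | refine Dfn.pairMem ?_ ?_ ?_ | refine Dfn.isPair ?_ ?_ ?_ | refine Dfn.mem ?_ ?_
      | refine Dfn.and ?_ ?_ | refine Dfn.or ?_ ?_ | refine Dfn.ex ?_))
    (hN.prod_mem (hN.prod_mem W.2 K.2) hδ)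
  refine ⟨h, hh, fun r b hb x => ?_⟩
  rw [hh']
  constructor
  · rintro ⟨-, hzN, y, ν, h1, h2, h3⟩
    have h1 : ZFSet.pair (ZFSet.pair (natZ r) b.toZFSet) x = ZFSet.pair y.1 ν.1 := h1
    rw [ZFSet.pair_inj] at h1
    obtain ⟨x', hx', y', h4⟩ := hg.sub _ h3
    rw [ZFSet.pair_inj] at h4
    obtain ⟨β, hβ, h5⟩ := Ordinal.mem_toZFSet_iff.1 hx'
    have h6 : ν.1 = β.toZFSet := h4.1.trans h5.symm
    rw [h6] at h2 h3
    rw [hK, Ordinal.toZFSet_mem_toZFSet_iff] at h2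
    rcases (hspec β hβ _).1 h3 with ⟨h7, -⟩ | ⟨r', b', hb', h7, h8⟩
    · exact absurd h2 (not_lt.2 h7)
    · rw [← h1.1, ZFSet.pair_inj, natZ_inj] at h8
      rw [h1.2, h6, h7, h8.1, idxF_toZFSet_inj h8.2]
  · rintro rfl
    have hlt := idx_lt_om hκ r hb
    have h1 := (hspec _ hlt _).2 (Or.inr ⟨r, b, hb, rfl, rfl⟩)
    have h2 := hN.of_pair_mem (hN.mem_of_mem g.2 h1)
    refine ⟨?_, hN.pair_mem h2.2 h2.1, ⟨_, h2.2⟩, ⟨_, h2.1⟩, rfl, ?_, h1⟩
    · rw [ZFSet.pair_mem_prod, ZFSet.pair_mem_prod, hK, hW]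
      exact ⟨⟨natZ_mem_omZ _, Ordinal.toZFSet_mem_toZFSet_iff.2 hb⟩,
        Ordinal.toZFSet_mem_toZFSet_iff.2 hlt⟩
    · show K.1 ∈ (idx κ r b).toZFSet
      rw [hK, Ordinal.toZFSet_mem_toZFSet_iff]
      exact lt_idx _ _

end Pool.Agent.H17.CF.D
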