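import Pool.Agent.H17.CF.D.Cnn
import Pool.Agent.H17.CF.D.IdxF

/-!
# Job CFD-9: the enumeration

PROOFS. `nE C r` is the element `natZ r` of `κ` (`C.hκω`).
* `enum_row`, `→`: for `r : ℕ`, `b` the sections `sec (sec S (nE r)) b` are trees of `N` (`InN.sec` twice). By (strong) induction on `(r, b)`
  lexicographically (for instance on the ordinal `idx κ r (od b)`, `idx_lt_idx`): the row of `S_(r, b)` is `(ν, 0)`, `κ < ν < lam`
  (`basep_iff`). For every `ν'` with `κ < ν' < lam` apply the clause of `Enum` to `U = T (ν', 0)`: `ν' < ν` (`lt_iff`) iff `ν' = idx κ r' (od b')`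
  for some `(r', b') < (r, b)` (`rl_base`, induction hypothesis; `r' ∈ ω` is `natZ` of a natural number, `mem_omZ`, `natZ_mem`) iff
  `ν' < idx κ r (od b)` (`exists_idx`, `idx_lt_om`, `idx_lt_idx`). With `ν' = ν` and `ν' = idx κ r (od b)` (`om_lt_lam`) this gives
  `ν = idx κ r (od b)`.
  `←`: the same equivalences (`U` in `BaseP` has a row `(ν', 0)`, `κ < ν' < lam`).
* `exists_enum`: `S = {w | w 0 ∈ ω ∧ ∃ x, ((w 0, w 1), x) ∈ h ∧ ((x, natZ 0), tup (w 2, ..., w 5)) ∈ z}` with `h` from `exists_idxF` and `z` the code of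
  `C.T_mem`; `InN.of_dfn`; the sections at `(r, b)`, `r ∈ ω`, are `T (idx κ r (od b), 0)`; then `enum_row`.
-/

set_option autoImplicit false
set_option linter.unusedVariables false
set_option linter.unusedSectionVars false
set_option linter.unusedSimpArgs false

open Pool.Agent.H17.Omega Pool.Agent.H17.Omega.CTM Pool.Agent.H52.GC Pool.Agent.H7.IG

namespace Pool.Agent.H17.CF.D

variable {N : Set ZFSet.{0}} {κ : Ordinal.{0}} {C : Cd N κ}

theorem natZ_mem_kap (C : Cd N κ) (r : ℕ) : natZ r ∈ κ.toZFSet := by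
  rw [natZ_eq, Ordinal.toZFSet_mem_toZFSet_iff]
  exact (Ordinal.nat_lt_omega0 r).trans_le C.hκω

/-- The natural number `r` as an element of `κ`. -/
noncomputable def nE (C : Cd N κ) (r : ℕ) : El κ.toZFSet := ⟨natZ r, natZ_mem_kap C r⟩

theorem idx_lt_lam (C : Cd N κ) (r : ℕ) (b : El κ.toZFSet) : idx κ r (od b) < C.lam :=
  (idx_lt_om C.hκω r (od_lt b)).trans (om_lt_lam C)

theorem idx_act (C : Cd N κ) (r : ℕ) (b : El κ.toZFSet) : (idx κ r (od b), 0) ∈ C.Act :=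
  C.act3 _ (idx_lt_lam C r b) 0 (by norm_num)

theorem eq_nE {r : El κ.toZFSet} (h : r.1 ∈ omZ) : ∃ m : ℕ, r = nE C m := by
  obtain ⟨m, hm⟩ := mem_omZ.1 h
  exact ⟨m, Subtype.ext hm⟩

theorem nE_inj {m r : ℕ} : nE C m = nE C r ↔ m = r := by
  constructor
  · intro h
    exact natZ_inj.1 (congrArg Subtype.val h)
  · rintro rfl
    rfl

/-- the main equivalence -/
theorem enum_key {S : Re κ 6} (r : ℕ) (b : El κ.toZFSet)
    (hI : ∀ (r' : ℕ) (b' : El κ.toZFSet), idx κ r' (od b') < idx κ r (od b) →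
      Tr C (sec (sec S (nE C r')) b') ∧ IsV C (sec (sec S (nE C r')) b') (idx κ r' (od b'), 0))
    {U : Re κ 4} (hU : Tr C U) {ν : Ordinal.{0}} (hν : κ < ν) (hV : IsV C U (ν, 0)) :
    (∃ r' b', r'.1 ∈ omZ ∧ (r'.1 ∈ (nE C r).1 ∨ (r' = nE C r ∧ b'.1 ∈ b.1)) ∧
      ¬ Rl N C.Ω U (sec (sec S r') b')) ↔ ν < idx κ r (od b) := by
  constructor
  · rintro ⟨r', b', h1, h2, h3⟩
    obtain ⟨m, rfl⟩ := eq_nE (C := C) h1
    have h4 : idx κ m (od b') < idx κ r (od b) := by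
      rw [idx_lt_idx (od_lt b') (od_lt b)]
      rcases h2 with h2 | ⟨h2, h2'⟩
      · exact Or.inl (natZ_mem.1 h2)
      · exact Or.inr ⟨nE_inj.1 h2, mem_iff_od.1 h2'⟩
    obtain ⟨h5, h6⟩ := hI m b' h4
    rw [rl_base hU h5 hV h6, not_not] at h3
    rw [h3]
    exact h4
  · intro h
    obtain ⟨m, β, hβ, h1⟩ := exists_idx C.hκω hν (h.trans (idx_lt_om C.hκω r (od_lt b)))
    have h2 : ν = idx κ m (od (el hβ)) := by rw [od_el]; exact h1
    have h3 : idx κ m (od (el hβ)) < idx κ r (od b) := by rw [← h2]; exact h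
    obtain ⟨h5, h6⟩ := hI m (el hβ) h3
    refine ⟨nE C m, el hβ, natZ_mem_omZ m, ?_, ?_⟩
    · rw [idx_lt_idx (od_lt _) (od_lt b)] at h3
      rcases h3 with h3 | ⟨h3, h3'⟩
      · exact Or.inl (natZ_mem.2 h3)
      · exact Or.inr ⟨nE_inj.2 h3, mem_iff_od.2 h3'⟩
    · rw [rl_base hU h5 hV h6, not_not]
      exact h2

theorem enum_row {S : Re κ 6} (hS : InN N S) : Enum C S ↔ ∀ (r : ℕ) (b : El κ.toZFSet),
    IsTree C.Ω (sec (sec S (nE C r)) b) ∧ IsV C (sec (sec S (nE C r)) b) (idx κ r (od b), 0) := by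
  have hN : ∀ (r : ℕ) (b : El κ.toZFSet), InN N (sec (sec S (nE C r)) b) := fun r b =>
    InN.sec C.hN C.hκN (InN.sec C.hN C.hκN hS _) _
  constructor
  · rintro ⟨-, hE⟩
    have htr : ∀ (r : ℕ) (b : El κ.toZFSet), Tr C (sec (sec S (nE C r)) b) := fun r b =>
      ⟨hN r b, (hE (nE C r) b (natZ_mem_omZ r)).1⟩
    have key : ∀ (α : Ordinal.{0}) (r : ℕ) (b : El κ.toZFSet), idx κ r (od b) = α →
        IsV C (sec (sec S (nE C r)) b) (idx κ r (od b), 0) := by
      intro α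
      induction α using WellFoundedLT.induction with
      | ind α ih =>
        intro r b hα
        obtain ⟨-, hB, hU⟩ := hE (nE C r) b (natZ_mem_omZ r)
        obtain ⟨ν, hν, hν', hV⟩ := (basep_iff (htr r b)).1 hB
        have hI : ∀ (r' : ℕ) (b' : El κ.toZFSet), idx κ r' (od b') < idx κ r (od b) →
            Tr C (sec (sec S (nE C r')) b') ∧ IsV C (sec (sec S (nE C r')) b') (idx κ r' (od b'), 0) :=
          fun r' b' h => ⟨htr r' b', ih _ (hα ▸ h) r' b' rfl⟩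
        have main : ∀ ν' : Ordinal.{0}, κ < ν' → ν' < C.lam → (ν' < ν ↔ ν' < idx κ r (od b)) := by
          intro ν' h1 h2
          have hact : (ν', 0) ∈ C.Act := C.act3 _ h2 0 (by norm_num)
          have hT := tr_T hact
          have hVT := isV_T hact
          have h3 := hU (C.T (ν', 0)) hT ((basep_iff hT).2 ⟨ν', h1, h2, hVT⟩)
          rw [lt_iff hT (htr r b) hVT hV, enum_key r b hI hT h1 hVT] at h3
          rw [← h3]
          exact ⟨fun h => ⟨h, hν⟩, fun h => h.1⟩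
        have hfin : ν = idx κ r (od b) := by
          rcases lt_trichotomy ν (idx κ r (od b)) with h | h | h
          · exact absurd ((main ν hν hν').2 h) (lt_irrefl _)
          · exact h
          · exact absurd ((main _ (lt_idx r (od b)) (idx_lt_lam C r b)).1 h) (lt_irrefl _)
        rw [← hfin]
        exact hV
    exact fun r b => ⟨(htr r b).2, key _ r b rfl⟩
  · intro h
    refine ⟨hS, fun r b hr => ?_⟩
    obtain ⟨m, rfl⟩ := eq_nE (C := C) hr
    have htr : Tr C (sec (sec S (nE C m)) b) := ⟨hN m b, (h m b).1⟩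
    refine ⟨(h m b).1, (basep_iff htr).2 ⟨_, lt_idx _ _, idx_lt_lam C m b, (h m b).2⟩, fun U hU hB => ?_⟩
    obtain ⟨ν, hν, hν', hV⟩ := (basep_iff hU).1 hB
    rw [lt_iff hU htr hV (h m b).2, enum_key m b (fun r' b' _ => ⟨⟨hN r' b', (h r' b').1⟩, (h r' b').2⟩) hU hν hV]
    exact ⟨fun h => h.1, fun h => ⟨h, lt_idx _ _⟩⟩

theorem exists_enum (C : Cd N κ) : ∃ S, Enum C S := by
  obtain ⟨h, hh, hh'⟩ := exists_idxF C
  obtain ⟨z, hz, hz'⟩ := C.T_mem
  have hd : C.hN.Dfn (fun v : Fin 6 → N => (v 0).1 ∈ omZ ∧ ∃ x : N,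
      ZFSet.pair (ZFSet.pair (v 0).1 (v 1).1) x.1 ∈ h ∧
      ZFSet.pair (ZFSet.pair x.1 (natZ 0)) (tup (fun i : Fin 4 => (v i.succ.succ).1)) ∈ z) := by
    refine Dfn.and (Df.mem (PD.var _) (PD.const C.hN.omZ_mem)) ?_
    refine Dfn.ex (P := fun (v : Fin 6 → N) (x : N) => ZFSet.pair (ZFSet.pair (v 0).1 (v 1).1) x.1 ∈ h ∧
      ZFSet.pair (ZFSet.pair x.1 (natZ 0)) (tup (fun i : Fin 4 => (v i.succ.succ).1)) ∈ z) ?_
    exact Dfn.and (Df.mem (PD.pair (PD.pair (PD.var _) (PD.var _)) (PD.var _)) (PD.const hh))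
      (Df.mem (PD.pair (PD.pair (PD.var _) (PD.const (C.hN.natZ_mem_N _))) (PD_tup fun i => PD.var _))
        (PD.const hz))
  have hS := InN.of_dfn C.hN C.hκN hd
  refine ⟨_, (enum_row hS).2 fun r b => ?_⟩
  have hact := idx_act C r b
  have hsec : sec (sec {w : Fin 6 → El κ.toZFSet | (up C.hN C.hκN (w 0)).1 ∈ omZ ∧ ∃ x : N,
      ZFSet.pair (ZFSet.pair (up C.hN C.hκN (w 0)).1 (up C.hN C.hκN (w 1)).1) x.1 ∈ h ∧
      ZFSet.pair (ZFSet.pair x.1 (natZ 0)) (tup (fun i : Fin 4 => (up C.hN C.hκN (w i.succ.succ)).1)) ∈ z}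
      (nE C r)) b = C.T (idx κ r (od b), 0) := by
    ext w
    rw [hz' _ 0 w hact]
    show (natZ r ∈ omZ ∧ ∃ x : N, ZFSet.pair (ZFSet.pair (natZ r) b.1) x.1 ∈ h ∧
      ZFSet.pair (ZFSet.pair x.1 (natZ 0)) (tup (fun i : Fin 4 => (w i).1)) ∈ z) ↔ _
    constructor
    · rintro ⟨-, x, h1, h2⟩
      rw [← od_val b, hh' r (od b) (od_lt b)] at h1
      rw [h1] at h2
      exact h2
    · intro h1
      refine ⟨natZ_mem_omZ r, ⟨(idx κ r (od b)).toZFSet, C.hN.mem_of_mem C.hlamN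
        (Ordinal.toZFSet_mem_toZFSet_iff.2 (idx_lt_lam C r b))⟩, ?_, h1⟩
      rw [← od_val b, hh' r (od b) (od_lt b)]
  rw [hsec]
  exact ⟨C.T_tree _ hact, isV_T hact⟩

end Pool.Agent.H17.CF.D
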