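import Pool.Agent.H17.CF.D.Def

/-!
# Job CFD-8a: the indices `idx κ r b = κ + 1 + (κ r + b)`

Status: complete (helper69).

PROOFS. Arithmetic with `Ordinal.mul_lt_mul...`, `Ordinal.div_add_mod`, `Ordinal.mod_lt`, `Ordinal.add_lt_add_left`, `Ordinal.lt_mul_iff...`,
`Ordinal.lt_mul_of_limit` (`κ * ω` is the supremum of the `κ * n`).
* `idx_lt_om`: `κ + 1 + (κ r + b) < κ (r + 3) ≤ κ ω`.
* `idx_lt_idx`: `κ r + b < κ r' + b'` iff `(r, b) < (r', b')` lexicographically, for `b, b' < κ`.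
* `exists_idx`: `ν = κ + 1 + ξ`, `ξ < κ ω`, `ξ = κ (ξ / κ) + ξ % κ`, `ξ / κ < ω`.
* `om_lt_lam`: `C.bk3 ∅`.
-/

set_option autoImplicit false
set_option linter.unusedVariables false
set_option linter.unusedSectionVars false
set_option linter.unusedSimpArgs false

open Pool.Agent.H17.Omega Pool.Agent.H17.Omega.CTM Pool.Agent.H52.GC Pool.Agent.H7.IG

namespace Pool.Agent.H17.CF.D

variable {N : Set ZFSet.{0}} {κ : Ordinal.{0}}

theorem idx_bd (r : ℕ) {b : Ordinal.{0}} (hb : b < κ) : κ * (r : Ordinal.{0}) + b < κ * ((r + 1 : ℕ) : Ordinal.{0}) := by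
  rw [Nat.cast_add, Nat.cast_one, mul_add, mul_one]
  exact (add_lt_add_iff_left _).2 hb

theorem idx_lex {r r' : ℕ} {b b' : Ordinal.{0}} (hb : b < κ) (h : r < r') :
    κ * (r : Ordinal.{0}) + b < κ * (r' : Ordinal.{0}) + b' := by
  refine (idx_bd r hb).trans_le (le_trans ?_ le_self_add)
  gcongr
  exact_mod_cast h

theorem lt_idx (r : ℕ) (b : Ordinal.{0}) : κ < idx κ r b := by
  rw [idx]
  exact (lt_add_one κ).trans_le le_self_add

theorem idx_lt_om (hκ : Ordinal.omega0 ≤ κ) (r : ℕ) {b : Ordinal.{0}} (hb : b < κ) :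
    idx κ r b < κ * Ordinal.omega0 := by
  have h1 : (1 : Ordinal.{0}) ≤ κ := Ordinal.one_lt_omega0.le.trans hκ
  calc idx κ r b = κ + 1 + (κ * (r : Ordinal.{0}) + b) := rfl
    _ < κ + 1 + κ * ((r + 1 : ℕ) : Ordinal.{0}) := (add_lt_add_iff_left _).2 (idx_bd r hb)
    _ ≤ κ + κ + κ * ((r + 1 : ℕ) : Ordinal.{0}) := by gcongr
    _ = κ * (((1 : Ordinal.{0}) + 1) + ((r + 1 : ℕ) : Ordinal.{0})) := by rw [mul_add, mul_add, mul_one]
    _ ≤ κ * Ordinal.omega0 := by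
      have h2 : ((1 : Ordinal.{0}) + 1) + ((r + 1 : ℕ) : Ordinal.{0}) = ((1 + 1 + (r + 1) : ℕ) : Ordinal.{0}) := by
        rw [Nat.cast_add (1 + 1) (r + 1), Nat.cast_add 1 1, Nat.cast_one]
      rw [h2]
      gcongr
      exact (Ordinal.natCast_lt_omega0 _).le

theorem idx_lt_idx {r r' : ℕ} {b b' : Ordinal.{0}} (hb : b < κ) (hb' : b' < κ) :
    idx κ r b < idx κ r' b' ↔ r < r' ∨ (r = r' ∧ b < b') := by
  rw [idx, idx, add_lt_add_iff_left]
  rcases lt_trichotomy r r' with h | h | h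
  · exact ⟨fun _ => Or.inl h, fun _ => idx_lex hb h⟩
  · subst h
    rw [add_lt_add_iff_left]
    exact ⟨fun h => Or.inr ⟨rfl, h⟩, fun h => h.elim (fun h => absurd h (lt_irrefl _)) fun h => h.2⟩
  · constructor
    · intro h'
      exact absurd h' (idx_lex (b' := b) hb' h).le.not_gt
    · rintro (h' | ⟨h', -⟩)
      · exact absurd h' h.le.not_gt
      · exact absurd h' h.ne'

theorem idx_inj {r r' : ℕ} {b b' : Ordinal.{0}} (hb : b < κ) (hb' : b' < κ) :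
    idx κ r b = idx κ r' b' ↔ r = r' ∧ b = b' := by
  constructor
  · intro h
    have h1 := (idx_lt_idx (r := r) (r' := r') hb hb').not.1 h.not_lt
    have h2 := (idx_lt_idx (r := r') (r' := r) hb' hb).not.1 h.symm.not_lt
    push Not at h1 h2
    have e : r = r' := le_antisymm h2.1 h1.1
    exact ⟨e, le_antisymm (h2.2 e.symm) (h1.2 e)⟩
  · rintro ⟨rfl, rfl⟩
    rfl

theorem exists_idx (hκ : Ordinal.omega0 ≤ κ) {ν : Ordinal.{0}} (h : κ < ν) (h' : ν < κ * Ordinal.omega0) :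
    ∃ (r : ℕ) (b : Ordinal.{0}), b < κ ∧ ν = idx κ r b := by
  have hκ0 : κ ≠ 0 := (Ordinal.omega0_pos.trans_le hκ).ne'
  have h1 : κ + 1 ≤ ν := Order.add_one_le_of_lt h
  have h2 : κ + 1 + (ν - (κ + 1)) = ν := Ordinal.add_sub_cancel_of_le h1
  have h3 : ν - (κ + 1) < κ * Ordinal.omega0 := lt_of_le_of_lt (Ordinal.sub_le_self _ _) h'
  have h4 : (ν - (κ + 1)) / κ < Ordinal.omega0 := (Ordinal.lt_mul_iff_div_lt hκ0).1 h3
  obtain ⟨r, hr⟩ := Ordinal.lt_omega0.1 h4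
  refine ⟨r, (ν - (κ + 1)) % κ, Ordinal.mod_lt _ hκ0, ?_⟩
  have h5 := Ordinal.div_add_mod (ν - (κ + 1)) κ
  rw [hr] at h5
  rw [idx, h5, h2]

theorem om_lt_lam (C : Cd N κ) : κ * Ordinal.omega0 < C.lam := by
  obtain ⟨θ, h1, h2, -⟩ := C.bk3 ∅ C.hN.empty_mem
  exact h1.trans_lt h2

end Pool.Agent.H17.CF.D
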