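import Pool.Agent.H17.CF.D.Mul
import Pool.Agent.H7.IG.Tk4

/-!
# Job CFD-2: all rows of stage below `α` are listed by a sequence of length `κ`

PROOF. Let `Rw = {(μ, r) : μ ∈ α, r ∈ 4, (μ, r) ∈ act}` (`exists_sep` from `ZFSet.prod α.toZFSet (natZ 4)`, where `act` is the code of
`C.act_mem`). It contains `(0, 0)` (`C.act3`). `Cvr N κ Rw`: `C.hcov α` gives `f : κ → α` in `N`; by `cvr_mulom` (with `kap_succ`) and
`Cvr.trans` it is enough that `Cvr N (κ × ω) Rw`: `F y x := ∃ b n μ, y = (b, n), (b, μ) ∈ f, x = (μ, n)` (`cvr_of_dfn`).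
`cvr_onto`: `g ∈ N`, `Onto g κ Rw`. Let `S = {w | ∃ p, (w 0, p) ∈ g ∧ (p, tup (w 1, ..., w 4)) ∈ z}` where `z` is the code of
`C.T_mem` (`InN.of_dfn`). For `a ∈ κ`, `g(a) = (μ, r)` with `x = (μ, r) ∈ Act`, `sec S a = T x` (`tup` of `fun i => w i.succ` for
`w = Fin.cons a w'`), a tree by `C.T_tree`; every `x` occurs (`Onto`).
-/

set_option autoImplicit false
set_option linter.unusedVariables false
set_option linter.unusedSectionVars false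
set_option linter.unusedSimpArgs false

open Pool.Agent.H17.Omega Pool.Agent.H17.Omega.CTM Pool.Agent.H52.GC Pool.Agent.H7.IG

namespace Pool.Agent.H17.CF.D

variable {N : Set ZFSet.{0}} {κ : Ordinal.{0}}

theorem exists_list (C : Cd N κ) {α : Ordinal.{0}} (h : α < C.lam) (h0 : 0 < α) :
    ∃ S, Seq C S ∧ ∀ x ∈ C.Act, x.1 < α → ∃ a, sec S a = C.T x := by
  have hN := C.hN
  have hαN : α.toZFSet ∈ N := hN.toZFSet_mem_of_le h.le C.hlamN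
  obtain ⟨zA, hzA, hzA'⟩ := C.act_mem
  obtain ⟨zT, hzT, hzT'⟩ := C.T_mem
  have hpN : ZFSet.prod α.toZFSet (natZ 4) ∈ N := hN.prod_mem hαN (hN.natZ_mem_N 4)
  obtain ⟨Rw, hRw, hRw'⟩ := hN.exists_sep (P := fun p => p.1 ∈ zA)
    (Df.mem (PD.var _) (PD.const hzA)) hpN
  have hRm : ∀ p, p ∈ Rw → ∃ μ, μ < α ∧ ∃ r : ℕ, p = ZFSet.pair μ.toZFSet (natZ r) ∧ (μ, r) ∈ C.Act := by
    intro p hp
    obtain ⟨h1, _, h2⟩ := (hRw' p).1 hp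
    obtain ⟨m, hm, n, hn, rfl⟩ := ZFSet.mem_prod.1 h1
    obtain ⟨μ, hμ, rfl⟩ := Ordinal.mem_toZFSet_iff.1 hm
    obtain ⟨r, hr, rfl⟩ := mem_natZ.1 hn
    exact ⟨μ, hμ, r, rfl, (hzA' μ r).2 h2⟩
  have hRi : ∀ μ r, μ < α → (μ, r) ∈ C.Act → ZFSet.pair μ.toZFSet (natZ r) ∈ Rw := by
    intro μ r hμ hx
    have h1 := (hzA' μ r).1 hx
    refine (hRw' _).2 ⟨?_, hN.mem_of_mem hzA h1, h1⟩
    rw [ZFSet.pair_mem_prod]
    exact ⟨Ordinal.toZFSet_mem_toZFSet_iff.2 hμ, mem_natZ.2 ⟨r, (C.act_lt _ hx).2, rfl⟩⟩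
  -- `Rw` is covered by `κ`
  have hom : omZ ∈ N := hN.omZ_mem
  have hpκ : ZFSet.prod κ.toZFSet omZ ∈ N := hN.prod_mem C.hκN hom
  have hc1 : Cvr N κ.toZFSet (ZFSet.prod κ.toZFSet omZ) := cvr_mulom hN C.hκN fun β hβ => kap_succ C hβ
  have hc2 : Cvr N (ZFSet.prod κ.toZFSet omZ) Rw := by
    obtain ⟨f, hf, hf1, hf2⟩ := C.hcov α h
    refine cvr_of_dfn hN (F := fun y x => ∃ b n m : N, y.1 = ZFSet.pair b.1 n.1 ∧
      ZFSet.pair b.1 m.1 ∈ f ∧ x.1 = ZFSet.pair m.1 n.1) ?_ hpκ hRw ?_ ?_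
    · refine Dfn.ex (P := fun v b => ∃ n m : N, (v 0).1 = ZFSet.pair b.1 n.1 ∧
        ZFSet.pair b.1 m.1 ∈ f ∧ (v 1).1 = ZFSet.pair m.1 n.1) ?_
      refine Dfn.ex (P := fun v n => ∃ m : N, (v 0).1 = ZFSet.pair (v 2).1 n.1 ∧
        ZFSet.pair (v 2).1 m.1 ∈ f ∧ (v 1).1 = ZFSet.pair m.1 n.1) ?_
      refine Dfn.ex (P := fun v m => (v 0).1 = ZFSet.pair (v 2).1 (v 3).1 ∧
        ZFSet.pair (v 2).1 m.1 ∈ f ∧ (v 1).1 = ZFSet.pair m.1 (v 3).1) ?_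
      exact Dfn.and (Df.eq (PD.var _) (PD.pair (PD.var _) (PD.var _)))
        (Dfn.and (Df.mem (PD.pair (PD.var _) (PD.var _)) (PD.const hf))
          (Df.eq (PD.var _) (PD.pair (PD.var _) (PD.var _))))
    · rintro y hy x x' ⟨b, n, m, h1, h2, h3⟩ ⟨b', n', m', h1', h2', h3'⟩
      have h4 : ZFSet.pair b.1 n.1 = ZFSet.pair b'.1 n'.1 := h1.symm.trans h1'
      rw [ZFSet.pair_inj] at h4
      rw [h1, ZFSet.pair_mem_prod] at hy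
      rw [← h4.1] at h2'
      have h5 := hf1 b.1 hy.1 m.1 m'.1 h2 h2'
      exact Subtype.ext (by rw [h3, h3', h4.2, h5])
    · intro x hx
      obtain ⟨μ, hμ, r, h1, h2⟩ := hRm x.1 hx
      obtain ⟨b, hb, hbf⟩ := hf2 μ.toZFSet (Ordinal.toZFSet_mem_toZFSet_iff.2 hμ)
      have hbN := hN.mem_of_mem C.hκN hb
      have hrN := hN.natZ_mem_N r
      refine ⟨⟨ZFSet.pair b (natZ r), hN.pair_mem hbN hrN⟩, ?_, ⟨b, hbN⟩, ⟨natZ r, hrN⟩,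
        ⟨μ.toZFSet, hN.mem_of_mem hαN (Ordinal.toZFSet_mem_toZFSet_iff.2 hμ)⟩, rfl, hbf, h1⟩
      show ZFSet.pair b (natZ r) ∈ ZFSet.prod κ.toZFSet omZ
      rw [ZFSet.pair_mem_prod]
      exact ⟨hb, mem_omZ.2 ⟨r, rfl⟩⟩
  have hc := Cvr.trans hN C.hκN hpκ hRw hc1 hc2
  have hlam0 : (0 : Ordinal.{0}) < C.lam := h0.trans h
  obtain ⟨g, hg, hgo⟩ := cvr_onto hN C.hκN hRw hc ⟨_, hRi 0 0 h0 (C.act3 0 hlam0 0 (by norm_num))⟩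
  -- the sequence
  have hP : hN.Dfn (fun v : Fin 5 → N => ∃ p : N, ZFSet.pair (v 0).1 p.1 ∈ g ∧
      ZFSet.pair p.1 (tup (fun i : Fin 4 => (v i.succ).1)) ∈ zT) := by
    refine Dfn.ex (P := fun v p => ZFSet.pair (v 0).1 p.1 ∈ g ∧
      ZFSet.pair p.1 (tup (fun i : Fin 4 => (v i.succ).1)) ∈ zT) ?_
    exact Dfn.and (Df.mem (PD.pair (PD.var _) (PD.var _)) (PD.const hg))
      (Df.mem (PD.pair (PD.var _) (PD_tup fun i => PD.var _)) (PD.const hzT))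
  have hin := InN.of_dfn hN C.hκN hP
  obtain ⟨S, hS⟩ : ∃ S : Re κ 5, S = {w : Fin 5 → El κ.toZFSet | ∃ p : N,
      ZFSet.pair (up hN C.hκN (w 0)).1 p.1 ∈ g ∧
      ZFSet.pair p.1 (tup (fun i : Fin 4 => (up hN C.hκN (w i.succ)).1)) ∈ zT} := ⟨_, rfl⟩
  have hSin : InN N S := by rw [hS]; exact hin
  have hsec : ∀ (a : El κ.toZFSet) (μ : Ordinal.{0}) (r : ℕ), (μ, r) ∈ C.Act →
      ZFSet.pair a.1 (ZFSet.pair μ.toZFSet (natZ r)) ∈ g → sec S a = C.T (μ, r) := by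
    intro a μ r hx hag
    ext w
    rw [hzT' μ r w hx]
    show (Fin.cons a w : Fin 5 → El κ.toZFSet) ∈ S ↔ _
    rw [hS]
    constructor
    · rintro ⟨p, h1, h2⟩
      have h3 : p.1 = ZFSet.pair μ.toZFSet (natZ r) :=
        (hgo.1.ap_eq (show ZFSet.pair a.1 p.1 ∈ g from h1)).symm.trans (hgo.1.ap_eq hag)
      rw [h3] at h2
      exact h2
    · intro h1
      have h2 : ZFSet.pair μ.toZFSet (natZ r) ∈ N := (hN.of_pair_mem (hN.mem_of_mem hg hag)).2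
      exact ⟨⟨_, h2⟩, hag, h1⟩
  refine ⟨S, ⟨hSin, fun a => ?_⟩, ?_⟩
  · have h1 := hgo.1.ap_mem a.2
    obtain ⟨μ, hμ, r, h2, h3⟩ := hRm _ h1.1
    rw [hsec a μ r h3 (by rw [← h2]; exact h1.2)]
    exact C.T_tree _ h3
  · rintro ⟨μ, r⟩ hx hμ
    obtain ⟨y, hy, hyg⟩ := hgo.2 _ (hRi μ r hμ hx)
    exact ⟨⟨y, hy⟩, hsec ⟨y, hy⟩ μ r hx hyg⟩

end Pool.Agent.H17.CF.D
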