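import Pool.Agent.H17.CF.D.OrdB
import Pool.Agent.H17.CF.D.Lst

/-!
# Job CFD-4a: large trees

PROOFS.
* `large_iff`, `←`: let `c ∈ A X` be not an edge, `S` a sequence, `α` its bound (`bdd_seq`). By `C.A_sub`, `C.cl_iff`, `c = {x}` (with `x ∈ Act`)
  or `c = ∅`. Case `{x}`: `β = max α (x.1 + 1)`, `e = {(μ, 2), x}` from `exists_up` with `β ≤ μ`, `e ∈ A X` (`C.A_up`), `Y` the tree of
  `exists_edge`, which is an atom (`atom_iff`) and `Le Y X` (`le_iff`). If `Meet Y (sec S a) (sec S b)` then (`meet_iff`) `e ∈ A (sec S a)` and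
  `e ∈ A (sec S b)`, so `res e β = {x}` is in both, so `{x} ∈ A Y = {e}`: contradiction (`ed_ne`). Case `∅`: the same with
  `e = {(α, 1), (α, 0)}` (`ed_one`), `res e α = ∅`.
  `→`: assume that all cliques in `A X` are edges. Let `α` be a bound for `X` (`bdd_tr`), wlog `0 < α` (use `max α 1`, `C.lam > 1` by
  `C.hlamκ`, `C.hκω`), `S` from `exists_list`, `Y` an atom `≤ X`, `A Y = {e}`, `e = {x, y} ∈ A X`. `res e α ∈ A X` is an edge, so it has two
  elements and equals `e`, so `x.1, y.1 < α`, `T x = sec S a`, `T y = sec S b`, and `Meet Y (T x) (T y)` (`meet_iff`, `isV_T`, `cl_two`).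

Status: complete (helper26).
-/

set_option autoImplicit false
set_option linter.unusedVariables false
set_option linter.unusedSectionVars false
set_option linter.unusedSimpArgs false

open Pool.Agent.H17.Omega Pool.Agent.H17.Omega.CTM Pool.Agent.H52.GC Pool.Agent.H7.IG

namespace Pool.Agent.H17.CF.D

variable {N : Set ZFSet.{0}} {κ : Ordinal.{0}} {C : Cd N κ}

/-- an edge whose restriction is different gives an atom that is not a meet -/
theorem lrg_aux {X : Re κ 4} (hX : Tr C X) {S : Re κ 5} (hS : Seq C S) {β : Ordinal.{0}}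
    (hb : ∀ a, ∀ c ∈ C.A (sec S a), res c β ∈ C.A (sec S a)) {x y : Row} (h : C.Ed x y)
    (he : ({x, y} : Set Row) ∈ C.A X) (hne : res {x, y} β ≠ {x, y}) :
    ∃ Y, Tr C Y ∧ Atom C Y ∧ Le C Y X ∧ ∀ a b, ¬ Meet C Y (sec S a) (sec S b) := by
  obtain ⟨Y, hY, hAY⟩ := exists_edge h
  refine ⟨Y, hY, (atom_iff hY).2 ⟨x, y, h, hAY⟩, (le_iff hY hX).2 fun c hc => ?_,
    fun a b hm => hne ?_⟩
  · rw [(hAY c).1 hc]
    exact he
  · have h1 := (meet_iff hY (hS.tr a) (hS.tr b)).1 hm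
    have h2 := (h1 _).1 ((hAY _).2 rfl)
    exact (hAY _).1 ((h1 _).2 ⟨hb a _ h2.1, hb b _ h2.2⟩)

theorem large_iff {X : Re κ 4} (hX : Tr C X) :
    Large C X ↔ ∃ c ∈ C.A X, ∀ x y, C.Ed x y → c ≠ {x, y} := by
  constructor
  · intro hL
    by_contra hcon
    push Not at hcon
    obtain ⟨α, hα, hb⟩ := bdd_tr hX
    have h1 : (1 : Ordinal.{0}) < C.lam :=
      Ordinal.one_lt_omega0.trans_le (C.hκω.trans C.hlamκ.le)
    have hα' : max α 1 < C.lam := max_lt hα h1
    obtain ⟨S, hS, hS'⟩ := exists_list C hα' (lt_of_lt_of_le zero_lt_one (le_max_right _ _))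
    obtain ⟨Y, hY, hat, hle, hno⟩ := hL S hS
    obtain ⟨x, y, hxy, hAY⟩ := (atom_iff hY).1 hat
    have he : ({x, y} : Set Row) ∈ C.A X := (le_iff hY hX).1 hle ((hAY _).2 rfl)
    obtain ⟨x', y', hxy', hr⟩ := hcon _ (hb (max α 1) (le_max_left _ _) _ he)
    have hne := ed_ne hxy'
    have hx' : x' ∈ res ({x, y} : Set Row) (max α 1) := by rw [hr]; exact Set.mem_insert _ _
    have hy' : y' ∈ res ({x, y} : Set Row) (max α 1) := by
      rw [hr]; exact Set.mem_insert_of_mem _ rfl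
    have hxy1 : x.1 < max α 1 ∧ y.1 < max α 1 := by
      have e1 := hx'.1
      have e2 := hy'.1
      rw [Set.mem_insert_iff, Set.mem_singleton_iff] at e1 e2
      rcases e1 with rfl | rfl <;> rcases e2 with rfl | rfl
      · exact absurd rfl hne
      · exact ⟨hx'.2, hy'.2⟩
      · exact ⟨hy'.2, hx'.2⟩
      · exact absurd rfl hne
    obtain ⟨hxA, hyA, -⟩ := (C.ed_iff x y).1 hxy
    obtain ⟨a, ha⟩ := hS' x hxA hxy1.1
    obtain ⟨b, hb'⟩ := hS' y hyA hxy1.2
    apply hno a b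
    rw [ha, hb']
    refine (meet_iff hY (tr_T hxA) (tr_T hyA)).2 fun c => ?_
    rw [hAY, C.A_T x hxA, C.A_T y hyA]
    constructor
    · rintro rfl
      exact ⟨⟨ed_cl hxy, Set.mem_insert _ _⟩, ed_cl hxy, Set.mem_insert_of_mem _ rfl⟩
    · rintro ⟨⟨hc, hxc⟩, -, hyc⟩
      exact (cl_two hc hxc hyc (ed_ne hxy)).1
  · rintro ⟨c, hc, hne⟩ S hS
    obtain ⟨α, hα, hb⟩ := bdd_seq hS
    rcases (C.cl_iff c).1 (C.A_sub _ hc) with rfl | ⟨x, hx, rfl⟩ | ⟨x, y, hxy, rfl⟩
    · have hed := ed_one (C := C) hα (le_refl α)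
      refine lrg_aux hX hS (hb α le_rfl) hed
        (C.A_up X hX.2 hX.1 _ hc _ (ed_cl hed) (Set.empty_subset _)) fun h => ?_
      have h1 : ((α, 1) : Row) ∈ res ({(α, 1), (α, 0)} : Set Row) α := by
        rw [h]; exact Set.mem_insert _ _
      exact lt_irrefl _ h1.2
    · have hβ : max α (x.1 + 1) < C.lam := max_lt hα (lam_succ C (C.act_lt x hx).1)
      obtain ⟨μ, h1, h2, hed⟩ := exists_up hx hβ
      refine lrg_aux hX hS (hb (max α (x.1 + 1)) (le_max_left _ _)) hed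
        (C.A_up X hX.2 hX.1 _ hc _ (ed_cl hed)
          (Set.singleton_subset_iff.2 (Set.mem_insert_of_mem _ rfl))) fun h => ?_
      have h3 : ((μ, 2) : Row) ∈ res ({(μ, 2), x} : Set Row) (max α (x.1 + 1)) := by
        rw [h]; exact Set.mem_insert _ _
      exact absurd h3.2 (not_lt.2 h1)
    · exact absurd rfl (hne x y hxy)

end Pool.Agent.H17.CF.D
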