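import Pool.Agent.H17.CF.D.SodG

/-!
# Job CFD-S4: the enumeration, codes and the well-ordering are second-order definable

Calculus: `SOD.*` in Sod.lean (quantifiers with a FRESH variable; freshness `hf` by `intros; simp (disch := omega) only [updR_ne, upd_ne]`);
`allTr`, `exTr`, `allSeq`, `exSeq` in SodO.lean; sections `SOD.sec C.hN C.hκN`.

PROOFS. Unfold the definition (Def.lean) and choose fresh variables.
* `sec2`: `SOD.sec` for `n = 5`, `s`, `k`, `a` and the predicate `Q' X v ρ := Q (sec X (v b)) v ρ`, then `SOD.sec` for `n = 4`, `k`, `l`, `b`.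
* `sod_enum`: `r`, `b`, `r'`, `b'` are the variables `0, 1, 2, 3`; `U` is `(4, 0)`; `sec (sec (ρ 6 s) r) b` by `sec2` (`k = 0`, `l = 1`), the
  second one `l = 2`. (`r' = r` by `SOD.eq`, membership by `SOD.lt`, `sod_om`, `r'.1 ∈ omZ` etc.)
* `sod_codeR`: `Z` is `(4, x + 1)`, `a` is the variable `b + n` (fresh for the block `b, ..., b + n - 1`), numerals by `sod_nat`, `Adj` of `Z` and the
  section by `sec2` (`l = x + 2`), finite conjunction by `SOD.allFin`.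
* `sod_code`: `S` is `(6, e + 1)`; the tuple `w` by `SOD.allW n 0` (`hf`: the predicate does not depend on `v` at all), `w ∈ ρ n e` by `SOD.app`.
  (In `SOD.exR 6 (e + 1)` the freshness is `(n, e) ≠ (6, e + 1)`.)
* `sod_wo`: `X` is `(4, i + j + 2)`, `Y` is `(4, i + j + 3)` (fresh also if `n = 4`).
-/

set_option autoImplicit false
set_option linter.unusedVariables false
set_option linter.unusedSectionVars false
set_option linter.unusedSimpArgs false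

open Pool.Agent.H17.Omega Pool.Agent.H17.Omega.CTM Pool.Agent.H52.GC Pool.Agent.H7.IG

namespace Pool.Agent.H17.CF.D

variable {N : Set ZFSet.{0}} {κ : Ordinal.{0}}

/-- Sections of 6-ary relations. -/
theorem sec2 (C : Cd N κ) (s k l a b : ℕ) {Q : Re κ 4 → Va κ → En κ → Prop}
    (hf : ∀ X Y v ρ, Q X v (updR ρ 4 l Y) ↔ Q X v ρ) (hf' : ∀ X Y v ρ, Q X v (updR ρ 5 k Y) ↔ Q X v ρ)
    (h : SOD N κ (fun v ρ => Q (ρ 4 l) v ρ)) :
    SOD N κ (fun v ρ => Q (sec (sec (ρ 6 s) (v a)) (v b)) v ρ) := by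
  have h1 : SOD N κ (fun v ρ => Q (sec (ρ 5 k) (v b)) v ρ) := SOD.sec C.hN C.hκN 4 k l b (by omega) hf h
  exact SOD.sec C.hN C.hκN 5 s k a (by omega) (Q := fun X v ρ => Q (sec X (v b)) v ρ)
    (fun X Y v ρ => hf' _ Y v ρ) h1

theorem sod_enum (C : Cd N κ) (s : ℕ) : SOD N κ (fun v ρ => Enum C (ρ 6 s)) := by
  have h1 : SOD N κ (fun v ρ => IsTree C.Ω (sec (sec (ρ 6 s) (v 0)) (v 1))) :=
    sec2 C s 0 1 0 1 (Q := fun X _ _ => IsTree C.Ω X) (by intros; exact Iff.rfl) (by intros; exact Iff.rfl)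
      (sod_isTree C 1)
  have h2 : SOD N κ (fun v ρ => BaseP C (sec (sec (ρ 6 s) (v 0)) (v 1))) :=
    sec2 C s 0 1 0 1 (Q := fun X _ _ => BaseP C X) (by intros; exact Iff.rfl) (by intros; exact Iff.rfl)
      (sod_basep C 1)
  have h3 : SOD N κ (fun v ρ => Lt C (ρ 4 0) (sec (sec (ρ 6 s) (v 0)) (v 1))) :=
    sec2 C s 0 1 0 1 (Q := fun X _ ρ => Lt C (ρ 4 0) X)
      (by intros; simp (disch := omega) only [updR_ne, upd_ne])
      (by intros; simp (disch := omega) only [updR_ne, upd_ne]) (sod_lt C 0 1)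
  have h4 : SOD N κ (fun v ρ => Rl N C.Ω (ρ 4 0) (sec (sec (ρ 6 s) (v 2)) (v 3))) :=
    sec2 C s 0 1 2 3 (Q := fun X _ ρ => Rl N C.Ω (ρ 4 0) X)
      (by intros; simp (disch := omega) only [updR_ne, upd_ne])
      (by intros; simp (disch := omega) only [updR_ne, upd_ne]) (sod_rl C 0 1)
  have h5 : SOD N κ (fun v ρ => ∃ r' b', r'.1 ∈ omZ ∧ (r'.1 ∈ (v 0).1 ∨ (r' = v 0 ∧ b'.1 ∈ (v 1).1)) ∧
      ¬ Rl N C.Ω (ρ 4 0) (sec (sec (ρ 6 s) r') b')) := by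
    refine SOD.ex 2 (Q := fun r' v ρ => ∃ b' : El κ.toZFSet, r'.1 ∈ omZ ∧ (r'.1 ∈ (v 0).1 ∨ (r' = v 0 ∧ b'.1 ∈ (v 1).1)) ∧
      ¬ Rl N C.Ω (ρ 4 0) (sec (sec (ρ 6 s) r') b')) (by intros; simp (disch := omega) only [updR_ne, upd_ne]) ?_
    refine SOD.ex 3 (Q := fun b' v ρ => (v 2).1 ∈ omZ ∧ ((v 2).1 ∈ (v 0).1 ∨ (v 2 = v 0 ∧ b'.1 ∈ (v 1).1)) ∧
      ¬ Rl N C.Ω (ρ 4 0) (sec (sec (ρ 6 s) (v 2)) b')) (by intros; simp (disch := omega) only [updR_ne, upd_ne]) ?_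
    exact (sod_om C.hκω 2).and (((SOD.lt 2 0).or ((SOD.eq 2 0).and (SOD.lt 3 1))).and h4.not)
  have h6 : SOD N κ (fun v ρ => ∀ U, Tr C U → (BaseP C U → (Lt C U (sec (sec (ρ 6 s) (v 0)) (v 1)) ↔
      ∃ r' b', r'.1 ∈ omZ ∧ (r'.1 ∈ (v 0).1 ∨ (r' = v 0 ∧ b'.1 ∈ (v 1).1)) ∧
      ¬ Rl N C.Ω U (sec (sec (ρ 6 s) r') b')))) := by
    refine allTr C 0 (Q := fun U v ρ => (BaseP C U → (Lt C U (sec (sec (ρ 6 s) (v 0)) (v 1)) ↔
      ∃ r' b', r'.1 ∈ omZ ∧ (r'.1 ∈ (v 0).1 ∨ (r' = v 0 ∧ b'.1 ∈ (v 1).1)) ∧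
      ¬ Rl N C.Ω U (sec (sec (ρ 6 s) r') b')))) (by intros; simp (disch := omega) only [updR_ne, upd_ne]) ?_
    exact (sod_basep C 0).imp (h3.iff h5)
  have h7 : SOD N κ (fun v ρ => ∀ r b, r.1 ∈ omZ → IsTree C.Ω (sec (sec (ρ 6 s) r) b) ∧
      BaseP C (sec (sec (ρ 6 s) r) b) ∧ ∀ U, Tr C U → (BaseP C U → (Lt C U (sec (sec (ρ 6 s) r) b) ↔
      ∃ r' b', r'.1 ∈ omZ ∧ (r'.1 ∈ r.1 ∨ (r' = r ∧ b'.1 ∈ b.1)) ∧
      ¬ Rl N C.Ω U (sec (sec (ρ 6 s) r') b')))) := by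
    refine SOD.all 0 (Q := fun r v ρ => ∀ b, r.1 ∈ omZ → IsTree C.Ω (sec (sec (ρ 6 s) r) b) ∧
      BaseP C (sec (sec (ρ 6 s) r) b) ∧ ∀ U, Tr C U → (BaseP C U → (Lt C U (sec (sec (ρ 6 s) r) b) ↔
      ∃ r' b', r'.1 ∈ omZ ∧ (r'.1 ∈ r.1 ∨ (r' = r ∧ b'.1 ∈ b.1)) ∧
      ¬ Rl N C.Ω U (sec (sec (ρ 6 s) r') b')))) (by intros; exact Iff.rfl) ?_
    refine SOD.all 1 (Q := fun b v ρ => (v 0).1 ∈ omZ → IsTree C.Ω (sec (sec (ρ 6 s) (v 0)) b) ∧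
      BaseP C (sec (sec (ρ 6 s) (v 0)) b) ∧ ∀ U, Tr C U → (BaseP C U → (Lt C U (sec (sec (ρ 6 s) (v 0)) b) ↔
      ∃ r' b', r'.1 ∈ omZ ∧ (r'.1 ∈ (v 0).1 ∨ (r' = v 0 ∧ b'.1 ∈ b.1)) ∧
      ¬ Rl N C.Ω U (sec (sec (ρ 6 s) r') b')))) (by intros; simp (disch := omega) only [updR_ne, upd_ne]) ?_
    exact (sod_om C.hκω 0).imp (h1.and (h2.and h6))
  refine h7.congr fun v ρ hρ => ?_
  constructor
  · intro h8
    exact ⟨hρ.1 _ _, h8⟩
  · intro h8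
    exact h8.2

theorem sod_codeR (C : Cd N κ) (n s x b : ℕ) :
    SOD N κ (fun v ρ => CodeR C n (ρ 6 s) (ρ 4 x) (fun j => v (b + j))) := by
  have h1 : ∀ c : ℕ, SOD N κ (fun v ρ => Adj C (ρ 4 (x + 1)) (sec (sec (ρ 6 s) (v (b + n))) (v c))) := fun c =>
    sec2 C s 0 (x + 2) (b + n) c (Q := fun X _ ρ => Adj C (ρ 4 (x + 1)) X)
      (by intros; simp (disch := omega) only [updR_ne, upd_ne])
      (by intros; simp (disch := omega) only [updR_ne, upd_ne]) (sod_adj C (x + 1) (x + 2))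
  have h2 : SOD N κ (fun v ρ => ∃ a, a.1 = natZ 0 ∧ Adj C (ρ 4 (x + 1)) (sec (sec (ρ 6 s) a) a)) :=
    SOD.ex (b + n) (Q := fun a v ρ => a.1 = natZ 0 ∧ Adj C (ρ 4 (x + 1)) (sec (sec (ρ 6 s) a) a))
      (by intros; exact Iff.rfl) ((sod_nat 0 _).and (h1 _))
  have h3 : ∀ j : Fin n, SOD N κ (fun v ρ => ∃ a, a.1 = natZ (j + 1) ∧
      Adj C (ρ 4 (x + 1)) (sec (sec (ρ 6 s) a) (v (b + j)))) := fun j =>
    SOD.ex (b + n) (Q := fun a v ρ => a.1 = natZ (j + 1) ∧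
      Adj C (ρ 4 (x + 1)) (sec (sec (ρ 6 s) a) (v (b + j))))
      (by intros; have := j.2; simp (disch := omega) only [updR_ne, upd_ne]) ((sod_nat _ _).and (h1 _))
  refine exTr C (x + 1) (Q := fun Z v ρ => Vert C Z ∧ ¬ Conn C Z ∧ Adj C Z (ρ 4 x) ∧
    (∃ a, a.1 = natZ 0 ∧ Adj C Z (sec (sec (ρ 6 s) a) a)) ∧
    ∀ j : Fin n, ∃ a, a.1 = natZ (j + 1) ∧ Adj C Z (sec (sec (ρ 6 s) a) (v (b + j))))
    (by intros; simp (disch := omega) only [updR_ne, upd_ne]) ?_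
  exact (sod_vert C _).and ((sod_conn C _).not.and ((sod_adj C _ _).and (h2.and (SOD.allFin h3))))

theorem sod_code (C : Cd N κ) (n x e : ℕ) : SOD N κ (fun v ρ => Code C n (ρ 4 x) (ρ n e)) := by
  have h1 : SOD N κ (fun v ρ => ∀ w : Fin n → El κ.toZFSet, w ∈ ρ n e ↔ CodeR C n (ρ 6 (e + 1)) (ρ 4 x) w) :=
    SOD.allW n 0 (Q := fun w v ρ => (w ∈ ρ n e ↔ CodeR C n (ρ 6 (e + 1)) (ρ 4 x) w))
      (by intros; exact Iff.rfl) ((SOD.app n e _).iff (sod_codeR C n _ _ 0))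
  have h2 : SOD N κ (fun v ρ => ∃ S, InN N S ∧ (Enum C S ∧ ∀ w : Fin n → El κ.toZFSet, w ∈ ρ n e ↔
      CodeR C n S (ρ 4 x) w)) :=
    SOD.exR 6 (e + 1) (by omega) (Q := fun S v ρ => Enum C S ∧ ∀ w : Fin n → El κ.toZFSet, w ∈ ρ n e ↔
      CodeR C n S (ρ 4 x) w) (by intros; simp (disch := omega) only [updR_ne, upd_ne])
      ((sod_enum C _).and h1)
  refine h2.congr fun v ρ hρ => ?_
  constructor
  · rintro ⟨S, -, h3⟩
    exact ⟨S, h3⟩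
  · rintro ⟨S, h3⟩
    exact ⟨S, h3.1.1, h3⟩

theorem sod_wo (C : Cd N κ) (n i j : ℕ) : SOD N κ (fun v ρ => Wo C n (ρ n (i + 1)) (ρ n (j + 1))) := by
  refine exTr C (i + j + 2) (Q := fun X v ρ => BaseP C X ∧ Code C n X (ρ n (i + 1)) ∧
    ∀ Y, Tr C Y → BaseP C Y → Code C n Y (ρ n (j + 1)) → ¬ Lt C Y X)
    (by intros; simp (disch := omega) only [updR_ne, upd_ne]) ?_
  refine (sod_basep C _).and ((sod_code C n _ _).and ?_)
  refine allTr C (i + j + 3) (Q := fun Y v ρ => BaseP C Y → Code C n Y (ρ n (j + 1)) →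
    ¬ Lt C Y (ρ 4 (i + j + 2))) (by intros; simp (disch := omega) only [updR_ne, upd_ne]) ?_
  exact (sod_basep C _).imp ((sod_code C n _ _).imp (sod_lt C _ _).not)

end Pool.Agent.H17.CF.D
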