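import Pool.Agent.H17.CF.D.Wom
import Pool.Agent.H17.CF.D.SodC

/-!
# The decoding part: definable well-orderings of the relations on `κ`
-/

set_option autoImplicit false
set_option linter.unusedVariables false
set_option linter.unusedSectionVars false
set_option linter.unusedSimpArgs false

open Pool.Agent.H17.Omega Pool.Agent.H17.Omega.CTM Pool.Agent.H52.GC Pool.Agent.H7.IG

namespace Pool.Agent.H17.CF.D

variable {N : Set ZFSet.{0}} {κ : Ordinal.{0}}

/-- The decoding part. -/
theorem D_main (C : Cd N κ) : Nonempty (WoAt N κ) :=
  ⟨{ W := Wo C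
     total := fun n X Y hX hY => wo_total hX hY
     anti := fun n X Y hX hY h h' => wo_anti hX hY h h'
     min := fun n Q hQ hne => wo_min Q hQ hne
     def' := fun n i j => sod_wo C n i j }⟩

end Pool.Agent.H17.CF.D
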