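import Pool.Agent.H17.CF.D.Card
import Pool.Agent.H7.IG.Tk2
import Pool.Agent.H7.IG.Tk4

/-!
# Job CFD-1b: `κ · ω ≤ κ` in `N`

Status: complete (helper69).

TOOLS. `Cvr N Y X`, `Fn`, `ap` (H7/IG/Defs); H7/IG/Tk4: `cvr_of_dfn`, `cvr_onto`, `ctb_iff_cvr'`. H7/IG/Tk2: `exists_rec`
(definable recursion on an ordinal), `FnD`, `rs`. H52/GC/Cnt: `exists_pairing` (enumeration of `ω × ω` in `N`; `mem_seqZ`, `pair_mem_seqZ`),
`toZFSet_inj`. Definability with the `PD`/`Df` calculus of H17/CF/PD.lean or the block in the header of H7/IG/UD.lean.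

PROOFS.
* `exists_ht`: `exists_rec` on `κ` with `Φ g v := (dom g has a last element β and v = g β ∪ {g β}) or (dom g has no last
  element and v = ∅)`, that is `(∃ β w, (β, w) ∈ g, v = w ∪ {w}, and all β', w' with (β', w') ∈ g satisfy β' = β or β' ∈ β) or (no such β, w and
  v = ∅)`; `dom g = α` for `FnD g α`; unicity is clear. The values are natural numbers by induction on `α` (`α` is `0`, a limit, or `β + 1`).
* `cvr_mulom`: every ordinal `y < κ` is `η + n` with `η` zero or a limit (its limit part) and `n = h(y)`, where `h` is the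
  function of `exists_ht`. Let `e ∈ N` be an enumeration of `ω × ω` (`exists_pairing`). Put `F y x := ∃ ξ j, x = (ξ, j)`, `ξ` and `y` have the
  same limit part (for all `l ∈ κ` with `h(l) = 0`: `l ≤ ξ` iff `l ≤ y`) and `e(h(y)) = (h(ξ), j)`. Single valued: `y` determines
  `n = h(y)`, `(i, j) = e(n)`, and `ξ` is the only ordinal with the limit part of `y` and `h(ξ) = i` (two ordinals `ξ < ξ'` with the same
  limit part satisfy `h(ξ) < h(ξ')`: induction on `ξ'`, which is not `0` or a limit). Onto: given `(ξ, j)`, `ξ = η + i`, choose `n`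
  with `e(n) = (i, j)`, `y = η + n < κ` (`hs`, induction on `n`).
-/

set_option autoImplicit false
set_option linter.unusedVariables false
set_option linter.unusedSectionVars false
set_option linter.unusedSimpArgs false

open Pool.Agent.H17.Omega Pool.Agent.H17.Omega.CTM Pool.Agent.H52.GC Pool.Agent.H7.IG

namespace Pool.Agent.H17.CF.D

variable {N : Set ZFSet.{0}} {κ : Ordinal.{0}}

/-- `(β, w)` is the last element of the function `g` -/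
def MulLast (g β w : N) : Prop :=
  ZFSet.pair β.1 w.1 ∈ g.1 ∧ ∀ β' w' : N, ZFSet.pair β'.1 w'.1 ∈ g.1 → β'.1 = β.1 ∨ β'.1 ∈ β.1

theorem mul_uniq {g β w β' w' : N} {A : ZFSet.{0}} (hg : FnD g.1 A) (h : MulLast g β w)
    (h' : MulLast g β' w') : β = β' ∧ w = w' := by
  have e : β = β' := by
    rcases h.2 β' w' h'.1 with e | e
    · exact Subtype.ext e.symm
    · rcases h'.2 β w h.1 with e' | e'
      · exact Subtype.ext e'
      · exact absurd e' (ZFSet.mem_asymm e)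
  subst e
  exact ⟨rfl, Subtype.ext (hg.uni _ _ _ h.1 h'.1)⟩

/-- The height above the limit part. -/
theorem exists_ht (hN : CTM N) (hκN : κ.toZFSet ∈ N) : ∃ h ∈ N, Fn h κ.toZFSet omZ ∧
    (∀ α < κ, (∀ β < α, β + 1 < α) → ap h α.toZFSet = natZ 0) ∧
    ∀ α, α + 1 < κ → ∀ n, ap h α.toZFSet = natZ n → ap h (α + 1).toZFSet = natZ (n + 1) := by
  have hoN : ∀ α < κ, α.toZFSet ∈ N := fun α hα =>
    hN.mem_of_mem hκN (Ordinal.toZFSet_mem_toZFSet_iff.2 hα)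
  let Φ : N → N → Prop := fun g v => (∃ β w : N, MulLast g β w ∧ v.1 = insert w.1 w.1) ∨
    ((¬ ∃ β w : N, MulLast g β w) ∧ v.1 = ∅)
  have hΦ : hN.Dfn (fun v : Fin 2 → N => Φ (v 0) (v 1)) := by
    show hN.Dfn (fun v : Fin 2 → N => (∃ β w : N, (ZFSet.pair β.1 w.1 ∈ (v 0).1 ∧ ∀ β' w' : N,
      ZFSet.pair β'.1 w'.1 ∈ (v 0).1 → β'.1 = β.1 ∨ β'.1 ∈ β.1) ∧ (v 1).1 = insert w.1 w.1) ∨
      ((¬ ∃ β w : N, (ZFSet.pair β.1 w.1 ∈ (v 0).1 ∧ ∀ β' w' : N,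
      ZFSet.pair β'.1 w'.1 ∈ (v 0).1 → β'.1 = β.1 ∨ β'.1 ∈ β.1)) ∧ (v 1).1 = ∅))
    (repeat' first
      | exact DT.var _ | exact DT.last | exact DT.const _ | assumption
      | refine Dfn.pairMem ?_ ?_ ?_ | refine Dfn.isPair ?_ ?_ ?_ | refine Dfn.mem ?_ ?_
      | refine Dfn.isInsert ?_ ?_ ?_ | refine Dfn.isEmpty ?_
      | refine Dfn.eqv ?_ ?_ | refine Dfn.eq ?_ ?_
      | refine Dfn.and ?_ ?_ | refine Dfn.or ?_ ?_ | refine Dfn.iff ?_ ?_ | refine Dfn.not ?_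
      | refine Dfn.imp ?_ ?_ | refine Dfn.all ?_ | refine Dfn.ex ?_)
  obtain ⟨G, hG, hGr⟩ := exists_rec hN hΦ hκN (by
    intro α hα g hg _
    by_cases h : ∃ β w : N, MulLast g β w
    · obtain ⟨β, w, h1⟩ := h
      refine ⟨⟨insert w.1 w.1, hN.insert_mem w.2 w.2⟩, Or.inl ⟨β, w, h1, rfl⟩, ?_⟩
      rintro y' (⟨β', w', h2, h3⟩ | ⟨h2, -⟩)
      · obtain ⟨rfl, rfl⟩ := mul_uniq hg h1 h2
        exact Subtype.ext h3
      · exact absurd ⟨β, w, h1⟩ h2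
    · refine ⟨⟨∅, hN.empty_mem⟩, Or.inr ⟨h, rfl⟩, ?_⟩
      rintro y' (⟨β', w', h2, -⟩ | ⟨-, h3⟩)
      · exact absurd ⟨β', w', h2⟩ h
      · exact Subtype.ext h3)
  have hv : ∀ α < κ, ∃ y : N, ZFSet.pair α.toZFSet y.1 ∈ G.1 := by
    intro α hα
    obtain ⟨y, hy⟩ := hG.tot _ (Ordinal.toZFSet_mem_toZFSet_iff.2 hα)
    exact ⟨⟨y, (hN.of_pair_mem (hN.mem_of_mem G.2 hy)).2⟩, hy⟩
  have hsub : ∀ {β γ : Ordinal.{0}}, β ≤ γ → β.toZFSet ⊆ γ.toZFSet := by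
    intro β γ hβγ x hx
    obtain ⟨ξ, hξ, rfl⟩ := Ordinal.mem_toZFSet_iff.1 hx
    exact Ordinal.toZFSet_mem_toZFSet_iff.2 (hξ.trans_le hβγ)
  have h0 : ∀ α < κ, (∀ β < α, β + 1 < α) → ∀ y : N, ZFSet.pair α.toZFSet y.1 ∈ G.1 → y.1 = ∅ := by
    intro α hα hl y hy
    rcases hGr α hα ⟨rs G.1 α.toZFSet, rs_mem hN G.2 (hoN α hα)⟩ y rfl hy with
      ⟨β, w, ⟨h1, h2⟩, h3⟩ | ⟨-, h3⟩
    · exfalso
      obtain ⟨b, hb, hb'⟩ := Ordinal.mem_toZFSet_iff.1 (pair_mem_rs.1 h1).1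
      have hb1 := hl b hb
      obtain ⟨w', hw'⟩ := hv (b + 1) (hb1.trans hα)
      have h4 : (b + 1).toZFSet = β.1 ∨ (b + 1).toZFSet ∈ β.1 :=
        h2 ⟨(b + 1).toZFSet, hoN _ (hb1.trans hα)⟩ w'
          (pair_mem_rs.2 ⟨Ordinal.toZFSet_mem_toZFSet_iff.2 hb1, hw'⟩)
      rw [← hb', Ordinal.toZFSet_mem_toZFSet_iff, toZFSet_inj] at h4
      have h5 : b < b + 1 := lt_add_one b
      rcases h4 with h4 | h4
      · exact h5.ne' h4
      · exact absurd h4 h5.le.not_gt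
    · exact h3
  have h1 : ∀ α, α + 1 < κ → ∀ y y' : N, ZFSet.pair α.toZFSet y.1 ∈ G.1 →
      ZFSet.pair (α + 1).toZFSet y'.1 ∈ G.1 → y'.1 = insert y.1 y.1 := by
    intro α hα y y' hy hy'
    have hαα : α < α + 1 := lt_add_one α
    have hlast : MulLast (⟨rs G.1 (α + 1).toZFSet, rs_mem hN G.2 (hoN _ hα)⟩ : N)
        ⟨α.toZFSet, hoN _ (hαα.trans hα)⟩ y := by
      refine ⟨pair_mem_rs.2 ⟨Ordinal.toZFSet_mem_toZFSet_iff.2 hαα, hy⟩, fun β' w' h => ?_⟩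
      obtain ⟨b, hb, hb'⟩ := Ordinal.mem_toZFSet_iff.1 (pair_mem_rs.1 h).1
      rw [← hb', Ordinal.toZFSet_mem_toZFSet_iff, toZFSet_inj]
      exact (Order.lt_add_one_iff.1 hb).eq_or_lt
    rcases hGr (α + 1) hα ⟨rs G.1 (α + 1).toZFSet, rs_mem hN G.2 (hoN _ hα)⟩ y' rfl hy' with
      ⟨β, w, h2, h3⟩ | ⟨h2, -⟩
    · obtain ⟨-, rfl⟩ := mul_uniq (hG.rs (hsub hα.le)) hlast h2
      exact h3
    · exact absurd ⟨_, _, hlast⟩ h2
  have hnat : ∀ α : Ordinal.{0}, α < κ → ∀ y : N, ZFSet.pair α.toZFSet y.1 ∈ G.1 → ∃ n, y.1 = natZ n := by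
    intro α
    induction α using WellFoundedLT.induction with
    | ind α ih =>
      intro hα y hy
      by_cases hl : ∀ β < α, β + 1 < α
      · exact ⟨0, h0 α hα hl y hy⟩
      · push Not at hl
        obtain ⟨β, hβ, hβ'⟩ := hl
        have e : α = β + 1 := le_antisymm hβ' (Order.add_one_le_of_lt hβ)
        subst e
        obtain ⟨y₀, hy₀⟩ := hv β (hβ.trans hα)
        obtain ⟨n, hn⟩ := ih β hβ (hβ.trans hα) y₀ hy₀
        refine ⟨n + 1, ?_⟩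
        rw [h1 β hα y₀ y hy₀ hy, hn]
        rfl
  have hFn : Fn G.1 κ.toZFSet omZ := by
    refine ⟨?_, ?_, fun x _ y _ y' _ h2 h3 => hG.uni _ _ _ h2 h3⟩
    · intro z hz
      obtain ⟨x, hx, y, rfl⟩ := hG.sub z hz
      obtain ⟨a, ha, rfl⟩ := Ordinal.mem_toZFSet_iff.1 hx
      obtain ⟨n, hn⟩ := hnat a ha ⟨y, (hN.of_pair_mem (hN.mem_of_mem G.2 hz)).2⟩ hz
      have hn : y = natZ n := hn
      exact ⟨_, hx, y, hn ▸ natZ_mem_omZ n, rfl⟩
    · intro x hx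
      obtain ⟨a, ha, rfl⟩ := Ordinal.mem_toZFSet_iff.1 hx
      obtain ⟨y, hy⟩ := hv a ha
      obtain ⟨n, hn⟩ := hnat a ha y hy
      exact ⟨y.1, hn ▸ natZ_mem_omZ n, hy⟩
  refine ⟨G.1, G.2, hFn, ?_, ?_⟩
  · intro α hα hl
    obtain ⟨y, hy⟩ := hv α hα
    rw [hFn.ap_eq hy]
    exact h0 α hα hl y hy
  · intro α hα n hn
    obtain ⟨y, hy⟩ := hv α ((lt_add_one α).trans hα)
    obtain ⟨y', hy'⟩ := hv (α + 1) hα
    rw [hFn.ap_eq hy] at hn
    rw [hFn.ap_eq hy', h1 α hα y y' hy hy', hn]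
    rfl

/-- comparison with multiples of `ω` -/
theorem mul_le_iff (q q' : Ordinal.{0}) (m : ℕ) :
    Ordinal.omega0 * q' ≤ Ordinal.omega0 * q + (m : Ordinal.{0}) ↔ q' ≤ q := by
  rw [Ordinal.mul_le_iff_le_div Ordinal.omega0_ne_zero, Ordinal.mul_add_div _ Ordinal.omega0_ne_zero,
    Ordinal.div_eq_zero_of_lt (Ordinal.natCast_lt_omega0 m), add_zero]

theorem mul_lim (q : Ordinal.{0}) : ∀ β < Ordinal.omega0 * q, β + 1 < Ordinal.omega0 * q := by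
  intro β hβ
  have h1 : β / Ordinal.omega0 < q := by
    by_contra h
    push Not at h
    rw [← Ordinal.mul_le_iff_le_div Ordinal.omega0_ne_zero] at h
    exact absurd hβ h.not_gt
  obtain ⟨m, hm⟩ := Ordinal.lt_omega0.1 (Ordinal.mod_lt β Ordinal.omega0_ne_zero)
  have h2 := Ordinal.div_add_mod β Ordinal.omega0
  rw [hm] at h2
  by_contra h
  push Not at h
  rw [← h2, add_assoc, show ((m : Ordinal.{0}) + 1) = ((m + 1 : ℕ) : Ordinal.{0}) by push_cast; rfl,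
    mul_le_iff] at h
  exact absurd h1 h.not_gt

/-- the values of the height function -/
theorem mul_ht {h : ZFSet.{0}} (h0 : ∀ α < κ, (∀ β < α, β + 1 < α) → ap h α.toZFSet = natZ 0)
    (h1 : ∀ α, α + 1 < κ → ∀ n, ap h α.toZFSet = natZ n → ap h (α + 1).toZFSet = natZ (n + 1))
    (q : Ordinal.{0}) (m : ℕ) (hq : Ordinal.omega0 * q + (m : Ordinal.{0}) < κ) :
    ap h (Ordinal.omega0 * q + (m : Ordinal.{0})).toZFSet = natZ m := by
  induction m with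
  | zero =>
    rw [Nat.cast_zero, add_zero] at hq ⊢
    exact h0 _ hq (mul_lim q)
  | succ m ih =>
    have e : Ordinal.omega0 * q + ((m + 1 : ℕ) : Ordinal.{0}) =
        (Ordinal.omega0 * q + (m : Ordinal.{0})) + 1 := by
      rw [add_assoc]; push_cast; rfl
    rw [e] at hq ⊢
    exact h1 _ hq m (ih ((lt_add_one _).trans hq))

theorem mul_rep (α : Ordinal.{0}) : ∃ (q : Ordinal.{0}) (m : ℕ), α = Ordinal.omega0 * q + (m : Ordinal.{0}) := by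
  obtain ⟨m, hm⟩ := Ordinal.lt_omega0.1 (Ordinal.mod_lt α Ordinal.omega0_ne_zero)
  have h2 := Ordinal.div_add_mod α Ordinal.omega0
  rw [hm] at h2
  exact ⟨_, m, h2.symm⟩

theorem mul_lt (hs : ∀ α < κ, α + 1 < κ) {q : Ordinal.{0}} {m : ℕ}
    (hq : Ordinal.omega0 * q + (m : Ordinal.{0}) < κ) (n : ℕ) :
    Ordinal.omega0 * q + (n : Ordinal.{0}) < κ := by
  induction n with
  | zero =>
    rw [Nat.cast_zero, add_zero]
    exact le_self_add.trans_lt hq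
  | succ n ih =>
    have := hs _ ih
    rw [add_assoc] at this
    push_cast
    exact this

theorem cvr_mulom (hN : CTM N) (hκN : κ.toZFSet ∈ N) (hs : ∀ α < κ, α + 1 < κ) :
    Cvr N κ.toZFSet (ZFSet.prod κ.toZFSet omZ) := by
  obtain ⟨h, hhN, hFn, h0, h1⟩ := exists_ht hN hκN
  obtain ⟨g, hg, hgN⟩ := exists_pairing hN
  have hht := mul_ht h0 h1
  have hoN : ∀ α < κ, α.toZFSet ∈ N := fun α hα =>
    hN.mem_of_mem hκN (Ordinal.toZFSet_mem_toZFSet_iff.2 hα)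
  -- pairs in `h`
  have hpair : ∀ (q : Ordinal.{0}) (m : ℕ), Ordinal.omega0 * q + (m : Ordinal.{0}) < κ → ∀ y,
      ZFSet.pair (Ordinal.omega0 * q + (m : Ordinal.{0})).toZFSet y ∈ h ↔ y = natZ m := by
    intro q m hq y
    constructor
    · intro hy
      rw [← hFn.ap_eq hy, hht q m hq]
    · rintro rfl
      have h2 := (hFn.ap_mem (Ordinal.toZFSet_mem_toZFSet_iff.2 hq)).2
      rw [hht q m hq] at h2
      exact h2
  let K : N := ⟨κ.toZFSet, hκN⟩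
  let H : N := ⟨h, hhN⟩
  let E : N := ⟨_, hgN⟩
  let F : N → N → Prop := fun y x => ∃ ξ j n i q : N, x.1 = ZFSet.pair ξ.1 j.1 ∧ ξ.1 ∈ K.1 ∧
    (∀ l z : N, l.1 ∈ K.1 → z.1 = ∅ → ZFSet.pair l.1 z.1 ∈ H.1 →
      ((l.1 ∈ ξ.1 ∨ l.1 = ξ.1) ↔ (l.1 ∈ y.1 ∨ l.1 = y.1))) ∧
    ZFSet.pair y.1 n.1 ∈ H.1 ∧ ZFSet.pair ξ.1 i.1 ∈ H.1 ∧ q.1 = ZFSet.pair i.1 j.1 ∧ ZFSet.pair n.1 q.1 ∈ E.1
  have hF : hN.Dfn (fun v : Fin 2 → N => F (v 0) (v 1)) := by
    show hN.Dfn (fun v : Fin 2 → N => ∃ ξ j n i q : N, (v 1).1 = ZFSet.pair ξ.1 j.1 ∧ ξ.1 ∈ K.1 ∧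
    (∀ l z : N, l.1 ∈ K.1 → z.1 = ∅ → ZFSet.pair l.1 z.1 ∈ H.1 →
      ((l.1 ∈ ξ.1 ∨ l.1 = ξ.1) ↔ (l.1 ∈ (v 0).1 ∨ l.1 = (v 0).1))) ∧
    ZFSet.pair (v 0).1 n.1 ∈ H.1 ∧ ZFSet.pair ξ.1 i.1 ∈ H.1 ∧ q.1 = ZFSet.pair i.1 j.1 ∧
    ZFSet.pair n.1 q.1 ∈ E.1)
    (repeat' first
      | exact DT.var _ | exact DT.last | exact DT.const _ | assumption
      | refine Dfn.pairMem ?_ ?_ ?_ | refine Dfn.isPair ?_ ?_ ?_ | refine Dfn.mem ?_ ?_
      | refine Dfn.isInsert ?_ ?_ ?_ | refine Dfn.isEmpty ?_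
      | refine Dfn.eqv ?_ ?_ | refine Dfn.eq ?_ ?_
      | refine Dfn.and ?_ ?_ | refine Dfn.or ?_ ?_ | refine Dfn.iff ?_ ?_ | refine Dfn.not ?_
      | refine Dfn.imp ?_ ?_ | refine Dfn.all ?_ | refine Dfn.ex ?_)
  have hle : ∀ α β : Ordinal.{0}, (α.toZFSet ∈ β.toZFSet ∨ α.toZFSet = β.toZFSet) ↔ α ≤ β := by
    intro α β
    rw [Ordinal.toZFSet_mem_toZFSet_iff, toZFSet_inj]
    exact le_iff_lt_or_eq.symm
  refine cvr_of_dfn hN hF hκN (hN.prod_mem hκN hN.omZ_mem) ?_ ?_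
  · -- single valued
    have key : ∀ (q : Ordinal.{0}) (m : ℕ), Ordinal.omega0 * q + (m : Ordinal.{0}) < κ → ∀ y x : N,
        y.1 = (Ordinal.omega0 * q + (m : Ordinal.{0})).toZFSet → F y x →
        x.1 = ZFSet.pair (Ordinal.omega0 * q + ((g m).1 : Ordinal.{0})).toZFSet (natZ (g m).2) := by
      rintro q m hq y x hy ⟨ξ, j, n, i, p, hx, hξ, hl, hn, hi, hp, hE⟩
      obtain ⟨a, ha, ha'⟩ := Ordinal.mem_toZFSet_iff.1 hξ
      obtain ⟨q₁, m₁, rfl⟩ := mul_rep a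
      have hn : ZFSet.pair y.1 n.1 ∈ h := hn
      have hi : ZFSet.pair ξ.1 i.1 ∈ h := hi
      have hE : ZFSet.pair n.1 p.1 ∈ seqZ (fun n => ZFSet.pair (natZ (g n).1) (natZ (g n).2)) := hE
      rw [hy, hpair q m hq] at hn
      rw [← ha', hpair q₁ m₁ ha] at hi
      rw [hn, pair_mem_seqZ, hp, ZFSet.pair_inj, hi, natZ_inj] at hE
      have hqq : q₁ = q := by
        have hl' : ∀ q' : Ordinal.{0}, Ordinal.omega0 * q' < κ →
            (Ordinal.omega0 * q' ≤ Ordinal.omega0 * q₁ + (m₁ : Ordinal.{0}) ↔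
              Ordinal.omega0 * q' ≤ Ordinal.omega0 * q + (m : Ordinal.{0})) := by
          intro q' hq'
          have h2 := hl ⟨(Ordinal.omega0 * q').toZFSet, hoN _ hq'⟩ ⟨∅, hN.empty_mem⟩
            (Ordinal.toZFSet_mem_toZFSet_iff.2 hq') rfl (by
              have h3 := (hpair q' 0 (by rw [Nat.cast_zero, add_zero]; exact hq') ∅).2 rfl
              rw [Nat.cast_zero, add_zero] at h3
              exact h3)
          rw [hy, ← ha'] at h2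
          rw [← hle, ← hle]
          exact h2
        simp only [mul_le_iff] at hl'
        apply le_antisymm
        · exact (hl' q₁ (le_self_add.trans_lt ha)).1 le_rfl
        · exact (hl' q (le_self_add.trans_lt hq)).2 le_rfl
      rw [hx, ← ha', hE.2, hqq, hE.1]
    intro y hy x x' hx hx'
    obtain ⟨a, ha, ha'⟩ := Ordinal.mem_toZFSet_iff.1 hy
    obtain ⟨q, m, rfl⟩ := mul_rep a
    exact Subtype.ext ((key q m ha y x ha'.symm hx).trans (key q m ha y x' ha'.symm hx').symm)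
  · -- onto
    intro x hx
    obtain ⟨ξ, hξ, j, hj, hxe⟩ := ZFSet.mem_prod.1 hx
    obtain ⟨a, ha, rfl⟩ := Ordinal.mem_toZFSet_iff.1 hξ
    obtain ⟨q, m, rfl⟩ := mul_rep a
    obtain ⟨k, rfl⟩ := mem_omZ.1 hj
    obtain ⟨n, hn⟩ := hg (m, k)
    have hb := mul_lt hs ha n
    refine ⟨⟨(Ordinal.omega0 * q + (n : Ordinal.{0})).toZFSet, hoN _ hb⟩,
      Ordinal.toZFSet_mem_toZFSet_iff.2 hb, ⟨_, hoN _ ha⟩, ⟨natZ k, hN.natZ_mem_N k⟩,
      ⟨natZ n, hN.natZ_mem_N n⟩, ⟨natZ m, hN.natZ_mem_N m⟩,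
      ⟨ZFSet.pair (natZ m) (natZ k), hN.pair_mem (hN.natZ_mem_N m) (hN.natZ_mem_N k)⟩, hxe, hξ, ?_,
      (hpair q n hb _).2 rfl, (hpair q m ha _).2 rfl, rfl, ?_⟩
    · rintro l z hl hz hlz
      obtain ⟨b, hb', hb''⟩ := Ordinal.mem_toZFSet_iff.1 hl
      obtain ⟨q', m', rfl⟩ := mul_rep b
      have hlz : ZFSet.pair l.1 z.1 ∈ h := hlz
      rw [← hb'', hpair q' m' hb', hz] at hlz
      have hm' : m' = 0 := (natZ_inj.1 (show natZ 0 = natZ m' from hlz)).symm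
      subst hm'
      rw [← hb'']
      show (Ordinal.toZFSet _ ∈ Ordinal.toZFSet _ ∨ Ordinal.toZFSet _ = Ordinal.toZFSet _) ↔
        (Ordinal.toZFSet _ ∈ Ordinal.toZFSet _ ∨ Ordinal.toZFSet _ = Ordinal.toZFSet _)
      rw [hle, hle, Nat.cast_zero, add_zero, mul_le_iff, mul_le_iff]
    · show ZFSet.pair (natZ n) (ZFSet.pair (natZ m) (natZ k)) ∈ seqZ _
      rw [pair_mem_seqZ, hn]

end Pool.Agent.H17.CF.D
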