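import Pool.Agent.H17.CF.D.Bas

/-!
# Job CFD-6: a small set of base vertices is not equivalent to a sequence of pairwise different ones

PROOF of `no_inj`. It suffices (`C.hκ (μ + 1)`, `kap_succ`) to show `Cvr N (μ + 1) κ`, by `cvr_of_dfn` for
`F y x := ¬ Rl N Ω (T (y, 0)) (sec S x)` (for `y ∈ μ + 1`, `x ∈ κ`; as a predicate on `N` it is written with the codes `z` of the
family `T` (`C.T_mem`) and `s` of `S` (`hS.1`): `tup w ∈ T (y, 0)` is `((y, 0), tup w) ∈ z`, `tup w ∈ sec S x` is `(x, tup w) ∈ s`, that is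
`tup (Fin.cons x w) ∈ s`). By `rl_base`, `F y x` iff `y = ν x`; so `F` is single valued (`ν` is injective by `hd`) and every `a ∈ κ` is reached.
`dfn_rl`: definability of `Rl`: for definable `P`, `Q` (the two trees) the statement `∃ G : N, ...` obtained from `Rl` by replacing
`w ∈ X` by `P`, `w ∈ Y` by `Q`, `![a, m, m', n] ∈ G` by `tup ![a, m, m', n] ∈ G` (`PD_tup`; or write the tuple as nested pairs) and the quantifiers
over `El κ.toZFSet` by quantifiers over `N` bounded by `κ.toZFSet`; `Lvl Ω a` is `a ∈ Ω ∧ ω ⊆ a`. All with `Df.*`, `Dfn.all`, `Dfn.ex`, ...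
(the statement of `dfn_rl` is a proposal: it may be changed, only `no_inj` is used by others).
-/

set_option autoImplicit false
set_option linter.unusedVariables false
set_option linter.unusedSectionVars false
set_option linter.unusedSimpArgs false

open Pool.Agent.H17.Omega Pool.Agent.H17.Omega.CTM Pool.Agent.H52.GC Pool.Agent.H7.IG

namespace Pool.Agent.H17.CF.D

variable {N : Set ZFSet.{0}} {κ : Ordinal.{0}} {C : Cd N κ}

theorem NoInj_tup4 (a b c d : ZFSet.{0}) :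
    tup ![a, b, c, d] = ZFSet.pair a (ZFSet.pair b (ZFSet.pair c (ZFSet.pair d ∅))) := by
  simp [tup, tupL, List.ofFn_succ]

theorem NoInj_subst5 {hN : CTM N} {n : ℕ} {P : (Fin 5 → N) → Prop} (hP : hN.Dfn P)
    {t0 t1 t2 t3 t4 : (Fin n → N) → N} (h0 : hN.DT t0) (h1 : hN.DT t1) (h2 : hN.DT t2) (h3 : hN.DT t3)
    (h4 : hN.DT t4) : hN.Dfn (fun v => P ![t0 v, t1 v, t2 v, t3 v, t4 v]) := by
  have h5 := substC (n := n) hP (t := ![t0, t1, t2, t3, t4]) (fun i => by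
    fin_cases i
    · exact h0
    · exact h1
    · exact h2
    · exact h3
    · exact h4)
  refine h5.congr fun v => ?_
  have : (fun i => (![t0, t1, t2, t3, t4] : Fin 5 → (Fin n → N) → N) i v) =
      ![t0 v, t1 v, t2 v, t3 v, t4 v] := by
    funext i
    fin_cases i <;> rfl
  rw [this]

theorem NoInj_cons (v : N) (hN : CTM N) {A : ZFSet.{0}} (hA : A ∈ N) (a b c d : El A) :
    (Fin.cons v (fun i => up hN hA ((![a, b, c, d] : Fin 4 → El A) i)) : Fin 5 → N) =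
      ![v, up hN hA a, up hN hA b, up hN hA c, up hN hA d] := by
  funext i
  fin_cases i <;> rfl

theorem NoInj_val {A : ZFSet.{0}} (a b c d : El A) :
    (fun i => ((![a, b, c, d] : Fin 4 → El A) i).1) = ![a.1, b.1, c.1, d.1] := by
  funext i
  fin_cases i <;> rfl

/-- Families of trees with definable membership have a definable relation `Rl`. -/
theorem dfn_rl (C : Cd N κ) {X Y : N → Re κ 4} {P Q : (Fin 5 → N) → Prop} (hP : C.hN.Dfn P) (hQ : C.hN.Dfn Q)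
    (hX : ∀ (v : N) (w : Fin 4 → El κ.toZFSet), w ∈ X v ↔ P (Fin.cons v fun i => up C.hN C.hκN (w i)))
    (hY : ∀ (v : N) (w : Fin 4 → El κ.toZFSet), w ∈ Y v ↔ Q (Fin.cons v fun i => up C.hN C.hκN (w i))) :
    C.hN.Dfn (fun v : Fin 2 → N => Rl N C.Ω (X (v 0)) (Y (v 1))) := by
  have hΩN : C.Ω.toZFSet ∈ N := by
    rcases lt_or_eq_of_le C.hΩκ with h | h
    · exact C.hN.mem_of_mem C.hκN (Ordinal.toZFSet_mem_toZFSet_iff.2 h)
    · rw [h]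
      exact C.hκN
  have homN : omZ ∈ N := C.hN.omZ_mem
  have heN : (∅ : ZFSet.{0}) ∈ N := C.hN.empty_mem
  have hκN := C.hκN
  have h1 : C.hN.Dfn (fun v : Fin 2 → N => ∃ g : N,
      (∀ a m m' : N, a.1 ∈ κ.toZFSet → a.1 ∈ C.Ω.toZFSet → omZ ⊆ a.1 → m.1 ∈ omZ → m'.1 ∈ omZ →
        m.1 ∈ κ.toZFSet → m'.1 ∈ κ.toZFSet →
        ∃ n : N, n.1 ∈ κ.toZFSet ∧ n.1 ∈ omZ ∧
          ZFSet.pair a.1 (ZFSet.pair m.1 (ZFSet.pair m'.1 (ZFSet.pair n.1 ∅))) ∈ g.1) ∧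
      ∀ a b m m' k k' n : N, a.1 ∈ κ.toZFSet → b.1 ∈ κ.toZFSet → m.1 ∈ κ.toZFSet → m'.1 ∈ κ.toZFSet →
        k.1 ∈ κ.toZFSet → k'.1 ∈ κ.toZFSet → n.1 ∈ κ.toZFSet →
        ZFSet.pair a.1 (ZFSet.pair m.1 (ZFSet.pair m'.1 (ZFSet.pair n.1 ∅))) ∈ g.1 →
        ZFSet.pair b.1 (ZFSet.pair k.1 (ZFSet.pair k'.1 (ZFSet.pair n.1 ∅))) ∈ g.1 →
        P ![v 0, a, b, k, m] → Q ![v 1, a, b, k', m'] → False) := by
    (repeat' first
      | exact DT.var _ | exact DT.last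
      | exact PD.var _ | exact PD.const ‹_› | refine PD.pair ?_ ?_
      | refine NoInj_subst5 hP ?_ ?_ ?_ ?_ ?_ | refine NoInj_subst5 hQ ?_ ?_ ?_ ?_ ?_
      | refine Df.eq ?_ ?_ | refine Df.mem ?_ ?_ | refine Df.sub ?_ ?_
      | refine Dfn.and ?_ ?_ | refine Dfn.or ?_ ?_ | refine Dfn.not ?_ | refine Dfn.imp ?_ ?_
      | refine Dfn.all ?_ | refine Dfn.ex ?_)
  refine h1.congr fun v => ?_
  have up_eq : ∀ (a : N) (ha : a.1 ∈ κ.toZFSet), up C.hN C.hκN ⟨a.1, ha⟩ = a := fun a ha => rfl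
  constructor
  · rintro ⟨g, h2, h3⟩
    refine ⟨{w | tup (fun i => (w i).1) ∈ g.1}, ⟨g.1, g.2, fun w => Iff.rfl⟩, ?_, ?_⟩
    · intro a m m' ha hm hm'
      obtain ⟨n, h4, h5, h6⟩ := h2 (up C.hN C.hκN a) (up C.hN C.hκN m) (up C.hN C.hκN m') a.2 ha.1 ha.2 hm hm' m.2 m'.2
      refine ⟨⟨n.1, h4⟩, h5, ?_⟩
      show tup _ ∈ g.1
      rw [NoInj_val, NoInj_tup4]
      exact h6
    · intro a b m m' k k' n h4 h5 h6 h7
      have h4 : tup _ ∈ g.1 := h4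
      have h5 : tup _ ∈ g.1 := h5
      rw [NoInj_val, NoInj_tup4] at h4 h5
      rw [hX, NoInj_cons] at h6
      rw [hY, NoInj_cons] at h7
      exact h3 (up C.hN C.hκN a) (up C.hN C.hκN b) (up C.hN C.hκN m) (up C.hN C.hκN m') (up C.hN C.hκN k)
        (up C.hN C.hκN k') (up C.hN C.hκN n) a.2 b.2 m.2 m'.2 k.2 k'.2 n.2 h4 h5 h6 h7
  · rintro ⟨G, ⟨g, hg, hg'⟩, h2, h3⟩
    refine ⟨⟨g, hg⟩, ?_, ?_⟩
    · intro a m m' haκ ha ha' hm hm' hmκ hm'κ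
      obtain ⟨n, h4, h5⟩ := h2 ⟨a.1, haκ⟩ ⟨m.1, hmκ⟩ ⟨m'.1, hm'κ⟩ ⟨ha, ha'⟩ hm hm'
      refine ⟨up C.hN C.hκN n, n.2, h4, ?_⟩
      rw [hg', NoInj_val, NoInj_tup4] at h5
      exact h5
    · intro a b m m' k k' n ha hb hm hm' hk hk' hn h4 h5 h6 h7
      refine h3 ⟨a.1, ha⟩ ⟨b.1, hb⟩ ⟨m.1, hm⟩ ⟨m'.1, hm'⟩ ⟨k.1, hk⟩ ⟨k'.1, hk'⟩ ⟨n.1, hn⟩ ?_ ?_ ?_ ?_
      · rw [hg', NoInj_val, NoInj_tup4]
        exact h4
      · rw [hg', NoInj_val, NoInj_tup4]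
        exact h5
      · rw [hX, NoInj_cons]
        exact h6
      · rw [hY, NoInj_cons]
        exact h7

theorem no_inj {μ : Ordinal.{0}} (hμ : μ < κ) {S : Re κ 5} (hS : Seq C S) (ν : El κ.toZFSet → Ordinal.{0})
    (h : ∀ a, ν a ≤ μ ∧ IsV C (sec S a) (ν a, 0)) (hd : ∀ a b, a ≠ b → ν a ≠ ν b) : False := by
  have hμ1 : μ + 1 < κ := kap_succ C hμ
  have hμ1N : (μ + 1).toZFSet ∈ N := C.hN.mem_of_mem C.hκN (Ordinal.toZFSet_mem_toZFSet_iff.2 hμ1)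
  obtain ⟨z, hz, hz'⟩ := C.T_mem
  obtain ⟨s, hs, hs'⟩ := hS.1
  let X : N → Re κ 4 := fun y => {w | ZFSet.pair (ZFSet.pair y.1 (natZ 0)) (tup (fun i => (w i).1)) ∈ z}
  let Y : N → Re κ 4 := fun x => {w | ZFSet.pair x.1 (tup (fun i => (w i).1)) ∈ s}
  have hX : ∀ y : N, ∀ η : Ordinal.{0}, η < C.lam → y.1 = η.toZFSet → X y = C.T (η, 0) := by
    intro y η hη hy
    ext w
    rw [hz' η 0 w (C.act3 η hη 0 (by norm_num)), ← hy]
    exact Iff.rfl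
  have hY : ∀ (x : N) (hx : x.1 ∈ κ.toZFSet), Y x = sec S ⟨x.1, hx⟩ := by
    intro x hx
    ext w
    show _ ↔ _ ∈ S
    rw [hs']
    have : (fun i => ((Fin.cons (⟨x.1, hx⟩ : El κ.toZFSet) w : Fin 5 → El κ.toZFSet) i).1) =
        (Fin.cons x.1 (fun i => (w i).1) : Fin 5 → ZFSet.{0}) := by
      funext i
      refine Fin.cases ?_ (fun j => ?_) i <;> simp
    rw [this, tup_cons]
    exact Iff.rfl
  have h0N : natZ 0 ∈ N := C.hN.natZ_mem_N _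
  have hF : C.hN.Dfn (fun v : Fin 2 → N => Rl N C.Ω (X (v 0)) (Y (v 1))) := by
    refine dfn_rl C (P := fun v => ZFSet.pair (ZFSet.pair (v 0).1 (natZ 0))
      (tup (fun i : Fin 4 => (v i.succ).1)) ∈ z) (Q := fun v => ZFSet.pair (v 0).1
      (tup (fun i : Fin 4 => (v i.succ).1)) ∈ s) ?_ ?_ ?_ ?_
    · exact Df.mem (PD.pair (PD.pair (PD.var _) (PD.const h0N)) (PD_tup fun i => PD.var _)) (PD.const hz)
    · exact Df.mem (PD.pair (PD.var _) (PD_tup fun i => PD.var _)) (PD.const hs)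
    · intro v w
      exact Iff.rfl
    · intro v w
      exact Iff.rfl
  have hmem : ∀ y : N, y.1 ∈ (μ + 1).toZFSet → ∃ η, η < C.lam ∧ y.1 = η.toZFSet := by
    intro y hy
    obtain ⟨η, hη, h1⟩ := Ordinal.mem_toZFSet_iff.1 hy
    exact ⟨η, (hη.trans hμ1).trans C.hlamκ, h1.symm⟩
  have key : ∀ (y x : N) (η : Ordinal.{0}), η < C.lam → y.1 = η.toZFSet → ∀ hx : x.1 ∈ κ.toZFSet,
      (¬ Rl N C.Ω (X y) (Y x) ↔ η = ν ⟨x.1, hx⟩) := by
    intro y x η hη hy hx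
    rw [hX y η hη hy, hY x hx, rl_base (tr_T (C.act3 η hη 0 (by norm_num))) (hS.tr _)
      (isV_T (C.act3 η hη 0 (by norm_num))) (h ⟨x.1, hx⟩).2, not_not]
  refine C.hκ (μ + 1) hμ1 ?_
  refine cvr_of_dfn C.hN (F := fun y x => x.1 ∈ κ.toZFSet ∧ ¬ Rl N C.Ω (X y) (Y x)) ?_ hμ1N C.hκN ?_ ?_
  · exact Dfn.and (Df.mem (PD.var _) (PD.const C.hκN)) (Dfn.not hF)
  · rintro y hy x x' ⟨hx, h1⟩ ⟨hx', h2⟩
    obtain ⟨η, hη, hyη⟩ := hmem y hy
    have h3 := (key y x η hη hyη hx).1 h1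
    have h4 := (key y x' η hη hyη hx').1 h2
    by_contra hne
    refine hd ⟨x.1, hx⟩ ⟨x'.1, hx'⟩ (fun h5 => hne (Subtype.ext
      (congrArg (fun t : El κ.toZFSet => t.1) h5))) ?_
    rw [← h3, ← h4]
  · intro x hx
    have h1 := h ⟨x.1, hx⟩
    have h2 : ν ⟨x.1, hx⟩ < μ + 1 := Order.lt_add_one_iff.2 h1.1
    have h3 : (ν ⟨x.1, hx⟩).toZFSet ∈ (μ + 1).toZFSet := Ordinal.toZFSet_mem_toZFSet_iff.2 h2
    exact ⟨⟨_, C.hN.mem_of_mem hμ1N h3⟩, h3, hx, (key _ x _ h1.2.lt rfl hx).2 rfl⟩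

end Pool.Agent.H17.CF.D
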