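import Pool.Agent.H17.CF.D.Card

/-!
# Job CFD-3a: cliques and bounds

PROOFS.
* `cl_sub`: `C.cl_iff`; subsets of `{x, y}`, `{x}` with `x, y ∈ Act` (`C.ed_iff`). `ed_ne`: cases of `C.ed_iff`: for `x.2 = 1, 3` one has
  `y.2 = 0`; for `x.2 = 2` use `C.xr_lt`. `cl_two`: `C.cl_iff`.
* `bdd_seq`: `C.bdd S` gives `α`; for `β ≥ α`: `res c α ⊆ res c β ⊆ c`, `res c β ∈ Cl` (`cl_sub`), so `C.A_up`.
  `bdd_tr`: `bdd_seq` for `Seq.cst` and `sec_cst` (take `a` any element of `κ`, `0 < κ`).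
* `exists_up`: `C.bk2`, `C.act3`, `C.ed_iff`. `ed_one`: `C.ed_iff`, `C.act3`.
* `exists_edge`: `C.A_mul (T x) (T y)` (`C.ed_iff`: both rows are active; `isV_T`, `cl_two`).
* `rl_iff`: `C.A_R`.
-/

set_option autoImplicit false
set_option linter.unusedVariables false
set_option linter.unusedSectionVars false
set_option linter.unusedSimpArgs false

open Pool.Agent.H17.Omega Pool.Agent.H17.Omega.CTM Pool.Agent.H52.GC Pool.Agent.H7.IG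

namespace Pool.Agent.H17.CF.D

variable {N : Set ZFSet.{0}} {κ : Ordinal.{0}} {C : Cd N κ}

theorem cl_sub {c c' : Set Row} (hc : c ∈ C.Cl) (h : c' ⊆ c) : c' ∈ C.Cl := by
  rcases (C.cl_iff c).1 hc with rfl | ⟨x, hx, rfl⟩ | ⟨x, y, hxy, rfl⟩
  · exact (C.cl_iff _).2 (Or.inl (Set.subset_empty_iff.1 h))
  · rcases Set.subset_singleton_iff_eq.1 h with h1 | h1
    · exact (C.cl_iff _).2 (Or.inl h1)
    · exact (C.cl_iff _).2 (Or.inr (Or.inl ⟨x, hx, h1⟩))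
  · obtain ⟨hx, hy, -⟩ := (C.ed_iff x y).1 hxy
    rcases Set.subset_pair_iff_eq.1 h with h1 | h1 | h1 | h1
    · exact (C.cl_iff _).2 (Or.inl h1)
    · exact (C.cl_iff _).2 (Or.inr (Or.inl ⟨x, hx, h1⟩))
    · exact (C.cl_iff _).2 (Or.inr (Or.inl ⟨y, hy, h1⟩))
    · exact (C.cl_iff _).2 (Or.inr (Or.inr ⟨x, y, hxy, h1⟩))

theorem ed_ne {x y : Row} (h : C.Ed x y) : x ≠ y := by
  rintro rfl
  obtain ⟨-, -, h1 | h1 | h1⟩ := (C.ed_iff _ _).1 h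
  · have := h1.1
    have := h1.2.1
    omega
  · exact lt_irrefl _ (C.xr_lt _ _ h1.2).1
  · have := h1.1
    have := h1.2.1
    omega

theorem ed_cl {x y : Row} (h : C.Ed x y) : ({x, y} : Set Row) ∈ C.Cl :=
  (C.cl_iff _).2 (Or.inr (Or.inr ⟨x, y, h, rfl⟩))

theorem cl_two {c : Set Row} {x y : Row} (hc : c ∈ C.Cl) (hx : x ∈ c) (hy : y ∈ c) (hne : x ≠ y) :
    c = {x, y} ∧ (C.Ed x y ∨ C.Ed y x) := by
  rcases (C.cl_iff c).1 hc with rfl | ⟨z, hz, rfl⟩ | ⟨z, t, hzt, rfl⟩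
  · exact absurd hx (Set.notMem_empty _)
  · rw [Set.mem_singleton_iff] at hx hy
    exact absurd (hx.trans hy.symm) hne
  · rw [Set.mem_insert_iff, Set.mem_singleton_iff] at hx hy
    rcases hx with rfl | rfl <;> rcases hy with rfl | rfl
    · exact absurd rfl hne
    · exact ⟨rfl, Or.inl hzt⟩
    · exact ⟨Set.pair_comm _ _, Or.inr hzt⟩
    · exact absurd rfl hne

theorem lam_pos (C : Cd N κ) : 0 < C.lam := lt_of_le_of_lt zero_le C.hlamκ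

theorem bdd_seq {S : Re κ 5} (hS : Seq C S) : ∃ α < C.lam, ∀ β, α ≤ β → ∀ a, ∀ c ∈ C.A (sec S a),
    res c β ∈ C.A (sec S a) := by
  obtain ⟨α, hα, h⟩ := C.bdd S hS.1
  refine ⟨α, hα, fun β hβ a c hc => ?_⟩
  refine C.A_up _ (hS.2 a) (hS.tr a).1 _ (h a (hS.2 a) c hc) _
    (cl_sub (C.A_sub _ hc) (fun x hx => hx.1)) ?_
  exact fun x hx => ⟨hx.1, lt_of_lt_of_le hx.2 hβ⟩

theorem bdd_tr {X : Re κ 4} (hX : Tr C X) : ∃ α < C.lam, ∀ β, α ≤ β → ∀ c ∈ C.A X, res c β ∈ C.A X := by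
  obtain ⟨α, hα, h⟩ := bdd_seq (Seq.cst hX)
  refine ⟨α, hα, fun β hβ c hc => ?_⟩
  have h0 : (0 : Ordinal.{0}) < κ := lt_of_lt_of_le Ordinal.omega0_pos C.hκω
  have h1 := h β hβ (el h0) c
  rw [sec_cst] at h1
  exact h1 hc

theorem exists_up {x : Row} (hx : x ∈ C.Act) {α : Ordinal.{0}} (hα : α < C.lam) :
    ∃ μ, α ≤ μ ∧ μ < C.lam ∧ C.Ed (μ, 2) x := by
  obtain ⟨μ, h1, h2, h3⟩ := C.bk2 x hx α hα
  exact ⟨μ, h1, h2, (C.ed_iff _ _).2 ⟨C.act3 μ h2 2 (by norm_num), hx, Or.inr (Or.inl ⟨rfl, h3⟩)⟩⟩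

theorem ed_one {μ ν : Ordinal.{0}} (hμ : μ < C.lam) (h : ν ≤ μ) : C.Ed (μ, 1) (ν, 0) :=
  (C.ed_iff _ _).2 ⟨C.act3 μ hμ 1 (by norm_num), C.act3 ν (lt_of_le_of_lt h hμ) 0 (by norm_num),
    Or.inl ⟨rfl, rfl, h⟩⟩

theorem exists_edge {x y : Row} (h : C.Ed x y) : ∃ Z, Tr C Z ∧ ∀ c, c ∈ C.A Z ↔ c = {x, y} := by
  obtain ⟨hx, hy, -⟩ := (C.ed_iff x y).1 h
  obtain ⟨Z, hZ, hZN, hZ'⟩ := C.A_mul (C.T x) (C.T y) (C.T_tree x hx) (inN_T hx) (C.T_tree y hy) (inN_T hy)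
  refine ⟨Z, ⟨hZN, hZ⟩, fun c => ?_⟩
  rw [hZ', C.A_T x hx, C.A_T y hy]
  constructor
  · rintro ⟨⟨hc, hxc⟩, -, hyc⟩
    exact (cl_two hc hxc hyc (ed_ne h)).1
  · rintro rfl
    exact ⟨⟨ed_cl h, Set.mem_insert _ _⟩, ed_cl h, Set.mem_insert_of_mem _ rfl⟩

theorem rl_iff {X Y : Re κ 4} (hX : Tr C X) (hY : Tr C Y) : Rl N C.Ω X Y ↔ ∀ c ∈ C.A X, c ∉ C.A Y :=
  C.A_R X Y hX.2 hX.1 hY.2 hY.1

end Pool.Agent.H17.CF.D
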