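import Pool.Agent.H17.CF.D.Ord

/-!
# Job CFD-3b: the order of the trees, atoms

PROOFS.
* `le_iff`: if `A X ⊆ A Y` use `rl_iff`. Conversely let `c ∈ A X`, `c ∉ A Y`. It suffices to find an edge `e = {x, y}` with `e ∈ A X`,
  `e ∉ A Y`: then the tree `Z` of `exists_edge` satisfies `Rl Z Y`, not `Rl Z X`. If `c` is an edge take `e = c`. Let `β` be a bound for
  `X` and `Y` (`bdd_tr`, max). If `c = {x}`: let `β' = max β (x.1 + 1) < lam` (`lam_succ`), `e = {(μ, 2), x}` from `exists_up` with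
  `β' ≤ μ`; `e ∈ A X` by `C.A_up`; if `e ∈ A Y` then `res e β' = {x} ∈ A Y`, contradiction. If `c = ∅`: `e = {(μ, 1), (μ, 0)}` with
  `μ = β` (`ed_one`), `res e β = ∅`.
* `exists_edge_mem`: if `c ∈ A X` then some edge is in `A X` (`C.A_up`; every clique is contained in an edge: `exists_up`, `ed_one` for `μ = 0`).
* `meet_iff`: `le_iff`, `C.A_mul`.
* `atom_iff`: `→`: `¬ Rl X X` gives `c ∈ A X`, hence an edge `e ∈ A X`; for `Z` of `exists_edge`, `Le Z X` and `¬ Rl Z Z`, so `Le X Z`,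
  `A X = {e}`. `←`: `A S ⊆ {e}` is empty (then `Rl S S`) or `{e}`.
-/

set_option autoImplicit false
set_option linter.unusedVariables false
set_option linter.unusedSectionVars false
set_option linter.unusedSimpArgs false

open Pool.Agent.H17.Omega Pool.Agent.H17.Omega.CTM Pool.Agent.H52.GC Pool.Agent.H7.IG

namespace Pool.Agent.H17.CF.D

variable {N : Set ZFSet.{0}} {κ : Ordinal.{0}} {C : Cd N κ}

/-- A clique in one invariant and not in the other one: there is also such an edge. -/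
theorem exists_edge_diff {X Y : Re κ 4} (hX : Tr C X) (hY : Tr C Y) {c : Set Row} (hc : c ∈ C.A X)
    (hc' : c ∉ C.A Y) : ∃ x y, C.Ed x y ∧ ({x, y} : Set Row) ∈ C.A X ∧ ({x, y} : Set Row) ∉ C.A Y := by
  obtain ⟨β, hβ, hβ'⟩ := bdd_tr hY
  rcases (C.cl_iff c).1 (C.A_sub _ hc) with rfl | ⟨x, hx, rfl⟩ | ⟨x, y, hxy, rfl⟩
  · have he := ed_one (C := C) hβ le_rfl
    refine ⟨_, _, he, C.A_up X hX.2 hX.1 _ hc _ (ed_cl he) (Set.empty_subset _), fun h => hc' ?_⟩
    have h1 := hβ' β le_rfl _ h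
    have h2 : res ({((β, 1) : Row), (β, 0)} : Set Row) β = ∅ := by
      ext z
      simp only [res, Set.mem_insert_iff, Set.mem_singleton_iff, Set.mem_ofPred_eq, Set.mem_empty_iff_false,
        iff_false, not_and]
      rintro (rfl | rfl)
      · exact lt_irrefl _
      · exact lt_irrefl _
    rw [h2] at h1
    exact h1
  · have hβ2 : max β (x.1 + 1) < C.lam := max_lt hβ (lam_succ C (C.act_lt x hx).1)
    obtain ⟨μ, h1, h2, he⟩ := exists_up hx hβ2
    refine ⟨_, _, he, C.A_up X hX.2 hX.1 _ hc _ (ed_cl he) ?_, fun h => hc' ?_⟩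
    · intro z hz
      exact Set.mem_insert_of_mem _ hz
    have h3 := hβ' _ (le_max_left β (x.1 + 1)) _ h
    have h4 : res ({((μ, 2) : Row), x} : Set Row) (max β (x.1 + 1)) = {x} := by
      ext z
      simp only [res, Set.mem_insert_iff, Set.mem_singleton_iff, Set.mem_ofPred_eq]
      constructor
      · rintro ⟨rfl | h, h5⟩
        · exact absurd h5 (not_lt.2 h1)
        · exact h
      · rintro rfl
        refine ⟨Or.inr rfl, ?_⟩
        exact lt_of_lt_of_le (Order.lt_succ z.1) (le_max_right β (z.1 + 1))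
    rw [h4] at h3
    exact h3
  · exact ⟨x, y, hxy, hc, hc'⟩

theorem le_iff {X Y : Re κ 4} (hX : Tr C X) (hY : Tr C Y) : Le C X Y ↔ C.A X ⊆ C.A Y := by
  constructor
  · intro h c hc
    by_contra hc'
    obtain ⟨x, y, hxy, h1, h2⟩ := exists_edge_diff hX hY hc hc'
    obtain ⟨Z, hZ, hZ'⟩ := exists_edge hxy
    have h3 := h Z hZ ((rl_iff hZ hY).2 fun c hc => by
      rw [(hZ' c).1 hc]
      exact h2)
    exact (rl_iff hZ hX).1 h3 _ ((hZ' _).2 rfl) h1
  · intro h S hS hSY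
    rw [rl_iff hS hX]
    intro c hc hcX
    exact (rl_iff hS hY).1 hSY c hc (h hcX)

theorem exists_edge_mem {X : Re κ 4} (hX : Tr C X) {c : Set Row} (hc : c ∈ C.A X) :
    ∃ x y, C.Ed x y ∧ ({x, y} : Set Row) ∈ C.A X := by
  rcases (C.cl_iff c).1 (C.A_sub _ hc) with rfl | ⟨x, hx, rfl⟩ | ⟨x, y, hxy, rfl⟩
  · have he := ed_one (C := C) (lam_pos C) (le_refl (0 : Ordinal.{0}))
    exact ⟨_, _, he, C.A_up X hX.2 hX.1 _ hc _ (ed_cl he) (Set.empty_subset _)⟩
  · obtain ⟨μ, h1, h2, he⟩ := exists_up hx (lam_pos C)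
    exact ⟨_, _, he, C.A_up X hX.2 hX.1 _ hc _ (ed_cl he) fun z hz => Set.mem_insert_of_mem _ hz⟩
  · exact ⟨x, y, hxy, hc⟩

theorem meet_iff {Y Z Z' : Re κ 4} (hY : Tr C Y) (hZ : Tr C Z) (hZ' : Tr C Z') :
    Meet C Y Z Z' ↔ ∀ c, c ∈ C.A Y ↔ c ∈ C.A Z ∧ c ∈ C.A Z' := by
  constructor
  · rintro ⟨h1, h2, h3⟩ c
    constructor
    · intro hc
      exact ⟨(le_iff hY hZ).1 h1 hc, (le_iff hY hZ').1 h2 hc⟩
    · rintro ⟨hc, hc'⟩
      obtain ⟨W, hW, hWN, hW'⟩ := C.A_mul Z Z' hZ.2 hZ.1 hZ'.2 hZ'.1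
      have hWt : Tr C W := ⟨hWN, hW⟩
      have h4 := h3 W hWt ((le_iff hWt hZ).2 fun c hc => ((hW' c).1 hc).1)
        ((le_iff hWt hZ').2 fun c hc => ((hW' c).1 hc).2)
      exact (le_iff hWt hY).1 h4 ((hW' c).2 ⟨hc, hc'⟩)
  · intro h
    refine ⟨(le_iff hY hZ).2 fun c hc => ((h c).1 hc).1, (le_iff hY hZ').2 fun c hc => ((h c).1 hc).2, ?_⟩
    intro U hU h1 h2
    exact (le_iff hU hY).2 fun c hc => (h c).2 ⟨(le_iff hU hZ).1 h1 hc, (le_iff hU hZ').1 h2 hc⟩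

theorem atom_iff {X : Re κ 4} (hX : Tr C X) :
    Atom C X ↔ ∃ x y, C.Ed x y ∧ ∀ c, c ∈ C.A X ↔ c = {x, y} := by
  constructor
  · rintro ⟨h1, h2⟩
    rw [rl_iff hX hX] at h1
    push Not at h1
    obtain ⟨c, hc, -⟩ := h1
    obtain ⟨x, y, hxy, he⟩ := exists_edge_mem hX hc
    obtain ⟨Z, hZ, hZ'⟩ := exists_edge hxy
    refine ⟨x, y, hxy, ?_⟩
    have hZX : Le C Z X := (le_iff hZ hX).2 fun c hc => by
      rw [(hZ' c).1 hc]
      exact he
    rcases h2 Z hZ hZX with h3 | h3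
    · exact absurd ((hZ' _).2 rfl) ((rl_iff hZ hZ).1 h3 _ ((hZ' _).2 rfl))
    · intro c
      constructor
      · intro hc
        exact (hZ' c).1 ((le_iff hX hZ).1 h3 hc)
      · rintro rfl
        exact he
  · rintro ⟨x, y, hxy, h⟩
    refine ⟨fun h1 => ?_, fun S hS hSX => ?_⟩
    · exact (rl_iff hX hX).1 h1 _ ((h _).2 rfl) ((h _).2 rfl)
    · by_cases he : ({x, y} : Set Row) ∈ C.A S
      · right
        refine (le_iff hX hS).2 fun c hc => ?_
        rw [(h c).1 hc]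
        exact he
      · left
        refine (rl_iff hS hS).2 fun c hc _ => he ?_
        have h1 := (h c).1 ((le_iff hS hX).1 hSX hc)
        rw [← h1]
        exact hc

end Pool.Agent.H17.CF.D
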