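import Pool.Agent.H17.CF.D.Def

/-!
# The calculus of second-order definable predicates

Predicates `P v ρ` of the values `v x` of the first-order variables and `ρ n i` of the second-order variables.
`Gd ρ`: the environments that are considered (`ρ n i` are relations of `N`, `ρ 2 0` is the order of `κ`).

RULES: `SOD.congr`, `false'`, `true'`, `imp`, `not`, `and`, `or`, `iff`, `eq`, `app`, `lt`, `allFin`, `exFin`; quantifiers
`all x`, `ex x`, `allR n i`, `exR n i`, `allW n b`, `exW n b` (tuples, the block `b, ..., b + n - 1` of variables), `sec` (sections).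
The variable used must be FRESH: the predicate `Q d v ρ` must not depend on `v x` (on `ρ n i`). The freshness
hypotheses `hf` are proved by

    by intros; simp (disch := omega) only [updR_ne, upd_ne]

EXAMPLE (`Le`): to prove `∀ i j, SOD N κ (fun v ρ => Le C (ρ 4 i) (ρ 4 j))`, unfold `Le`; `SOD.allR 4 (i + j + 1)` with
`Q X v ρ := Tr C X → Rl N C.Ω X (ρ 4 j) → Rl N C.Ω X (ρ 4 i)`.
-/

set_option autoImplicit false
set_option linter.unusedVariables false
set_option linter.unusedSectionVars false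
set_option linter.unusedSimpArgs false

open Pool.Agent.H17.Omega Pool.Agent.H17.Omega.CTM Pool.Agent.H52.GC Pool.Agent.H7.IG

namespace Pool.Agent.H17.CF.D

variable {N : Set ZFSet.{0}} {κ : Ordinal.{0}}

/-- Values of the first-order variables. -/
abbrev Va (κ : Ordinal.{0}) : Type 1 := ℕ → El κ.toZFSet

/-- Values of the second-order variables. -/
abbrev En (κ : Ordinal.{0}) : Type 1 := (n : ℕ) → ℕ → Set (Fin n → El κ.toZFSet)

/-- The environments of `N` in which the variable `(2, 0)` is the order. -/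
def Gd (N : Set ZFSet.{0}) {κ : Ordinal.{0}} (ρ : En κ) : Prop :=
  (∀ n i, InN N (ρ n i)) ∧ ρ 2 0 = {w | (w 0).1 ∈ (w 1).1}

theorem updR_same (ρ : En κ) (n i : ℕ) (X : Re κ n) : updR ρ n i X n i = X := by
  unfold updR
  rw [Function.update_self, Function.update_self]

theorem updR_ne {ρ : En κ} {n i m j : ℕ} {X : Re κ n} (h : ¬ (m = n ∧ j = i)) :
    updR ρ n i X m j = ρ m j := by
  unfold updR
  by_cases hm : m = n
  · subst hm
    rw [Function.update_self, Function.update_of_ne (fun hj => h ⟨rfl, hj⟩)]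
  · rw [Function.update_of_ne hm]

theorem upd_ne {v : Va κ} {x y : ℕ} {d : El κ.toZFSet} (h : ¬ (y = x)) : Function.update v x d y = v y :=
  Function.update_of_ne h _ _

theorem Gd.upd {ρ : En κ} (h : Gd N ρ) {n i : ℕ} (hi : ¬ (n = 2 ∧ i = 0)) {X : Re κ n} (hX : InN N X) :
    Gd N (updR ρ n i X) := by
  refine ⟨fun m j => ?_, ?_⟩
  · by_cases hm : m = n ∧ j = i
    · obtain ⟨rfl, rfl⟩ := hm
      rw [updR_same]; exact hX
    · rw [updR_ne hm]; exact h.1 m j
  · rw [updR_ne (fun h1 => hi ⟨h1.1.symm, h1.2.symm⟩)]; exact h.2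

end Pool.Agent.H17.CF.D

namespace Pool.Agent.H17.CF.SOD

open Pool.Agent.H17.CF.D

variable {N : Set ZFSet.{0}} {κ : Ordinal.{0}} {P Q : Va κ → En κ → Prop}

theorem congr (h : SOD N κ P) (hPQ : ∀ v ρ, Gd N ρ → (P v ρ ↔ Q v ρ)) : SOD N κ Q := by
  intro V
  obtain ⟨φ, hφ⟩ := h V
  exact ⟨φ, fun R F v ρ h1 h2 => (hφ R F v ρ h1 h2).trans (hPQ v ρ ⟨h1, h2⟩)⟩

theorem false' : SOD N κ (fun _ _ => False) := fun V => ⟨.bot, fun R F v ρ _ _ => Iff.rfl⟩

theorem imp (h : SOD N κ P) (h' : SOD N κ Q) : SOD N κ (fun v ρ => P v ρ → Q v ρ) := by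
  intro V
  obtain ⟨φ, hφ⟩ := h V
  obtain ⟨ψ, hψ⟩ := h' V
  refine ⟨.imp φ ψ, fun R F v ρ h1 h2 => ?_⟩
  show (SatF _ R F φ v ρ → SatF _ R F ψ v ρ) ↔ _
  rw [hφ R F v ρ h1 h2, hψ R F v ρ h1 h2]

theorem true' : SOD N κ (fun _ _ => True) := (imp false' false').congr fun _ _ _ => by simp

theorem not (h : SOD N κ P) : SOD N κ (fun v ρ => ¬ P v ρ) := (imp h false').congr fun _ _ _ => Iff.rfl

theorem and (h : SOD N κ P) (h' : SOD N κ Q) : SOD N κ (fun v ρ => P v ρ ∧ Q v ρ) :=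
  (imp h h'.not).not.congr fun v ρ _ => by
    by_cases hP : P v ρ <;> by_cases hQ : Q v ρ <;> simp [hP, hQ]

theorem or (h : SOD N κ P) (h' : SOD N κ Q) : SOD N κ (fun v ρ => P v ρ ∨ Q v ρ) :=
  (imp h.not h').congr fun v ρ _ => by
    by_cases hP : P v ρ <;> by_cases hQ : Q v ρ <;> simp [hP, hQ]

theorem iff (h : SOD N κ P) (h' : SOD N κ Q) : SOD N κ (fun v ρ => (P v ρ ↔ Q v ρ)) :=
  ((imp h h').and (imp h' h)).congr fun v ρ _ => iff_def.symm

theorem const (p : Prop) : SOD N κ (fun _ _ => p) := by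
  by_cases hp : p
  · exact true'.congr fun _ _ _ => by simp [hp]
  · exact false'.congr fun _ _ _ => by simp [hp]

theorem eq (x y : ℕ) : SOD N κ (fun v _ => v x = v y) :=
  fun V => ⟨.eq (.var x) (.var y), fun R F v ρ _ _ => Iff.rfl⟩

theorem app (n i : ℕ) (f : Fin n → ℕ) : SOD N κ (fun v ρ => (fun j => v (f j)) ∈ ρ n i) :=
  fun V => ⟨.app n i (fun j => .var (f j)), fun R F v ρ _ _ => Iff.rfl⟩

/-- Membership in a relation, for a list of variables. -/
theorem app' (n i : ℕ) (f : Fin n → ℕ) {w : Va κ → Fin n → El κ.toZFSet} (hw : ∀ v j, w v j = v (f j)) :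
    SOD N κ (fun v ρ => w v ∈ ρ n i) :=
  (app n i f).congr fun v ρ _ => by
    have : (fun j => v (f j)) = w v := funext fun j => (hw v j).symm
    rw [this]

theorem lt (x y : ℕ) : SOD N κ (fun v _ => (v x).1 ∈ (v y).1) :=
  (app 2 0 ![x, y]).congr fun v ρ hρ => by
    rw [hρ.2]
    exact Iff.rfl

theorem all₀ (x : ℕ) (h : SOD N κ P) : SOD N κ (fun v ρ => ∀ d, P (Function.update v x d) ρ) := by
  intro V
  obtain ⟨φ, hφ⟩ := h V
  exact ⟨.all x φ, fun R F v ρ h1 h2 => forall_congr' fun d => hφ R F _ ρ h1 h2⟩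

theorem allR₀ (n i : ℕ) (hi : ¬ (n = 2 ∧ i = 0)) (h : SOD N κ P) :
    SOD N κ (fun v ρ => ∀ X : Re κ n, InN N X → P v (updR ρ n i X)) := by
  intro V
  obtain ⟨φ, hφ⟩ := h V
  refine ⟨.allR n i φ, fun R F v ρ h1 h2 => forall_congr' fun X => ?_⟩
  refine imp_congr_right fun hX => ?_
  have h3 : Gd N (updR ρ n i X) := Gd.upd ⟨h1, h2⟩ hi hX
  exact hφ R F v _ h3.1 h3.2

/-- Quantifiers over elements, with a fresh variable. -/
theorem all (x : ℕ) {Q : El κ.toZFSet → Va κ → En κ → Prop}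
    (hf : ∀ d e v ρ, Q d (Function.update v x e) ρ ↔ Q d v ρ) (h : SOD N κ (fun v ρ => Q (v x) v ρ)) :
    SOD N κ (fun v ρ => ∀ d, Q d v ρ) :=
  (all₀ x h).congr fun v ρ _ => forall_congr' fun d => by
    rw [Function.update_self]
    exact hf d d v ρ

theorem ex (x : ℕ) {Q : El κ.toZFSet → Va κ → En κ → Prop}
    (hf : ∀ d e v ρ, Q d (Function.update v x e) ρ ↔ Q d v ρ) (h : SOD N κ (fun v ρ => Q (v x) v ρ)) :
    SOD N κ (fun v ρ => ∃ d, Q d v ρ) :=
  (all x (Q := fun d v ρ => ¬ Q d v ρ) (fun d e v ρ => not_congr (hf d e v ρ)) h.not).not.congr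
    fun v ρ _ => by simp

/-- Quantifiers over relations of `N`, with a fresh variable. -/
theorem allR (n i : ℕ) (hi : ¬ (n = 2 ∧ i = 0)) {Q : Re κ n → Va κ → En κ → Prop}
    (hf : ∀ X Y v ρ, Q X v (updR ρ n i Y) ↔ Q X v ρ) (h : SOD N κ (fun v ρ => Q (ρ n i) v ρ)) :
    SOD N κ (fun v ρ => ∀ X, InN N X → Q X v ρ) :=
  (allR₀ n i hi h).congr fun v ρ _ => forall_congr' fun X => by
    rw [updR_same]
    exact imp_congr_right fun _ => hf X X v ρ

theorem exR (n i : ℕ) (hi : ¬ (n = 2 ∧ i = 0)) {Q : Re κ n → Va κ → En κ → Prop}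
    (hf : ∀ X Y v ρ, Q X v (updR ρ n i Y) ↔ Q X v ρ) (h : SOD N κ (fun v ρ => Q (ρ n i) v ρ)) :
    SOD N κ (fun v ρ => ∃ X, InN N X ∧ Q X v ρ) :=
  (allR n i hi (Q := fun d v ρ => ¬ Q d v ρ) (fun d e v ρ => not_congr (hf d e v ρ)) h.not).not.congr
    fun v ρ _ => by simp

/-- Quantifiers over tuples of elements, with a fresh block of variables. -/
theorem allW : ∀ (n b : ℕ) {Q : (Fin n → El κ.toZFSet) → Va κ → En κ → Prop}
    (hf : ∀ w v v' ρ, (∀ x, x < b ∨ b + n ≤ x → v x = v' x) → (Q w v ρ ↔ Q w v' ρ))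
    (h : SOD N κ (fun v ρ => Q (fun j => v (b + j)) v ρ)), SOD N κ (fun v ρ => ∀ w, Q w v ρ)
  | 0, b, Q, hf, h => h.congr fun v ρ _ => by
      constructor
      · intro h1 w
        rwa [Subsingleton.elim w (fun j : Fin 0 => v (b + j))]
      · intro h1
        exact h1 _
  | n + 1, b, Q, hf, h => by
    have h1 : SOD N κ (fun v ρ => ∀ w : Fin n → El κ.toZFSet,
        Q (Fin.snoc (α := fun _ => El κ.toZFSet) w (v (b + n))) v ρ) := by
      refine allW n b (Q := fun w v ρ => Q (Fin.snoc (α := fun _ => El κ.toZFSet) w (v (b + n))) v ρ) ?_ ?_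
      · intro w v v' ρ hv
        show Q _ v ρ ↔ Q _ v' ρ
        rw [hv (b + n) (Or.inr le_rfl)]
        exact hf _ v v' ρ fun x hx => hv x (hx.imp id (by omega))
      · refine h.congr fun v ρ _ => ?_
        have : (fun j : Fin (n + 1) => v (b + j)) =
            Fin.snoc (α := fun _ => El κ.toZFSet) (fun j : Fin n => v (b + j)) (v (b + n)) := by
          funext j
          refine Fin.lastCases ?_ (fun i => ?_) j
          · simp
          · simp
        rw [this]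
    have h2 : ∀ (v : Va κ) (d : El κ.toZFSet) (w : Fin n → El κ.toZFSet) ρ,
        Q (Fin.snoc (α := fun _ => El κ.toZFSet) w d) (Function.update v (b + n) d) ρ ↔
          Q (Fin.snoc (α := fun _ => El κ.toZFSet) w d) v ρ := fun v d w ρ =>
      hf _ _ _ ρ fun x hx => Function.update_of_ne (by omega) _ _
    refine (all₀ (b + n) h1).congr fun v ρ _ => ?_
    constructor
    · intro h3 w
      have h4 := h3 (w (Fin.last n)) (fun i => w i.castSucc)
      rw [Function.update_self, h2] at h4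
      have h5 : (Fin.snoc (α := fun _ => El κ.toZFSet) (fun i : Fin n => w i.castSucc) (w (Fin.last n))) =
        w := Fin.snoc_init_self w
      rwa [h5] at h4
    · intro h3 d w
      rw [Function.update_self, h2]
      exact h3 _

theorem exW (n b : ℕ) {Q : (Fin n → El κ.toZFSet) → Va κ → En κ → Prop}
    (hf : ∀ w v v' ρ, (∀ x, x < b ∨ b + n ≤ x → v x = v' x) → (Q w v ρ ↔ Q w v' ρ))
    (h : SOD N κ (fun v ρ => Q (fun j => v (b + j)) v ρ)) : SOD N κ (fun v ρ => ∃ w, Q w v ρ) :=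
  (allW n b (Q := fun w v ρ => ¬ Q w v ρ) (fun w v v' ρ hv => not_congr (hf w v v' ρ hv)) h.not).not.congr
    fun v ρ _ => by simp

/-- Finite conjunctions. -/
theorem allFin : ∀ {n : ℕ} {P : Fin n → Va κ → En κ → Prop} (h : ∀ j, SOD N κ (P j)),
    SOD N κ (fun v ρ => ∀ j, P j v ρ)
  | 0, P, h => true'.congr fun v ρ _ => by simp
  | n + 1, P, h => ((allFin (P := fun j => P j.castSucc) fun j => h _).and (h (Fin.last n))).congr
      fun v ρ _ => by
        constructor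
        · rintro ⟨h1, h2⟩ j
          exact Fin.lastCases h2 h1 j
        · intro h1
          exact ⟨fun j => h1 _, h1 _⟩

theorem exFin {n : ℕ} {P : Fin n → Va κ → En κ → Prop} (h : ∀ j, SOD N κ (P j)) :
    SOD N κ (fun v ρ => ∃ j, P j v ρ) :=
  (allFin (P := fun j v ρ => ¬ P j v ρ) fun j => (h j).not).not.congr fun v ρ _ => by simp

/-- Sections: it is enough to treat a variable `(n, k)` in place of the section. -/
theorem sec (hN : CTM N) (hκN : κ.toZFSet ∈ N) (n s k a : ℕ) (hk : ¬ (n = 2 ∧ k = 0))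
    {Q : Re κ n → Va κ → En κ → Prop} (hf : ∀ X Y v ρ, Q X v (updR ρ n k Y) ↔ Q X v ρ)
    (h : SOD N κ (fun v ρ => Q (ρ n k) v ρ)) :
    SOD N κ (fun v ρ => Q (CF.sec (ρ (n + 1) s) (v a)) v ρ) := by
  have h1 : SOD N κ (fun v ρ => ∀ w : Fin n → El κ.toZFSet, w ∈ ρ n k ↔
      (Fin.cons (v a) w : Fin (n + 1) → El κ.toZFSet) ∈ ρ (n + 1) s) := by
    refine allW n (a + 1) (Q := fun w v ρ => (w ∈ ρ n k ↔
      (Fin.cons (v a) w : Fin (n + 1) → El κ.toZFSet) ∈ ρ (n + 1) s)) ?_ ?_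
    · intro w v v' ρ hv
      show (_ ↔ _) ↔ (_ ↔ _)
      rw [hv a (Or.inl (by omega))]
    · refine (app n k _).iff (app' (n + 1) s (Fin.cons a fun j => a + 1 + j) fun v j => ?_)
      refine Fin.cases ?_ (fun i => ?_) j
      · simp
      · simp
  have h2 : SOD N κ (fun v ρ => ∃ X, InN N X ∧ ((∀ w : Fin n → El κ.toZFSet, w ∈ X ↔
      (Fin.cons (v a) w : Fin (n + 1) → El κ.toZFSet) ∈ ρ (n + 1) s) ∧ Q X v ρ)) := by
    refine exR n k hk (Q := fun X v ρ => ((∀ w : Fin n → El κ.toZFSet, w ∈ X ↔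
      (Fin.cons (v a) w : Fin (n + 1) → El κ.toZFSet) ∈ ρ (n + 1) s) ∧ Q X v ρ)) ?_ (h1.and h)
    intro X Y v ρ
    show (_ ∧ _) ↔ (_ ∧ _)
    rw [updR_ne (by omega), hf]
  refine h2.congr fun v ρ hρ => ?_
  constructor
  · rintro ⟨X, -, hX, hQ⟩
    have : X = CF.sec (ρ (n + 1) s) (v a) := Set.ext hX
    rwa [← this]
  · intro hQ
    exact ⟨_, InN.sec hN hκN (hρ.1 _ _) _, fun w => Iff.rfl, hQ⟩

end Pool.Agent.H17.CF.SOD
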