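import Pool.Agent.H17.CF.D.SodO

/-!
# Job CFD-S3: the graph, base vertices, connecting vertices, the order are second-order definable

Calculus: `SOD.*` in Sod.lean (quantifiers with a FRESH variable; freshness `hf` by `intros; simp (disch := omega) only [updR_ne, upd_ne]`);
`allTr`, `exTr`, `allSeq`, `exSeq` in SodO.lean; sections `SOD.sec C.hN C.hκN`.

PROOFS. Unfold the definition (Def.lean) and choose fresh variables.
* `sod_adj`: no quantifier. `sod_base`: `Y` is `(4, i + 1)`, `S` is `(5, 0)`, `Z` is `(4, i + 2)`, `a` is the variable `0`; `sec S a` by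
  `SOD.sec` (`k = i + 3`).
* `sod_conn`: `S` is `(5, 0)`, `a`, `b` are `0`, `1`, sections `k = i + 1`, `i + 2`; `a ≠ b` by `SOD.eq`. `sod_lt`: `Z` is `(4, i + j + 1)`.
* `sod_basep`: `Y` is `(4, i + 1)`.
-/

set_option autoImplicit false
set_option linter.unusedVariables false
set_option linter.unusedSectionVars false
set_option linter.unusedSimpArgs false

open Pool.Agent.H17.Omega Pool.Agent.H17.Omega.CTM Pool.Agent.H52.GC Pool.Agent.H7.IG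

namespace Pool.Agent.H17.CF.D

variable {N : Set ZFSet.{0}} {κ : Ordinal.{0}}

theorem sod_adj (C : Cd N κ) (i j : ℕ) : SOD N κ (fun v ρ => Adj C (ρ 4 i) (ρ 4 j)) :=
  (sod_vert C i).and ((sod_vert C j).and ((sod_rl C i j).not.and (sod_le C i j).not))

theorem sod_base (C : Cd N κ) (i : ℕ) : SOD N κ (fun v ρ => Base C (ρ 4 i)) := by
  have h1 : SOD N κ (fun v ρ => Le C (ρ 4 (i + 2)) (sec (ρ 5 0) (v 0))) :=
    SOD.sec C.hN C.hκN 4 0 (i + 3) 0 (by omega) (Q := fun X v ρ => Le C (ρ 4 (i + 2)) X)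
      (by intros; simp (disch := omega) only [updR_ne, upd_ne]) (sod_le C _ _)
  have h2 : SOD N κ (fun v ρ => Le C (sec (ρ 5 0) (v 0)) (ρ 4 (i + 2))) :=
    SOD.sec C.hN C.hκN 4 0 (i + 3) 0 (by omega) (Q := fun X v ρ => Le C X (ρ 4 (i + 2)))
      (by intros; simp (disch := omega) only [updR_ne, upd_ne]) (sod_le C _ _)
  have h3 : SOD N κ (fun v ρ => ∀ a : El κ.toZFSet, ¬ (Le C (ρ 4 (i + 2)) (sec (ρ 5 0) a) ∧
      Le C (sec (ρ 5 0) a) (ρ 4 (i + 2)))) :=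
    SOD.all 0 (Q := fun a v ρ => ¬ (Le C (ρ 4 (i + 2)) (sec (ρ 5 0) a) ∧ Le C (sec (ρ 5 0) a) (ρ 4 (i + 2))))
      (by intros; exact Iff.rfl) (h1.and h2).not
  have h4 : SOD N κ (fun v ρ => ∃ Z, Tr C Z ∧ (Adj C Z (ρ 4 i) ∧ Adj C Z (ρ 4 (i + 1)) ∧
      ∀ a, ¬ (Le C Z (sec (ρ 5 0) a) ∧ Le C (sec (ρ 5 0) a) Z))) :=
    exTr C (i + 2) (Q := fun Z v ρ => Adj C Z (ρ 4 i) ∧ Adj C Z (ρ 4 (i + 1)) ∧
      ∀ a, ¬ (Le C Z (sec (ρ 5 0) a) ∧ Le C (sec (ρ 5 0) a) Z)) (by intros; simp (disch := omega) only [updR_ne, upd_ne])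
      ((sod_adj C _ _).and ((sod_adj C _ _).and h3))
  have h5 : SOD N κ (fun v ρ => ∀ S, Seq C S → ∃ Z, Tr C Z ∧ (Adj C Z (ρ 4 i) ∧ Adj C Z (ρ 4 (i + 1)) ∧
      ∀ a, ¬ (Le C Z (sec S a) ∧ Le C (sec S a) Z))) :=
    allSeq C 0 (Q := fun S v ρ => ∃ Z, Tr C Z ∧ (Adj C Z (ρ 4 i) ∧ Adj C Z (ρ 4 (i + 1)) ∧
      ∀ a, ¬ (Le C Z (sec S a) ∧ Le C (sec S a) Z))) (by intros; simp (disch := omega) only [updR_ne, upd_ne]) h4
  have h6 : SOD N κ (fun v ρ => ∃ Y, Tr C Y ∧ (Vert C Y ∧ ¬ Le C (ρ 4 i) Y ∧ ∀ S, Seq C S → ∃ Z, Tr C Z ∧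
      (Adj C Z (ρ 4 i) ∧ Adj C Z Y ∧ ∀ a, ¬ (Le C Z (sec S a) ∧ Le C (sec S a) Z)))) :=
    exTr C (i + 1) (Q := fun Y v ρ => Vert C Y ∧ ¬ Le C (ρ 4 i) Y ∧ ∀ S, Seq C S → ∃ Z, Tr C Z ∧
      (Adj C Z (ρ 4 i) ∧ Adj C Z Y ∧ ∀ a, ¬ (Le C Z (sec S a) ∧ Le C (sec S a) Z))) (by intros; simp (disch := omega) only [updR_ne, upd_ne])
      ((sod_vert C _).and ((sod_le C _ _).not.and h5))
  exact (sod_vert C _).and h6

theorem sod_conn (C : Cd N κ) (i : ℕ) : SOD N κ (fun v ρ => Conn C (ρ 4 i)) := by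
  have h1 : SOD N κ (fun v ρ => Base C (sec (ρ 5 0) (v 0)) ∧ Adj C (ρ 4 i) (sec (ρ 5 0) (v 0))) :=
    SOD.sec C.hN C.hκN 4 0 (i + 1) 0 (by omega) (Q := fun X v ρ => Base C X ∧ Adj C (ρ 4 i) X)
      (by intros; simp (disch := omega) only [updR_ne, upd_ne]) ((sod_base C _).and (sod_adj C _ _))
  have h2 : SOD N κ (fun v ρ => ∀ a : El κ.toZFSet, Base C (sec (ρ 5 0) a) ∧ Adj C (ρ 4 i) (sec (ρ 5 0) a)) :=
    SOD.all 0 (Q := fun a v ρ => Base C (sec (ρ 5 0) a) ∧ Adj C (ρ 4 i) (sec (ρ 5 0) a))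
      (by intros; exact Iff.rfl) h1
  have h3 : SOD N κ (fun v ρ => Rl N C.Ω (sec (ρ 5 0) (v 0)) (ρ 4 (i + 2))) :=
    SOD.sec C.hN C.hκN 4 0 (i + 1) 0 (by omega) (Q := fun X v ρ => Rl N C.Ω X (ρ 4 (i + 2)))
      (by intros; simp (disch := omega) only [updR_ne, upd_ne]) (sod_rl C _ _)
  have h4 : SOD N κ (fun v ρ => Rl N C.Ω (sec (ρ 5 0) (v 0)) (sec (ρ 5 0) (v 1))) :=
    SOD.sec C.hN C.hκN 4 0 (i + 2) 1 (by omega) (Q := fun X v ρ => Rl N C.Ω (sec (ρ 5 0) (v 0)) X)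
      (by intros; simp (disch := omega) only [updR_ne, upd_ne]) h3
  have h5 : SOD N κ (fun v ρ => ∀ a b : El κ.toZFSet, a ≠ b → Rl N C.Ω (sec (ρ 5 0) a) (sec (ρ 5 0) b)) := by
    refine SOD.all 0 (Q := fun a v ρ => ∀ b : El κ.toZFSet, a ≠ b →
      Rl N C.Ω (sec (ρ 5 0) a) (sec (ρ 5 0) b)) (by intros; exact Iff.rfl) ?_
    refine SOD.all 1 (Q := fun b v ρ => v 0 ≠ b → Rl N C.Ω (sec (ρ 5 0) (v 0)) (sec (ρ 5 0) b))
      (by intros; simp (disch := omega) only [updR_ne, upd_ne]) ?_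
    exact (SOD.eq 0 1).not.imp h4
  have h6 : SOD N κ (fun v ρ => ∃ S, Seq C S ∧ ((∀ a, Base C (sec S a) ∧ Adj C (ρ 4 i) (sec S a)) ∧
      ∀ a b, a ≠ b → Rl N C.Ω (sec S a) (sec S b))) :=
    exSeq C 0 (Q := fun S v ρ => (∀ a, Base C (sec S a) ∧ Adj C (ρ 4 i) (sec S a)) ∧
      ∀ a b, a ≠ b → Rl N C.Ω (sec S a) (sec S b)) (by intros; simp (disch := omega) only [updR_ne, upd_ne]) (h2.and h5)
  exact (sod_vert C _).and h6

theorem sod_lt (C : Cd N κ) (i j : ℕ) : SOD N κ (fun v ρ => Lt C (ρ 4 i) (ρ 4 j)) := by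
  refine (sod_base C _).and ((sod_base C _).and ?_)
  exact exTr C (i + j + 1) (Q := fun Z v ρ => Conn C Z ∧ Adj C Z (ρ 4 i) ∧ ¬ Adj C Z (ρ 4 j)) (by intros; simp (disch := omega) only [updR_ne, upd_ne])
    ((sod_conn C _).and ((sod_adj C _ _).and (sod_adj C _ _).not))

theorem sod_basep (C : Cd N κ) (i : ℕ) : SOD N κ (fun v ρ => BaseP C (ρ 4 i)) := by
  refine (sod_base C _).and ?_
  exact exTr C (i + 1) (Q := fun Y v ρ => Lt C Y (ρ 4 i)) (by intros; simp (disch := omega) only [updR_ne, upd_ne]) (sod_lt C _ _)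

end Pool.Agent.H17.CF.D
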