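import Pool.Agent.H17.CF.D.Sod
import Pool.Agent.H7.IG.Tk4

/-!
# Job CFD-S1: natural numbers, countable levels, trees are second-order definable

Calculus: `SOD.*` in Sod.lean (rules `congr`, `imp`, `not`, `and`, `or`, `iff`, `eq`, `app`, `app'`, `lt`, `allFin`; quantifiers `all x`,
`ex x`, `allR n i`, `exR n i` with a FRESH variable; freshness `hf` by `intros; simp (disch := omega) only [updR_ne, upd_ne]`).
`K = El κ.toZFSet`; `od : K → Ordinal`, `od_lt`, `mem_iff_od`, `od_val`, `el`, `od_el` (Tup.lean).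

PROOFS.
* `sod_om`: `(v x).1 ∈ ω` iff for all `y ∈ K` with `y ∈ x` or `y = x`: (`∀ z, z ∉ y`) or `∃ z, z ∈ y ∧ ∀ u, u ∈ y → u ∈ z ∨ u = z` (use `od`: every
  ordinal `≤ od x` is `0` or a successor iff `od x < ω`; `ω ≤ κ` by `hκω`; `natZ_eq`, `mem_omZ`).
* `sod_nat`: induction on `j`: `0`: `∀ z, z ∉ x`; `j + 1`: `∃ z, z = natZ j ∧ z ∈ x ∧ ∀ u, u ∈ x → u ∈ z ∨ u = z`.
* `sod_lvl`: `ω ⊆ a` iff `∀ n ∈ K, n ∈ ω → n ∈ a` (`omZ ⊆ κ`). `a ∈ Ω` iff `Ctb N a` (`C.hΩ : IsOm1 N C.Ω`, `C.hΩκ`; if `a ∉ Ω` then `Ω ⊆ a` is not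
  countable) iff `Cvr N omZ a` (`ctb_iff_cvr'` in H7/IG/Tk4) iff there is a binary relation `G` on `K` in `N` with
  `∀ n x x', n ∈ ω → (n, x) ∈ G → (n, x') ∈ G → x = x'` and `∀ x, x ∈ a → ∃ n, n ∈ ω ∧ (n, x) ∈ G`. (From `f ∈ N` of `Cvr` take
  `G = {w | (w 0, w 1) ∈ f}`, `InN.of_dfn`; from `G` with the code `z` take `f = {(n, x) : tup ![n, x] ∈ z}` by `exists_sep` from
  `ZFSet.prod κ κ`, or `cvr_of_dfn`.) Use the variable `(2, 1)` for `G`.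
* `sod_isTree`: `IsTree` is the conjunction of its four fields, all first-order over `ρ 4 i` and `Lvl`, `ω`. `dom`: tuples `w` are
  quantified by `allW 4 0`, or by four variables (`w = ![w 0, w 1, w 2, w 3]`).
-/

set_option autoImplicit false
set_option linter.unusedVariables false
set_option linter.unusedSectionVars false
set_option linter.unusedSimpArgs false

open Pool.Agent.H17.Omega Pool.Agent.H17.Omega.CTM Pool.Agent.H52.GC Pool.Agent.H7.IG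

namespace Pool.Agent.H17.CF.D

variable {N : Set ZFSet.{0}} {κ : Ordinal.{0}}

theorem val_nat {x : El κ.toZFSet} {n : ℕ} : x.1 = natZ n ↔ od x = (n : Ordinal.{0}) := by
  rw [← od_val x, natZ_eq, toZFSet_inj]

theorem val_om {x : El κ.toZFSet} : x.1 ∈ omZ ↔ od x < Ordinal.omega0 := by
  rw [mem_omZ, Ordinal.lt_omega0]
  exact exists_congr fun n => val_nat

/-- Formula for zero. -/
theorem zero_iff {y : El κ.toZFSet} : (∀ z : El κ.toZFSet, ¬ z.1 ∈ y.1) ↔ od y = 0 := by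
  constructor
  · intro h
    by_contra h1
    have h2 : 0 < od y := pos_iff_ne_zero.2 h1
    refine h (el (h2.trans (od_lt y))) ?_
    rw [mem_iff_od, od_el]
    exact h2
  · intro h z
    rw [mem_iff_od, h]
    exact not_lt_zero

/-- Formula for the predecessor. -/
theorem succ_iff {y z : El κ.toZFSet} :
    (z.1 ∈ y.1 ∧ ∀ u : El κ.toZFSet, u.1 ∈ y.1 → u.1 ∈ z.1 ∨ u = z) ↔ od y = od z + 1 := by
  constructor
  · rintro ⟨h1, h2⟩
    rw [mem_iff_od] at h1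
    rcases (Order.add_one_le_of_lt h1).lt_or_eq with h3 | h3
    · exfalso
      have h4 := h2 (el (h3.trans (od_lt y))) (by rw [mem_iff_od, od_el]; exact h3)
      rcases h4 with h4 | h4
      · rw [mem_iff_od, od_el] at h4
        exact absurd (h4.trans (Order.lt_add_one_iff.2 le_rfl)) (lt_irrefl _)
      · have h5 := congrArg od h4
        rw [od_el] at h5
        exact absurd h5 (Order.lt_add_one_iff.2 le_rfl).ne'
    · exact h3.symm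
  · intro h
    refine ⟨?_, fun u hu => ?_⟩
    · rw [mem_iff_od, h]; exact Order.lt_add_one_iff.2 le_rfl
    · rw [mem_iff_od, h] at hu
      rcases (Order.lt_add_one_iff.1 hu).lt_or_eq with h1 | h1
      · exact Or.inl (mem_iff_od.2 h1)
      · exact Or.inr (od_inj.1 h1)

theorem sod_zero (y : ℕ) : SOD N κ (fun v ρ => ∀ z : El κ.toZFSet, ¬ z.1 ∈ (v y).1) :=
  SOD.all (y + 1) (Q := fun z v ρ => ¬ z.1 ∈ (v y).1) (by intros; simp (disch := omega) only [updR_ne, upd_ne]) (SOD.lt _ _).not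

theorem sod_succ (y z : ℕ) : SOD N κ (fun v ρ => (v z).1 ∈ (v y).1 ∧
    ∀ u : El κ.toZFSet, u.1 ∈ (v y).1 → u.1 ∈ (v z).1 ∨ u = v z) :=
  (SOD.lt _ _).and (SOD.all (y + z + 1) (Q := fun u v ρ => u.1 ∈ (v y).1 → u.1 ∈ (v z).1 ∨ u = v z) (by intros; simp (disch := omega) only [updR_ne, upd_ne])
    ((SOD.lt _ _).imp ((SOD.lt _ _).or (SOD.eq _ _))))

theorem sod_om (hκω : Ordinal.omega0 ≤ κ) (x : ℕ) : SOD N κ (fun v ρ => (v x).1 ∈ omZ) := by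
  have h1 : SOD N κ (fun v ρ => ∃ z : El κ.toZFSet, z.1 ∈ (v (x + 1)).1 ∧
      ∀ u : El κ.toZFSet, u.1 ∈ (v (x + 1)).1 → u.1 ∈ z.1 ∨ u = z) :=
    SOD.ex (x + 2) (Q := fun z v ρ => z.1 ∈ (v (x + 1)).1 ∧
      ∀ u : El κ.toZFSet, u.1 ∈ (v (x + 1)).1 → u.1 ∈ z.1 ∨ u = z) (by intros; simp (disch := omega) only [updR_ne, upd_ne]) (sod_succ _ _)
  have h2 : SOD N κ (fun v ρ => ∀ y : El κ.toZFSet, (y.1 ∈ (v x).1 ∨ y = v x) →
      (∀ z : El κ.toZFSet, ¬ z.1 ∈ y.1) ∨ ∃ z : El κ.toZFSet, z.1 ∈ y.1 ∧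
        ∀ u : El κ.toZFSet, u.1 ∈ y.1 → u.1 ∈ z.1 ∨ u = z) :=
    SOD.all (x + 1) (Q := fun y v ρ => (y.1 ∈ (v x).1 ∨ y = v x) →
      (∀ z : El κ.toZFSet, ¬ z.1 ∈ y.1) ∨ ∃ z : El κ.toZFSet, z.1 ∈ y.1 ∧
        ∀ u : El κ.toZFSet, u.1 ∈ y.1 → u.1 ∈ z.1 ∨ u = z) (by intros; simp (disch := omega) only [updR_ne, upd_ne])
      (((SOD.lt _ _).or (SOD.eq _ _)).imp ((sod_zero _).or h1))
  refine h2.congr fun v ρ _ => ?_
  simp only [zero_iff, succ_iff, val_om]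
  constructor
  · intro h3
    by_contra h4
    rw [not_lt] at h4
    have h5 : Ordinal.omega0 < κ := h4.trans_lt (od_lt _)
    rcases h3 (el h5) (by
      rw [mem_iff_od, od_el, ← od_inj, od_el]
      rcases h4.lt_or_eq with h6 | h6
      · exact Or.inl h6
      · exact Or.inr h6) with h6 | ⟨z, h6⟩
    · rw [od_el] at h6
      exact Ordinal.omega0_ne_zero h6
    · rw [od_el] at h6
      have h7 : od z < Ordinal.omega0 := h6 ▸ Order.lt_add_one_iff.2 le_rfl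
      obtain ⟨n, hn⟩ := Ordinal.lt_omega0.1 h7
      rw [hn] at h6
      have h8 : ((n + 1 : ℕ) : Ordinal.{0}) < Ordinal.omega0 := Ordinal.natCast_lt_omega0 _
      push_cast at h8
      exact absurd h6 h8.ne'
  · intro h3 y hy
    have h4 : od y < Ordinal.omega0 := by
      rcases hy with hy | rfl
      · exact (mem_iff_od.1 hy).trans h3
      · exact h3
    obtain ⟨n, hn⟩ := Ordinal.lt_omega0.1 h4
    cases n with
    | zero => exact Or.inl (by rw [hn]; simp)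
    | succ n =>
      refine Or.inr ⟨el (α := (n : Ordinal.{0})) ((Ordinal.natCast_lt_omega0 n).trans_le hκω), ?_⟩
      rw [od_el, hn]
      push_cast
      rfl

theorem sod_nat (j x : ℕ) : SOD N κ (fun v ρ => (v x).1 = natZ j) := by
  induction j generalizing x with
  | zero =>
    refine (sod_zero x).congr fun v ρ _ => ?_
    rw [zero_iff, val_nat]
    simp
  | succ j ih =>
    have h1 : SOD N κ (fun v ρ => ∃ z : El κ.toZFSet, z.1 = natZ j ∧ (z.1 ∈ (v x).1 ∧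
        ∀ u : El κ.toZFSet, u.1 ∈ (v x).1 → u.1 ∈ z.1 ∨ u = z)) :=
      SOD.ex (x + 1) (Q := fun z v ρ => z.1 = natZ j ∧ (z.1 ∈ (v x).1 ∧
        ∀ u : El κ.toZFSet, u.1 ∈ (v x).1 → u.1 ∈ z.1 ∨ u = z)) (by intros; simp (disch := omega) only [updR_ne, upd_ne]) ((ih _).and (sod_succ _ _))
    refine h1.congr fun v ρ _ => ?_
    simp only [succ_iff, val_nat]
    constructor
    · rintro ⟨z, h2, h3⟩
      rw [h3, h2]
      push_cast
      rfl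
    · intro h2
      have h3 : (j : Ordinal.{0}) < κ := by
        refine lt_trans ?_ (od_lt (v x))
        rw [h2]
        exact_mod_cast Nat.lt_succ_self j
      refine ⟨el h3, od_el h3, ?_⟩
      rw [od_el, h2]
      push_cast
      rfl

/-- Elements of `ω₁` are countable. -/
theorem lvl_ctb (C : Cd N κ) (a : El κ.toZFSet) : a.1 ∈ C.Ω.toZFSet ↔ Ctb N a.1 := by
  rw [← od_val a, Ordinal.toZFSet_mem_toZFSet_iff]
  constructor
  · exact fun h => C.hΩ.ctb _ h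
  · rintro ⟨f, hf, hf'⟩
    by_contra h
    rw [not_lt] at h
    exact C.hΩ.unc ⟨f, hf, fun x hx => hf' x (by
      rw [Ordinal.mem_toZFSet_iff] at hx ⊢
      obtain ⟨b, hb, rfl⟩ := hx
      exact ⟨b, hb.trans_le h, rfl⟩)⟩

theorem om_mem_kap (C : Cd N κ) {z : ZFSet.{0}} (hz : z ∈ omZ) : z ∈ κ.toZFSet := by
  obtain ⟨n, rfl⟩ := mem_omZ.1 hz
  rw [natZ_eq, Ordinal.toZFSet_mem_toZFSet_iff]
  exact (Ordinal.natCast_lt_omega0 n).trans_le C.hκω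

/-- Countability in terms of binary relations. -/
theorem ctb_iff_rel (C : Cd N κ) (a : El κ.toZFSet) : Ctb N a.1 ↔ ∃ G : Re κ 2, InN N G ∧
    ((∀ n x x' : El κ.toZFSet, n.1 ∈ omZ → ![n, x] ∈ G → ![n, x'] ∈ G → x = x') ∧
      ∀ x : El κ.toZFSet, x.1 ∈ a.1 → ∃ n : El κ.toZFSet, n.1 ∈ omZ ∧ ![n, x] ∈ G) := by
  have hN := C.hN
  have haN : a.1 ∈ N := hN.mem_of_mem C.hκN a.2
  have hsub : ∀ x ∈ a.1, x ∈ κ.toZFSet := fun x hx => by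
    have h1 := a.2
    rw [Ordinal.mem_toZFSet_iff] at h1 ⊢
    obtain ⟨b, hb, h2⟩ := h1
    rw [← h2, Ordinal.mem_toZFSet_iff] at hx
    obtain ⟨c, hc, rfl⟩ := hx
    exact ⟨c, hc.trans hb, rfl⟩
  rw [ctb_iff_cvr' hN]
  constructor
  · rintro ⟨f, hf, h1, h2⟩
    have h3 : hN.Dfn (fun v : Fin 2 → N => ZFSet.pair (v 0).1 (v 1).1 ∈ f) :=
      Df.mem (PD.pair (PD.var 0) (PD.var 1)) (PD.const hf)
    refine ⟨_, InN.of_dfn hN C.hκN h3, ?_, ?_⟩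
    · intro n x x' hn hx hx'
      exact Subtype.ext (h1 _ hn _ _ hx hx')
    · intro x hx
      obtain ⟨y, hy, hy'⟩ := h2 _ hx
      exact ⟨⟨y, om_mem_kap C hy⟩, hy, hy'⟩
  · rintro ⟨G, ⟨z, hz, hz'⟩, h1, h2⟩
    refine cvr_of_dfn hN (F := fun y x => y.1 ∈ κ.toZFSet ∧ x.1 ∈ κ.toZFSet ∧
      ZFSet.pair y.1 (ZFSet.pair x.1 ∅) ∈ z) ?_ hN.omZ_mem haN ?_ ?_
    · exact (Df.mem (PD.var 0) (PD.const C.hκN)).and ((Df.mem (PD.var 1) (PD.const C.hκN)).and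
        (Df.mem (PD.pair (PD.var 0) (PD.pair (PD.var 1) (PD.const hN.empty_mem))) (PD.const hz)))
    · rintro y hy x x' ⟨hy1, hx1, h3⟩ ⟨-, hx1', h3'⟩
      have h4 := h1 ⟨y.1, hy1⟩ ⟨x.1, hx1⟩ ⟨x'.1, hx1'⟩ hy
        ((hz' _).2 (by simpa [tup, tupL] using h3)) ((hz' _).2 (by simpa [tup, tupL] using h3'))
      exact Subtype.ext (Subtype.mk.inj h4)
    · intro x hx
      obtain ⟨n, hn, hn'⟩ := h2 ⟨x.1, hsub _ hx⟩ hx
      refine ⟨up hN C.hκN n, hn, n.2, hsub _ hx, ?_⟩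
      have h3 := (hz' _).1 hn'
      simpa [tup, tupL, up] using h3

theorem sod_lvl (C : Cd N κ) (x : ℕ) : SOD N κ (fun v ρ => Lvl C.Ω (v x).1) := by
  have h1 : SOD N κ (fun v ρ => ∀ n : El κ.toZFSet, n.1 ∈ omZ → n.1 ∈ (v x).1) :=
    SOD.all (x + 1) (Q := fun n v ρ => n.1 ∈ omZ → n.1 ∈ (v x).1) (by intros; simp (disch := omega) only [updR_ne, upd_ne])
      ((sod_om C.hκω _).imp (SOD.lt _ _))
  have h2 : SOD N κ (fun v ρ => ∀ n y y' : El κ.toZFSet, n.1 ∈ omZ → ![n, y] ∈ ρ 2 1 → ![n, y'] ∈ ρ 2 1 →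
      y = y') := by
    refine SOD.all 0 (Q := fun n v ρ => ∀ y y' : El κ.toZFSet, n.1 ∈ omZ → ![n, y] ∈ ρ 2 1 →
      ![n, y'] ∈ ρ 2 1 → y = y') (by intros; exact Iff.rfl) ?_
    refine SOD.all 1 (Q := fun y v ρ => ∀ y' : El κ.toZFSet, (v 0).1 ∈ omZ → ![v 0, y] ∈ ρ 2 1 →
      ![v 0, y'] ∈ ρ 2 1 → y = y') (by intros; simp (disch := omega) only [updR_ne, upd_ne]) ?_
    refine SOD.all 2 (Q := fun y' v ρ => (v 0).1 ∈ omZ → ![v 0, v 1] ∈ ρ 2 1 →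
      ![v 0, y'] ∈ ρ 2 1 → v 1 = y') (by intros; simp (disch := omega) only [updR_ne, upd_ne]) ?_
    refine (sod_om C.hκω _).imp ((SOD.app' 2 1 ![0, 1] (w := fun v => ![v 0, v 1]) ?_).imp
      ((SOD.app' 2 1 ![0, 2] (w := fun v => ![v 0, v 2]) ?_).imp (SOD.eq _ _)))
    · intro v j; fin_cases j <;> rfl
    · intro v j; fin_cases j <;> rfl
  have h3 : SOD N κ (fun v ρ => ∀ y : El κ.toZFSet, y.1 ∈ (v x).1 → ∃ n : El κ.toZFSet, n.1 ∈ omZ ∧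
      ![n, y] ∈ ρ 2 1) := by
    refine SOD.all (x + 1) (Q := fun y v ρ => y.1 ∈ (v x).1 → ∃ n : El κ.toZFSet, n.1 ∈ omZ ∧
      ![n, y] ∈ ρ 2 1) (by intros; simp (disch := omega) only [updR_ne, upd_ne]) ?_
    refine (SOD.lt _ _).imp ?_
    refine SOD.ex (x + 2) (Q := fun n v ρ => n.1 ∈ omZ ∧ ![n, v (x + 1)] ∈ ρ 2 1) (by intros; simp (disch := omega) only [updR_ne, upd_ne]) ?_
    refine (sod_om C.hκω _).and (SOD.app' 2 1 ![x + 2, x + 1] (w := fun v => ![v (x + 2), v (x + 1)]) ?_)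
    intro v j; fin_cases j <;> rfl
  have h4 : SOD N κ (fun v ρ => ∃ G : Re κ 2, InN N G ∧
      ((∀ n y y' : El κ.toZFSet, n.1 ∈ omZ → ![n, y] ∈ G → ![n, y'] ∈ G → y = y') ∧
      ∀ y : El κ.toZFSet, y.1 ∈ (v x).1 → ∃ n : El κ.toZFSet, n.1 ∈ omZ ∧ ![n, y] ∈ G)) :=
    SOD.exR 2 1 (by omega) (Q := fun G v ρ =>
      ((∀ n y y' : El κ.toZFSet, n.1 ∈ omZ → ![n, y] ∈ G → ![n, y'] ∈ G → y = y') ∧
      ∀ y : El κ.toZFSet, y.1 ∈ (v x).1 → ∃ n : El κ.toZFSet, n.1 ∈ omZ ∧ ![n, y] ∈ G))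
      (by intros; exact Iff.rfl) (h2.and h3)
  refine (h4.and h1).congr fun v ρ _ => ?_
  rw [← ctb_iff_rel C (v x), ← lvl_ctb C (v x)]
  unfold Lvl
  refine and_congr_right fun _ => ?_
  constructor
  · intro h5 z hz
    exact h5 ⟨z, om_mem_kap C hz⟩ hz
  · intro h5 n hn
    exact h5 hn

theorem sod_isTree (C : Cd N κ) (i : ℕ) : SOD N κ (fun v ρ => IsTree C.Ω (ρ 4 i)) := by
  have h1 : SOD N κ (fun v ρ => ∀ w ∈ ρ 4 i, Lvl C.Ω (w 0).1 ∧ Lvl C.Ω (w 1).1 ∧ (w 0).1 ∈ (w 1).1 ∧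
      (w 2).1 ∈ omZ ∧ (w 3).1 ∈ omZ) := by
    refine SOD.allW 4 0 (Q := fun w v ρ => w ∈ ρ 4 i → Lvl C.Ω (w 0).1 ∧ Lvl C.Ω (w 1).1 ∧
      (w 0).1 ∈ (w 1).1 ∧ (w 2).1 ∈ omZ ∧ (w 3).1 ∈ omZ) (by intros; exact Iff.rfl) ?_
    exact (SOD.app 4 i _).imp ((sod_lvl C _).and ((sod_lvl C _).and ((SOD.lt _ _).and
      ((sod_om C.hκω _).and (sod_om C.hκω _)))))
  have h2 : SOD N κ (fun v ρ => ∀ a b m : El κ.toZFSet, Lvl C.Ω a.1 → Lvl C.Ω b.1 → a.1 ∈ b.1 → m.1 ∈ omZ →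
      ∃ n : El κ.toZFSet, ![a, b, m, n] ∈ ρ 4 i) := by
    refine SOD.all 0 (Q := fun a v ρ => ∀ b m : El κ.toZFSet, Lvl C.Ω a.1 → Lvl C.Ω b.1 → a.1 ∈ b.1 →
      m.1 ∈ omZ → ∃ n : El κ.toZFSet, ![a, b, m, n] ∈ ρ 4 i) (by intros; exact Iff.rfl) ?_
    refine SOD.all 1 (Q := fun b v ρ => ∀ m : El κ.toZFSet, Lvl C.Ω (v 0).1 → Lvl C.Ω b.1 → (v 0).1 ∈ b.1 →
      m.1 ∈ omZ → ∃ n : El κ.toZFSet, ![v 0, b, m, n] ∈ ρ 4 i) (by intros; simp (disch := omega) only [updR_ne, upd_ne]) ?_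
    refine SOD.all 2 (Q := fun m v ρ => Lvl C.Ω (v 0).1 → Lvl C.Ω (v 1).1 → (v 0).1 ∈ (v 1).1 →
      m.1 ∈ omZ → ∃ n : El κ.toZFSet, ![v 0, v 1, m, n] ∈ ρ 4 i) (by intros; simp (disch := omega) only [updR_ne, upd_ne]) ?_
    refine (sod_lvl C _).imp ((sod_lvl C _).imp ((SOD.lt _ _).imp ((sod_om C.hκω _).imp ?_)))
    refine SOD.ex 3 (Q := fun n v ρ => ![v 0, v 1, v 2, n] ∈ ρ 4 i) (by intros; simp (disch := omega) only [updR_ne, upd_ne]) ?_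
    refine SOD.app' 4 i ![0, 1, 2, 3] ?_
    intro v j; fin_cases j <;> rfl
  have h3 : SOD N κ (fun v ρ => ∀ a b m n n' : El κ.toZFSet, ![a, b, m, n] ∈ ρ 4 i → ![a, b, m, n'] ∈ ρ 4 i →
      n = n') := by
    refine SOD.all 0 (Q := fun a v ρ => ∀ b m n n' : El κ.toZFSet, ![a, b, m, n] ∈ ρ 4 i →
      ![a, b, m, n'] ∈ ρ 4 i → n = n') (by intros; exact Iff.rfl) ?_
    refine SOD.all 1 (Q := fun b v ρ => ∀ m n n' : El κ.toZFSet, ![v 0, b, m, n] ∈ ρ 4 i →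
      ![v 0, b, m, n'] ∈ ρ 4 i → n = n') (by intros; simp (disch := omega) only [updR_ne, upd_ne]) ?_
    refine SOD.all 2 (Q := fun m v ρ => ∀ n n' : El κ.toZFSet, ![v 0, v 1, m, n] ∈ ρ 4 i →
      ![v 0, v 1, m, n'] ∈ ρ 4 i → n = n') (by intros; simp (disch := omega) only [updR_ne, upd_ne]) ?_
    refine SOD.all 3 (Q := fun n v ρ => ∀ n' : El κ.toZFSet, ![v 0, v 1, v 2, n] ∈ ρ 4 i →
      ![v 0, v 1, v 2, n'] ∈ ρ 4 i → n = n') (by intros; simp (disch := omega) only [updR_ne, upd_ne]) ?_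
    refine SOD.all 4 (Q := fun n' v ρ => ![v 0, v 1, v 2, v 3] ∈ ρ 4 i →
      ![v 0, v 1, v 2, n'] ∈ ρ 4 i → v 3 = n') (by intros; simp (disch := omega) only [updR_ne, upd_ne]) ?_
    refine (SOD.app' 4 i ![0, 1, 2, 3] ?_).imp ((SOD.app' 4 i ![0, 1, 2, 4] ?_).imp (SOD.eq _ _))
    · intro v j; fin_cases j <;> rfl
    · intro v j; fin_cases j <;> rfl
  have h4 : SOD N κ (fun v ρ => ∀ a b c m n l : El κ.toZFSet, ![b, c, m, n] ∈ ρ 4 i → ![a, b, n, l] ∈ ρ 4 i →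
      ![a, c, m, l] ∈ ρ 4 i) := by
    refine SOD.all 0 (Q := fun a v ρ => ∀ b c m n l : El κ.toZFSet, ![b, c, m, n] ∈ ρ 4 i →
      ![a, b, n, l] ∈ ρ 4 i → ![a, c, m, l] ∈ ρ 4 i) (by intros; exact Iff.rfl) ?_
    refine SOD.all 1 (Q := fun b v ρ => ∀ c m n l : El κ.toZFSet, ![b, c, m, n] ∈ ρ 4 i →
      ![v 0, b, n, l] ∈ ρ 4 i → ![v 0, c, m, l] ∈ ρ 4 i) (by intros; simp (disch := omega) only [updR_ne, upd_ne]) ?_
    refine SOD.all 2 (Q := fun c v ρ => ∀ m n l : El κ.toZFSet, ![v 1, c, m, n] ∈ ρ 4 i →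
      ![v 0, v 1, n, l] ∈ ρ 4 i → ![v 0, c, m, l] ∈ ρ 4 i) (by intros; simp (disch := omega) only [updR_ne, upd_ne]) ?_
    refine SOD.all 3 (Q := fun m v ρ => ∀ n l : El κ.toZFSet, ![v 1, v 2, m, n] ∈ ρ 4 i →
      ![v 0, v 1, n, l] ∈ ρ 4 i → ![v 0, v 2, m, l] ∈ ρ 4 i) (by intros; simp (disch := omega) only [updR_ne, upd_ne]) ?_
    refine SOD.all 4 (Q := fun n v ρ => ∀ l : El κ.toZFSet, ![v 1, v 2, v 3, n] ∈ ρ 4 i →
      ![v 0, v 1, n, l] ∈ ρ 4 i → ![v 0, v 2, v 3, l] ∈ ρ 4 i) (by intros; simp (disch := omega) only [updR_ne, upd_ne]) ?_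
    refine SOD.all 5 (Q := fun l v ρ => ![v 1, v 2, v 3, v 4] ∈ ρ 4 i →
      ![v 0, v 1, v 4, l] ∈ ρ 4 i → ![v 0, v 2, v 3, l] ∈ ρ 4 i) (by intros; simp (disch := omega) only [updR_ne, upd_ne]) ?_
    refine (SOD.app' 4 i ![1, 2, 3, 4] ?_).imp ((SOD.app' 4 i ![0, 1, 4, 5] ?_).imp
      (SOD.app' 4 i ![0, 2, 3, 5] ?_))
    · intro v j; fin_cases j <;> rfl
    · intro v j; fin_cases j <;> rfl
    · intro v j; fin_cases j <;> rfl
  refine (h1.and (h2.and (h3.and h4))).congr fun v ρ _ => ?_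
  constructor
  · rintro ⟨a1, a2, a3, a4⟩
    exact ⟨a1, a2, a3, a4⟩
  · intro h
    exact ⟨h.dom, h.tot, h.uni, h.coh⟩

end Pool.Agent.H17.CF.D
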