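import Pool.Agent.H17.CF.D.SodN

/-!
# Job CFD-S2: the order of the trees, atoms, large trees, vertices are second-order definable

Calculus: `SOD.*` in Sod.lean (quantifiers with a FRESH variable; freshness `hf` by `intros; simp (disch := omega) only [updR_ne, upd_ne]`).

PROOFS. Unfold the definition (Def.lean) and choose fresh variables.
* `sod_rl`: unfold `Rl`; `G` is the variable `(4, i + j + 1)`, elements `0, ..., 6`; membership `![a, m, m', n] ∈ G` by `SOD.app'`.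
* `sod_tr`: `SOD.congr` from `sod_isTree` (`InN` is in `Gd`). `allTr`, `exTr`: `SOD.allR`, `SOD.exR` for the predicate `Tr C X → Q X v ρ`.
* `sod_seq`: `InN` by `Gd`; `∀ a, IsTree (sec (ρ 5 s) a)`: `SOD.all 0` and `SOD.sec` (`n = 4`, `k = 0`). `allSeq`, `exSeq`.
* `sod_le`: `allTr` with the variable `i + j + 1`. `sod_meet`: `allTr` with `i + j + k + 1`. `sod_atom`: `i + 1`.
* `sod_large`: `allSeq 0`, `exTr (i + 1)`, `a`, `b` the variables `0`, `1`; `Meet C Y (sec S a) (sec S b)` by `SOD.sec` twice (`k = i + 2`, `k = i + 3`).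
* `sod_vert`: `allTr (i + 1)`.
-/

set_option autoImplicit false
set_option linter.unusedVariables false
set_option linter.unusedSectionVars false
set_option linter.unusedSimpArgs false

open Pool.Agent.H17.Omega Pool.Agent.H17.Omega.CTM Pool.Agent.H52.GC Pool.Agent.H7.IG

namespace Pool.Agent.H17.CF.D

variable {N : Set ZFSet.{0}} {κ : Ordinal.{0}}

theorem sod_rl (C : Cd N κ) (i j : ℕ) : SOD N κ (fun v ρ => Rl N C.Ω (ρ 4 i) (ρ 4 j)) := by
  refine SOD.exR 4 (i + j + 1) (by omega) (Q := fun G v ρ =>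
    (∀ a m m' : El κ.toZFSet, Lvl C.Ω a.1 → m.1 ∈ omZ → m'.1 ∈ omZ →
      ∃ n : El κ.toZFSet, n.1 ∈ omZ ∧ ![a, m, m', n] ∈ G) ∧
    ∀ a b m m' k k' n : El κ.toZFSet, ![a, m, m', n] ∈ G → ![b, k, k', n] ∈ G →
      ![a, b, k, m] ∈ ρ 4 i → ![a, b, k', m'] ∈ ρ 4 j → False)
    (by intros; simp (disch := omega) only [updR_ne, upd_ne]) ?_
  refine SOD.and ?_ ?_
  · refine SOD.all 0 (fun _ _ _ _ => Iff.rfl) ?_
    refine SOD.all 1 (by intros; simp (disch := omega) only [updR_ne, upd_ne]) ?_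
    refine SOD.all 2 (by intros; simp (disch := omega) only [updR_ne, upd_ne]) ?_
    refine (sod_lvl C 0).imp ((sod_om C.hκω 1).imp ((sod_om C.hκω 2).imp ?_))
    refine SOD.ex 3 (by intros; simp (disch := omega) only [updR_ne, upd_ne]) ?_
    refine (sod_om C.hκω 3).and ?_
    exact SOD.app' 4 (i + j + 1) ![0, 1, 2, 3] (w := fun v => ![v 0, v 1, v 2, v 3])
      (by intro v k; fin_cases k <;> rfl)
  · refine SOD.all 0 (fun _ _ _ _ => Iff.rfl) ?_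
    refine SOD.all 1 (by intros; simp (disch := omega) only [updR_ne, upd_ne]) ?_
    refine SOD.all 2 (by intros; simp (disch := omega) only [updR_ne, upd_ne]) ?_
    refine SOD.all 3 (by intros; simp (disch := omega) only [updR_ne, upd_ne]) ?_
    refine SOD.all 4 (by intros; simp (disch := omega) only [updR_ne, upd_ne]) ?_
    refine SOD.all 5 (by intros; simp (disch := omega) only [updR_ne, upd_ne]) ?_
    refine SOD.all 6 (by intros; simp (disch := omega) only [updR_ne, upd_ne]) ?_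
    refine SOD.imp ?_ (SOD.imp ?_ (SOD.imp ?_ (SOD.imp ?_ SOD.false')))
    · exact SOD.app' 4 (i + j + 1) ![0, 2, 3, 6] (w := fun v => ![v 0, v 2, v 3, v 6])
        (by intro v k; fin_cases k <;> rfl)
    · exact SOD.app' 4 (i + j + 1) ![1, 4, 5, 6] (w := fun v => ![v 1, v 4, v 5, v 6])
        (by intro v k; fin_cases k <;> rfl)
    · exact SOD.app' 4 i ![0, 1, 4, 2] (w := fun v => ![v 0, v 1, v 4, v 2])
        (by intro v k; fin_cases k <;> rfl)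
    · exact SOD.app' 4 j ![0, 1, 5, 3] (w := fun v => ![v 0, v 1, v 5, v 3])
        (by intro v k; fin_cases k <;> rfl)

theorem sod_tr (C : Cd N κ) (i : ℕ) : SOD N κ (fun v ρ => Tr C (ρ 4 i)) :=
  (sod_isTree C i).congr fun v ρ hρ => ⟨fun h => ⟨hρ.1 4 i, h⟩, fun h => h.2⟩

/-- Quantifiers over the trees, with a fresh variable. -/
theorem allTr (C : Cd N κ) (i : ℕ) {Q : Re κ 4 → Va κ → En κ → Prop}
    (hf : ∀ X Y v ρ, Q X v (updR ρ 4 i Y) ↔ Q X v ρ) (h : SOD N κ (fun v ρ => Q (ρ 4 i) v ρ)) :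
    SOD N κ (fun v ρ => ∀ X, Tr C X → Q X v ρ) :=
  (SOD.allR 4 i (by omega) (Q := fun X v ρ => Tr C X → Q X v ρ)
    (fun X Y v ρ => imp_congr_right fun _ => hf X Y v ρ) ((sod_tr C i).imp h)).congr
    fun v ρ _ => ⟨fun h X hX => h X hX.1 hX, fun h X _ hX => h X hX⟩

theorem exTr (C : Cd N κ) (i : ℕ) {Q : Re κ 4 → Va κ → En κ → Prop}
    (hf : ∀ X Y v ρ, Q X v (updR ρ 4 i Y) ↔ Q X v ρ) (h : SOD N κ (fun v ρ => Q (ρ 4 i) v ρ)) :
    SOD N κ (fun v ρ => ∃ X, Tr C X ∧ Q X v ρ) :=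
  (SOD.exR 4 i (by omega) (Q := fun X v ρ => Tr C X ∧ Q X v ρ)
    (fun X Y v ρ => and_congr_right fun _ => hf X Y v ρ) ((sod_tr C i).and h)).congr
    fun v ρ _ => ⟨fun ⟨X, _, hX⟩ => ⟨X, hX⟩, fun ⟨X, hX⟩ => ⟨X, hX.1.1, hX⟩⟩

theorem sod_seq (C : Cd N κ) (s : ℕ) : SOD N κ (fun v ρ => Seq C (ρ 5 s)) :=
  (SOD.all 0 (Q := fun a v ρ => IsTree C.Ω (sec (ρ 5 s) a)) (fun _ _ _ _ => Iff.rfl)
    (SOD.sec C.hN C.hκN 4 s 0 0 (by omega) (Q := fun X v ρ => IsTree C.Ω X) (fun _ _ _ _ => Iff.rfl)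
      (sod_isTree C 0))).congr
    fun v ρ hρ => ⟨fun h => ⟨hρ.1 5 s, h⟩, fun h => h.2⟩

/-- Quantifiers over the sequences, with a fresh variable. -/
theorem allSeq (C : Cd N κ) (s : ℕ) {Q : Re κ 5 → Va κ → En κ → Prop}
    (hf : ∀ X Y v ρ, Q X v (updR ρ 5 s Y) ↔ Q X v ρ) (h : SOD N κ (fun v ρ => Q (ρ 5 s) v ρ)) :
    SOD N κ (fun v ρ => ∀ S, Seq C S → Q S v ρ) :=
  (SOD.allR 5 s (by omega) (Q := fun X v ρ => Seq C X → Q X v ρ)
    (fun X Y v ρ => imp_congr_right fun _ => hf X Y v ρ) ((sod_seq C s).imp h)).congr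
    fun v ρ _ => ⟨fun h X hX => h X hX.1 hX, fun h X _ hX => h X hX⟩

theorem exSeq (C : Cd N κ) (s : ℕ) {Q : Re κ 5 → Va κ → En κ → Prop}
    (hf : ∀ X Y v ρ, Q X v (updR ρ 5 s Y) ↔ Q X v ρ) (h : SOD N κ (fun v ρ => Q (ρ 5 s) v ρ)) :
    SOD N κ (fun v ρ => ∃ S, Seq C S ∧ Q S v ρ) :=
  (SOD.exR 5 s (by omega) (Q := fun X v ρ => Seq C X ∧ Q X v ρ)
    (fun X Y v ρ => and_congr_right fun _ => hf X Y v ρ) ((sod_seq C s).and h)).congr
    fun v ρ _ => ⟨fun ⟨X, _, hX⟩ => ⟨X, hX⟩, fun ⟨X, hX⟩ => ⟨X, hX.1.1, hX⟩⟩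

theorem sod_le (C : Cd N κ) (i j : ℕ) : SOD N κ (fun v ρ => Le C (ρ 4 i) (ρ 4 j)) :=
  allTr C (i + j + 1) (Q := fun S v ρ => Rl N C.Ω S (ρ 4 j) → Rl N C.Ω S (ρ 4 i))
    (by intros; simp (disch := omega) only [updR_ne, upd_ne])
    ((sod_rl C (i + j + 1) j).imp (sod_rl C (i + j + 1) i))

theorem sod_meet (C : Cd N κ) (i j k : ℕ) : SOD N κ (fun v ρ => Meet C (ρ 4 i) (ρ 4 j) (ρ 4 k)) :=
  (sod_le C i j).and ((sod_le C i k).and
    (allTr C (i + j + k + 1) (Q := fun U v ρ => Le C U (ρ 4 j) → Le C U (ρ 4 k) → Le C U (ρ 4 i))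
      (by intros; simp (disch := omega) only [updR_ne, upd_ne])
      ((sod_le C (i + j + k + 1) j).imp ((sod_le C (i + j + k + 1) k).imp (sod_le C (i + j + k + 1) i)))))

theorem sod_atom (C : Cd N κ) (i : ℕ) : SOD N κ (fun v ρ => Atom C (ρ 4 i)) :=
  (sod_rl C i i).not.and
    (allTr C (i + 1) (Q := fun S v ρ => Le C S (ρ 4 i) → (Rl N C.Ω S S ∨ Le C (ρ 4 i) S))
      (by intros; simp (disch := omega) only [updR_ne, upd_ne])
      ((sod_le C (i + 1) i).imp ((sod_rl C (i + 1) (i + 1)).or (sod_le C i (i + 1)))))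

theorem sod_large (C : Cd N κ) (i : ℕ) : SOD N κ (fun v ρ => Large C (ρ 4 i)) := by
  refine allSeq C 0 (Q := fun S v ρ => ∃ Y, Tr C Y ∧ Atom C Y ∧ Le C Y (ρ 4 i) ∧
    ∀ a b, ¬ Meet C Y (sec S a) (sec S b)) (by intros; simp (disch := omega) only [updR_ne, upd_ne]) ?_
  refine exTr C (i + 1) (Q := fun Y v ρ => Atom C Y ∧ Le C Y (ρ 4 i) ∧
    ∀ a b, ¬ Meet C Y (sec (ρ 5 0) a) (sec (ρ 5 0) b))
    (by intros; simp (disch := omega) only [updR_ne, upd_ne]) ?_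
  refine (sod_atom C (i + 1)).and ((sod_le C (i + 1) i).and ?_)
  refine SOD.all 0 (Q := fun a v ρ => ∀ b, ¬ Meet C (ρ 4 (i + 1)) (sec (ρ 5 0) a) (sec (ρ 5 0) b))
    (fun _ _ _ _ => Iff.rfl) ?_
  refine SOD.all 1 (Q := fun b v ρ => ¬ Meet C (ρ 4 (i + 1)) (sec (ρ 5 0) (v 0)) (sec (ρ 5 0) b))
    (by intros; simp (disch := omega) only [updR_ne, upd_ne]) ?_
  refine SOD.not ?_
  refine SOD.sec C.hN C.hκN 4 0 (i + 2) 0 (by omega)
    (Q := fun X v ρ => Meet C (ρ 4 (i + 1)) X (sec (ρ 5 0) (v 1)))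
    (by intros; simp (disch := omega) only [updR_ne, upd_ne]) ?_
  exact SOD.sec C.hN C.hκN 4 0 (i + 3) 1 (by omega)
    (Q := fun X v ρ => Meet C (ρ 4 (i + 1)) (ρ 4 (i + 2)) X)
    (by intros; simp (disch := omega) only [updR_ne, upd_ne]) (sod_meet C (i + 1) (i + 2) (i + 3))

theorem sod_vert (C : Cd N κ) (i : ℕ) : SOD N κ (fun v ρ => Vert C (ρ 4 i)) :=
  (sod_large C i).and
    (allTr C (i + 1) (Q := fun Y v ρ => Le C Y (ρ 4 i) → Large C Y → Le C (ρ 4 i) Y)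
      (by intros; simp (disch := omega) only [updR_ne, upd_ne])
      ((sod_le C (i + 1) i).imp ((sod_large C (i + 1)).imp (sod_le C i (i + 1)))))

end Pool.Agent.H17.CF.D
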