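import Pool.Agent.H17.CF.Iface

/-!
# Tuples, relations of `N`, elements of `κ`

`InN.of_dfn`: definable relations (with parameters) on a set of `N` are relations of `N`; `InN.pd`: membership
in a relation of `N` is a definable predicate.
-/

set_option autoImplicit false
set_option linter.unusedVariables false
set_option linter.unusedSectionVars false
set_option linter.unusedSimpArgs false

open Pool.Agent.H17.Omega Pool.Agent.H17.Omega.CTM Pool.Agent.H52.GC Pool.Agent.H7.IG

namespace Pool.Agent.H17.CF.D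

variable {N : Set ZFSet.{0}} {κ : Ordinal.{0}}

/-! ### Tuples -/

theorem tup_zero (w : Fin 0 → ZFSet.{0}) : tup w = ∅ := by
  simp [tup, tupL]

theorem tup_succ {n : ℕ} (w : Fin (n + 1) → ZFSet.{0}) :
    tup w = ZFSet.pair (w 0) (tup (fun i => w i.succ)) := by
  simp [tup, tupL, List.ofFn_succ]

theorem tup_cons {n : ℕ} (a : ZFSet.{0}) (w : Fin n → ZFSet.{0}) :
    tup (Fin.cons a w : Fin (n + 1) → ZFSet.{0}) = ZFSet.pair a (tup w) := by
  rw [tup_succ]
  simp

theorem tup_inj {n : ℕ} {w w' : Fin n → ZFSet.{0}} : tup w = tup w' ↔ w = w' := by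
  constructor
  · intro h
    induction n with
    | zero => exact Subsingleton.elim _ _
    | succ n ih =>
      rw [tup_succ, tup_succ, ZFSet.pair_inj] at h
      funext i
      refine Fin.cases h.1 (fun j => ?_) i
      exact congrFun (ih h.2) j
  · rintro rfl
    rfl

theorem tup_mem (hN : CTM N) {n : ℕ} {w : Fin n → ZFSet.{0}} (h : ∀ i, w i ∈ N) : tup w ∈ N := by
  induction n with
  | zero => rw [tup_zero]; exact hN.empty_mem
  | succ n ih => rw [tup_succ]; exact hN.pair_mem (h 0) (ih fun i => h _)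

variable {hN : CTM N}

/-- The tuple of definable terms is a definable term. -/
theorem PD_tup {n k : ℕ} {s : Fin n → (Fin k → N) → ZFSet.{0}} (hs : ∀ i, PD hN (s i)) :
    PD hN (fun v => tup (fun i => s i v)) := by
  induction n with
  | zero => exact (PD.const hN.empty_mem).congr fun v => (tup_zero _).symm
  | succ n ih =>
    exact (PD.pair (hs 0) (ih (s := fun i => s i.succ) fun i => hs _)).congr fun v =>
      (tup_succ (fun i => s i v)).symm

/-- The set of the tuples of elements of `A`. -/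
theorem exists_tups (hN : CTM N) {A : ZFSet.{0}} (hA : A ∈ N) (n : ℕ) :
    ∃ T ∈ N, ∀ z, z ∈ T ↔ ∃ w : Fin n → ZFSet.{0}, (∀ i, w i ∈ A) ∧ z = tup w := by
  induction n with
  | zero =>
    refine ⟨{∅}, hN.singleton_mem hN.empty_mem, fun z => ?_⟩
    rw [ZFSet.mem_singleton]
    constructor
    · rintro rfl
      exact ⟨Fin.elim0, fun i => i.elim0, (tup_zero _).symm⟩
    · rintro ⟨w, -, rfl⟩
      exact tup_zero _
  | succ n ih =>
    obtain ⟨T, hT, hT'⟩ := ih
    refine ⟨ZFSet.prod A T, hN.prod_mem hA hT, fun z => ?_⟩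
    rw [ZFSet.mem_prod]
    constructor
    · rintro ⟨a, ha, t, ht, rfl⟩
      obtain ⟨w, hw, rfl⟩ := (hT' t).1 ht
      refine ⟨Fin.cons a w, fun i => ?_, (tup_cons _ _).symm⟩
      refine Fin.cases ?_ (fun j => ?_) i
      · simpa using ha
      · simpa using hw j
    · rintro ⟨w, hw, rfl⟩
      exact ⟨w 0, hw 0, _, (hT' _).2 ⟨fun i => w i.succ, fun i => hw _, rfl⟩, tup_succ w⟩

/-! ### Relations -/

/-- The elements of `A ∈ N` as elements of `N`. -/
def up (hN : CTM N) {A : ZFSet.{0}} (hA : A ∈ N) (x : El A) : N := ⟨x.1, hN.mem_of_mem hA x.2⟩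

/-- Definable relations are relations of `N`. -/
theorem InN.of_dfn (hN : CTM N) {A : ZFSet.{0}} (hA : A ∈ N) {n : ℕ} {P : (Fin n → N) → Prop}
    (hP : hN.Dfn P) : InN N {w : Fin n → El A | P (fun i => up hN hA (w i))} := by
  obtain ⟨T, hT, hT'⟩ := exists_tups hN hA n
  have h1 : hN.Dfn (fun v : Fin 1 → N => ∃ w : Fin n → N, (v 0).1 = tup (fun i => (w i).1) ∧ P w) := by
    have h2 : hN.Dfn (fun v : Fin (1 + n) → N => (v (Fin.castAdd n 0)).1 =
        tup (fun i => (v (Fin.natAdd 1 i)).1) ∧ P (fun i => v (Fin.natAdd 1 i))) :=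
      (Df.eq (PD.var _) (PD_tup fun i => PD.var _)).and (reidxC hP _)
    refine (exFinC n h2).congr fun v => ?_
    refine exists_congr fun w => ?_
    simp only [Fin.append_left, Fin.append_right]
  obtain ⟨z, hz, hz'⟩ := hN.exists_sep (P := fun x => ∃ w : Fin n → N, x.1 = tup (fun i => (w i).1) ∧ P w)
    h1 hT
  refine ⟨z, hz, fun w => ?_⟩
  rw [hz']
  constructor
  · intro hw
    exact ⟨(hT' _).2 ⟨fun i => (w i).1, fun i => (w i).2, rfl⟩,
      tup_mem hN (fun i => hN.mem_of_mem hA (w i).2), _, rfl, hw⟩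
  · rintro ⟨-, _, w', h3, h4⟩
    have h5 := tup_inj.1 h3
    have h6 : (fun i => up hN hA (w i)) = w' := by
      funext i
      exact Subtype.ext (congrFun h5 i)
    show P _
    rw [h6]
    exact h4

/-- Membership of a tuple of definable terms in a relation of `N`, in terms of a code of the relation. -/
theorem dfn_code {n k : ℕ} {z : ZFSet.{0}} (hz : z ∈ N) {s : Fin n → (Fin k → N) → ZFSet.{0}}
    (hs : ∀ i, PD hN (s i)) : hN.Dfn (fun v => tup (fun i => s i v) ∈ z) :=
  Df.mem (PD_tup hs) (PD.const hz)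

/-- The substitution of variables and constants in a relation of `N`. -/
theorem InN.comp (hN : CTM N) {A : ZFSet.{0}} (hA : A ∈ N) {n m : ℕ} {X : Set (Fin n → El A)}
    (hX : InN N X) (f : Fin n → Fin m ⊕ El A) :
    InN N {w : Fin m → El A | (fun i => Sum.elim w id (f i)) ∈ X} := by
  obtain ⟨z, hz, hz'⟩ := hX
  have h1 : hN.Dfn (fun v : Fin m → N => tup (fun i => Sum.elim (fun j => (v j).1)
      (fun a : El A => a.1) (f i)) ∈ z) := by
    refine dfn_code hz fun i => ?_
    rcases f i with j | a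
    · exact PD.var j
    · exact PD.const (hN.mem_of_mem hA a.2)
  have h2 := InN.of_dfn hN hA h1
  refine Eq.mp ?_ h2
  congr 1
  ext w
  show tup _ ∈ z ↔ _ ∈ X
  rw [hz']
  have : (fun i => Sum.elim (fun j => (up hN hA (w j)).1) (fun a : El A => a.1) (f i)) =
      fun i => (Sum.elim w id (f i)).1 := by
    funext i
    rcases f i with j | a <;> rfl
  rw [this]

/-- Sections. -/
theorem InN.sec (hN : CTM N) {A : ZFSet.{0}} (hA : A ∈ N) {n : ℕ} {S : Set (Fin (n + 1) → El A)}
    (hS : InN N S) (a : El A) : InN N (sec S a) := by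
  have h1 := InN.comp hN hA hS (m := n) (fun i => Fin.cases (Sum.inr a) (fun j => Sum.inl j) i)
  refine Eq.mp ?_ h1
  congr 1
  ext w
  show _ ∈ S ↔ _ ∈ S
  have : (fun i : Fin (n + 1) => Sum.elim w id
      (Fin.cases (motive := fun _ => Fin n ⊕ El A) (Sum.inr a) (fun j => Sum.inl j) i)) =
      Fin.cons a w := by
    funext i
    refine Fin.cases ?_ (fun j => ?_) i <;> simp
  rw [this]

/-- Constant families. -/
theorem InN.cst (hN : CTM N) {A : ZFSet.{0}} (hA : A ∈ N) {n : ℕ} {X : Set (Fin n → El A)}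
    (hX : InN N X) : InN N {w : Fin (n + 1) → El A | (fun i : Fin n => w i.succ) ∈ X} :=
  InN.comp hN hA hX (m := n + 1) (fun i => Sum.inl i.succ)

theorem sec_cst {A : ZFSet.{0}} {n : ℕ} (X : Set (Fin n → El A)) (a : El A) :
    sec {w : Fin (n + 1) → El A | (fun i : Fin n => w i.succ) ∈ X} a = X := by
  ext w
  show (fun i : Fin n => (Fin.cons a w : Fin (n + 1) → El A) i.succ) ∈ X ↔ w ∈ X
  simp

/-! ### Elements of `κ` -/

/-- Relations on `κ`. -/
abbrev Re (κ : Ordinal.{0}) (n : ℕ) : Type 1 := Set (Fin n → El κ.toZFSet)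

/-- The ordinal of an element of `κ`. -/
noncomputable def od (x : El κ.toZFSet) : Ordinal.{0} := x.1.rank

/-- The element of `κ` given by an ordinal below `κ`. -/
noncomputable def el {α : Ordinal.{0}} (h : α < κ) : El κ.toZFSet :=
  ⟨α.toZFSet, Ordinal.toZFSet_mem_toZFSet_iff.2 h⟩

theorem od_lt (x : El κ.toZFSet) : od x < κ := by
  obtain ⟨α, hα, h⟩ := Ordinal.mem_toZFSet_iff.1 x.2
  unfold od
  rw [← h, Ordinal.rank_toZFSet]
  exact hα

theorem od_val (x : El κ.toZFSet) : (od x).toZFSet = x.1 := by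
  obtain ⟨α, hα, h⟩ := Ordinal.mem_toZFSet_iff.1 x.2
  unfold od
  rw [← h, Ordinal.rank_toZFSet]

theorem od_el {α : Ordinal.{0}} (h : α < κ) : od (el h) = α := by
  unfold od el
  rw [Ordinal.rank_toZFSet]

theorem el_od (x : El κ.toZFSet) : el (od_lt x) = x := Subtype.ext (od_val x)

theorem od_inj {x y : El κ.toZFSet} : od x = od y ↔ x = y := by
  constructor
  · intro h
    apply Subtype.ext
    rw [← od_val x, ← od_val y, h]
  · rintro rfl
    rfl

theorem mem_iff_od {x y : El κ.toZFSet} : x.1 ∈ y.1 ↔ od x < od y := by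
  rw [← od_val x, ← od_val y, Ordinal.toZFSet_mem_toZFSet_iff]

end Pool.Agent.H17.CF.D
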