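import Pool.Agent.H17.CF.D.Lrg

/-!
# Job CFD-4b: vertices

PROOFS.
* `vert_iff`, `→`: `A X` contains a clique `c` that is not an edge: `∅` or `{x}`; if `∅ ∈ A X` then `{x} ∈ A X` for `x = (0, 0)` (`C.A_up`). So
  `{x} ∈ A X`, `A (T x) ⊆ A X` (`isV_T`, `C.A_up`), `T x` is large (`{x} ∈ A (T x)`), so `A X ⊆ A (T x)`. `←`: `X` is large because of `{x}`.
  If `A Y ⊆ A X` and `Y` is large then `A Y` contains a non-edge `c` with `x ∈ c`, so `c = {x}`, and `A X ⊆ A Y` by `C.A_up`.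
* `isV_le`: `{x} ∈ A X ⊆ A Y`. `isV_rl`: a clique containing `x` and `y`: `{x}` if `x = y`, an edge otherwise (`cl_two`).
-/

set_option autoImplicit false
set_option linter.unusedVariables false
set_option linter.unusedSectionVars false
set_option linter.unusedSimpArgs false

open Pool.Agent.H17.Omega Pool.Agent.H17.Omega.CTM Pool.Agent.H52.GC Pool.Agent.H7.IG

namespace Pool.Agent.H17.CF.D

variable {N : Set ZFSet.{0}} {κ : Ordinal.{0}} {C : Cd N κ}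

theorem vtx_ne {x y z : Row} (h : C.Ed x y) : ({z} : Set Row) ≠ {x, y} := by
  intro h1
  have h2 : x ∈ ({z} : Set Row) := by rw [h1]; exact Set.mem_insert _ _
  have h3 : y ∈ ({z} : Set Row) := by rw [h1]; exact Set.mem_insert_of_mem _ rfl
  rw [Set.mem_singleton_iff] at h2 h3
  exact ed_ne h (h2.trans h3.symm)

theorem isV_large {X : Re κ 4} (hX : Tr C X) {x : Row} (h : IsV C X x) : Large C X :=
  (large_iff hX).2 ⟨{x}, h.self, fun _ _ h1 => vtx_ne h1⟩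

/-- If `{x} ∈ A X` then all cliques that contain `x` are in `A X`. -/
theorem vtx_up {X : Re κ 4} (hX : Tr C X) {x : Row} (h : ({x} : Set Row) ∈ C.A X) {c : Set Row}
    (hc : c ∈ C.Cl) (hxc : x ∈ c) : c ∈ C.A X :=
  C.A_up X hX.2 hX.1 _ h c hc (Set.singleton_subset_iff.2 hxc)

theorem vert_iff {X : Re κ 4} (hX : Tr C X) : Vert C X ↔ ∃ x, IsV C X x := by
  constructor
  · rintro ⟨h1, h2⟩
    obtain ⟨c, hc, hce⟩ := (large_iff hX).1 h1
    have h3 : ∃ x ∈ C.Act, ({x} : Set Row) ∈ C.A X := by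
      rcases (C.cl_iff c).1 (C.A_sub _ hc) with rfl | ⟨x, hx, rfl⟩ | ⟨x, y, hxy, rfl⟩
      · have h4 := C.act3 0 (lam_pos C) 0 (by norm_num)
        refine ⟨(0, 0), h4, C.A_up X hX.2 hX.1 _ hc _ ?_ (Set.empty_subset _)⟩
        exact (C.cl_iff _).2 (Or.inr (Or.inl ⟨_, h4, rfl⟩))
      · exact ⟨x, hx, hc⟩
      · exact absurd rfl (hce x y hxy)
    obtain ⟨x, hx, hxX⟩ := h3
    have hT := tr_T (C := C) hx
    have hV := isV_T (C := C) hx
    have h4 : Le C (C.T x) X := (le_iff hT hX).2 fun c hc =>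
      vtx_up hX hxX ((hV.2 c).1 hc).1 ((hV.2 c).1 hc).2
    have h5 := (le_iff hX hT).1 (h2 _ hT h4 (isV_large hT hV))
    have h6 := (le_iff hT hX).1 h4
    exact ⟨x, hx, fun c => ⟨fun h => (hV.2 c).1 (h5 h), fun h => h6 ((hV.2 c).2 h)⟩⟩
  · rintro ⟨x, hx⟩
    refine ⟨isV_large hX hx, fun Y hY hle hl => ?_⟩
    have h1 := (le_iff hY hX).1 hle
    obtain ⟨c, hc, hce⟩ := (large_iff hY).1 hl
    have h2 := (hx.2 c).1 (h1 hc)
    have h3 : c = {x} := by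
      rcases (C.cl_iff c).1 h2.1 with rfl | ⟨z, hz, rfl⟩ | ⟨z, t, hzt, rfl⟩
      · exact absurd h2.2 (Set.notMem_empty _)
      · have h4 : x = z := h2.2
        rw [h4]
      · exact absurd rfl (hce z t hzt)
    rw [h3] at hc
    refine (le_iff hX hY).2 fun c' hc' => ?_
    have h4 := (hx.2 c').1 hc'
    exact vtx_up hY hc h4.1 h4.2

theorem isV_le {X Y : Re κ 4} (hX : Tr C X) (hY : Tr C Y) {x y : Row} (h : IsV C X x) (h' : IsV C Y y) :
    Le C X Y ↔ x = y := by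
  rw [le_iff hX hY]
  constructor
  · intro h1
    have h2 := ((h'.2 _).1 (h1 h.self)).2
    exact (Set.mem_singleton_iff.1 h2).symm
  · rintro rfl c hc
    exact (h'.2 c).2 ((h.2 c).1 hc)

theorem isV_rl {X Y : Re κ 4} (hX : Tr C X) (hY : Tr C Y) {x y : Row} (h : IsV C X x) (h' : IsV C Y y) :
    Rl N C.Ω X Y ↔ x ≠ y ∧ ¬ C.Ed x y ∧ ¬ C.Ed y x := by
  rw [rl_iff hX hY]
  constructor
  · intro h1
    refine ⟨?_, ?_, ?_⟩
    · rintro rfl
      exact h1 _ h.self h'.self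
    · intro h2
      exact h1 {x, y} ((h.2 _).2 ⟨ed_cl h2, Set.mem_insert _ _⟩)
        ((h'.2 _).2 ⟨ed_cl h2, Set.mem_insert_of_mem _ rfl⟩)
    · intro h2
      exact h1 {y, x} ((h.2 _).2 ⟨ed_cl h2, Set.mem_insert_of_mem _ rfl⟩)
        ((h'.2 _).2 ⟨ed_cl h2, Set.mem_insert _ _⟩)
  · rintro ⟨h1, h2, h3⟩ c hc hc'
    rcases (cl_two ((h.2 c).1 hc).1 ((h.2 c).1 hc).2 ((h'.2 c).1 hc').2 h1).2 with h4 | h4
    · exact h2 h4
    · exact h3 h4

theorem adj_iff {X Y : Re κ 4} (hX : Tr C X) (hY : Tr C Y) {x y : Row} (h : IsV C X x) (h' : IsV C Y y) :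
    Adj C X Y ↔ C.Ed x y ∨ C.Ed y x := by
  unfold Adj
  rw [isV_le hX hY h h', isV_rl hX hY h h']
  constructor
  · rintro ⟨_, _, h1, h2⟩
    by_contra h3
    rw [not_or] at h3
    exact h1 ⟨h2, h3.1, h3.2⟩
  · intro h1
    refine ⟨(vert_iff hX).2 ⟨x, h⟩, (vert_iff hY).2 ⟨y, h'⟩, ?_, ?_⟩
    · rintro ⟨_, h2, h3⟩
      rcases h1 with h1 | h1
      · exact h2 h1
      · exact h3 h1
    · rcases h1 with h1 | h1
      · exact ed_ne h1
      · exact (ed_ne h1).symm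

theorem adj_exists {X Y : Re κ 4} (hX : Tr C X) (hY : Tr C Y) (h : Adj C X Y) :
    ∃ x y, IsV C X x ∧ IsV C Y y ∧ (C.Ed x y ∨ C.Ed y x) := by
  obtain ⟨x, hx⟩ := (vert_iff hX).1 h.1
  obtain ⟨y, hy⟩ := (vert_iff hY).1 h.2.1
  exact ⟨x, y, hx, hy, (adj_iff hX hY hx hy).1 h⟩

theorem isV_uniq {X : Re κ 4} {x y : Row} (h : IsV C X x) (h' : IsV C X y) : x = y := by
  have h2 := ((h'.2 _).1 h.self).2
  exact (Set.mem_singleton_iff.1 h2).symm

end Pool.Agent.H17.CF.D
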