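import Pool.Agent.H17.CF.D.Cod

/-!
# Job CFD-11: the well-ordering

PROOFS. `lc C n E` is the least index of a code. `lc_mem`: `exists_code`, `csInf_mem`. `wo_iff`: `→`: `X` has the row `(θ, 0)`, `κ < θ < lam` (`basep_iff`), `θ` is
a code of `E` (`code_congr` with `T (θ, 0)`); apply the last clause to `Y = T (lc E', 0)`: not `lc E' < θ` (`lt_iff`, `κ < θ`), so `lc E ≤ θ ≤ lc E'`
(`csInf_le'`). `←`: `X = T (lc E, 0)`; a code `Y` of `E'` has the row `(θ', 0)` and `lc E' ≤ θ'`, so `Lt Y X` is false.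
`wo_anti`: `lc E = lc E'`, `code_uniq`. `wo_min`: a member of `Q` with the least `lc` (`WellFounded.has_min` / `exists_minimal...` for ordinals).
-/

set_option autoImplicit false
set_option linter.unusedVariables false
set_option linter.unusedSectionVars false
set_option linter.unusedSimpArgs false

open Pool.Agent.H17.Omega Pool.Agent.H17.Omega.CTM Pool.Agent.H52.GC Pool.Agent.H7.IG

namespace Pool.Agent.H17.CF.D

variable {N : Set ZFSet.{0}} {κ : Ordinal.{0}}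

/-- The least index of a code of `E`. -/
noncomputable def lc (C : Cd N κ) (n : ℕ) (E : Re κ n) : Ordinal.{0} :=
  sInf {θ | κ < θ ∧ θ < C.lam ∧ Code C n (C.T (θ, 0)) E}

variable {C : Cd N κ} {n : ℕ}

theorem lc_mem {E : Re κ n} (hE : InN N E) :
    κ < lc C n E ∧ lc C n E < C.lam ∧ Code C n (C.T (lc C n E, 0)) E := by
  obtain ⟨θ, h⟩ := exists_code (C := C) hE
  exact csInf_mem (s := {θ | κ < θ ∧ θ < C.lam ∧ Code C n (C.T (θ, 0)) E}) ⟨θ, h⟩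

theorem lc_le {X : Re κ 4} (hX : Tr C X) (hB : BaseP C X) {E : Re κ n} (hE : Code C n X E) :
    ∃ θ, κ < θ ∧ IsV C X (θ, 0) ∧ lc C n E ≤ θ := by
  obtain ⟨θ, h1, h2, h3⟩ := (basep_iff hX).1 hB
  have hact : (θ, 0) ∈ C.Act := C.act3 θ h2 0 (by norm_num)
  exact ⟨θ, h1, h3, csInf_le' ⟨h1, h2, (code_congr hX (tr_T hact) h3 (isV_T hact)).1 hE⟩⟩

theorem wo_iff {E E' : Re κ n} (hE : InN N E) (hE' : InN N E') : Wo C n E E' ↔ lc C n E ≤ lc C n E' := by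
  obtain ⟨a1, a2, a3⟩ := lc_mem (C := C) hE
  obtain ⟨b1, b2, b3⟩ := lc_mem (C := C) hE'
  have ha : (lc C n E, 0) ∈ C.Act := C.act3 _ a2 0 (by norm_num)
  have hb : (lc C n E', 0) ∈ C.Act := C.act3 _ b2 0 (by norm_num)
  constructor
  · rintro ⟨X, hX, hB, hc, h⟩
    obtain ⟨θ, h1, h3, h4⟩ := lc_le hX hB hc
    have h5 := h _ (tr_T hb) ((basep_iff (tr_T hb)).2 ⟨_, b1, b2, isV_T hb⟩) b3
    rw [lt_iff (tr_T hb) hX (isV_T hb) h3] at h5
    exact h4.trans (not_lt.1 fun h6 => h5 ⟨h6, h1⟩)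
  · intro h
    refine ⟨_, tr_T ha, (basep_iff (tr_T ha)).2 ⟨_, a1, a2, isV_T ha⟩, a3, fun Y hY hB hc hlt => ?_⟩
    obtain ⟨θ, h1, h3, h4⟩ := lc_le hY hB hc
    rw [lt_iff hY (tr_T ha) h3 (isV_T ha)] at hlt
    exact absurd ((hlt.1.trans_le h).trans_le h4) (lt_irrefl _)

theorem wo_total {E E' : Re κ n} (hE : InN N E) (hE' : InN N E') : Wo C n E E' ∨ Wo C n E' E := by
  rw [wo_iff hE hE', wo_iff hE' hE]
  exact le_total _ _

theorem wo_anti {E E' : Re κ n} (hE : InN N E) (hE' : InN N E') (h : Wo C n E E') (h' : Wo C n E' E) :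
    E = E' := by
  rw [wo_iff hE hE'] at h
  rw [wo_iff hE' hE] at h'
  have he := le_antisymm h h'
  obtain ⟨a1, a2, a3⟩ := lc_mem (C := C) hE
  obtain ⟨b1, b2, b3⟩ := lc_mem (C := C) hE'
  rw [← he] at b3
  have ha : (lc C n E, 0) ∈ C.Act := C.act3 _ a2 0 (by norm_num)
  exact code_uniq (tr_T ha) (isV_T ha) a3 b3

theorem wo_min (Q : Set (Re κ n)) (hQ : ∀ X ∈ Q, InN N X) (hne : Q.Nonempty) :
    ∃ X ∈ Q, ∀ Y ∈ Q, Wo C n X Y := by
  obtain ⟨α, ⟨X, hX, rfl⟩, hmin⟩ := WellFounded.has_min (α := Ordinal.{0}) wellFounded_lt (lc C n '' Q)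
    (hne.image _)
  exact ⟨X, hX, fun Y hY => (wo_iff (hQ X hX) (hQ Y hY)).2 (not_lt.1 (hmin _ ⟨Y, hY, rfl⟩))⟩

end Pool.Agent.H17.CF.D
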